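import Mathlib
import Pool.Agent.Lib.MP_fffc5a_co.V.Big

/-!
There are few members outside the star: the general condition.
-/

set_option autoImplicit false

open Finset

namespace Pool.Agent.Lib.MP_fffc5a_co.W

private theorem num_a {k u v e L W S : ℕ} (hu : 2 ≤ u) (hL : 0 < L)
    (hLW : L ≤ 2 ^ (k - 1) * W) (hk : 2 ≤ k)
    (h : 32 ^ u * (v - 1) * L ^ (u - 1) < W ^ u) (hS : W * e ≤ 8 * S)
    (hK : ∀ s : ℕ, 2 * u ≤ s → s * L ≤ S → L * s ^ u ≤ 2 ^ u * (e ^ u * (v - 1))) :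
    e < 8 * u * 2 ^ k := by
  by_contra hlt
  push Not at hlt
  have hkk : 2 ^ k = 2 * 2 ^ (k - 1) := by
    rw [← pow_succ']
    congr 1
    omega
  have he : 0 < e := by
    have : 0 < 8 * u * 2 ^ k := by positivity
    omega
  have h1 : 16 * u * L ≤ W * e := by
    calc 16 * u * L ≤ 16 * u * (2 ^ (k - 1) * W) := Nat.mul_le_mul_left _ hLW
      _ = W * (8 * u * 2 ^ k) := by rw [hkk]; ring
      _ ≤ W * e := Nat.mul_le_mul_left _ hlt
  obtain ⟨s, hs⟩ : ∃ s, s = W * e / (8 * L) := ⟨_, rfl⟩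
  have hL8 : 0 < 8 * L := by omega
  have hs2 : 2 * u ≤ s := by
    rw [hs, Nat.le_div_iff_mul_le hL8]
    calc 2 * u * (8 * L) = 16 * u * L := by ring
      _ ≤ W * e := h1
  have hs3 : s * (8 * L) ≤ W * e := by rw [hs]; exact Nat.div_mul_le_self _ _
  have hs4 : W * e < (s + 1) * (8 * L) := by
    rw [hs]
    have := Nat.lt_div_mul_add (a := W * e) hL8
    calc W * e < W * e / (8 * L) * (8 * L) + 8 * L := this
      _ = (W * e / (8 * L) + 1) * (8 * L) := by ring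
  have hs5 : W * e ≤ 16 * L * s := by
    have : (s + 1) * (8 * L) ≤ 16 * L * s := by nlinarith
    omega
  have hs6 : s * L ≤ S := by nlinarith
  have h2 := hK s hs2 hs6
  have h3 : W ^ u * e ^ u ≤ 32 ^ u * L ^ (u - 1) * (v - 1) * e ^ u := by
    calc W ^ u * e ^ u = (W * e) ^ u := (mul_pow _ _ _).symm
      _ ≤ (16 * L * s) ^ u := Nat.pow_le_pow_left hs5 u
      _ = 16 ^ u * L ^ (u - 1) * (L * s ^ u) := by
        obtain ⟨w, rfl⟩ : ∃ w, u = w + 1 := ⟨u - 1, by omega⟩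
        rw [Nat.add_sub_cancel, mul_pow, mul_pow, pow_succ L]
        ring
      _ ≤ 16 ^ u * L ^ (u - 1) * (2 ^ u * (e ^ u * (v - 1))) := Nat.mul_le_mul_left _ h2
      _ = (16 * 2) ^ u * L ^ (u - 1) * (v - 1) * e ^ u := by rw [mul_pow]; ring
      _ = 32 ^ u * L ^ (u - 1) * (v - 1) * e ^ u := by norm_num
  have h4 : W ^ u ≤ 32 ^ u * L ^ (u - 1) * (v - 1) :=
    Nat.le_of_mul_le_mul_right h3 (by positivity)
  have h5 : 32 ^ u * L ^ (u - 1) * (v - 1) = 32 ^ u * (v - 1) * L ^ (u - 1) := by ring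
  omega

/-- Copy of `V.extras_few` and `big_num` (V/Big.lean): `L = C(2k+a-1,k-1)`, `W = C(k+a-1,k-1)`,
`e = |E|`. If `e ≥ 8 u 2^k`: `16 u L ≤ W e` (`V.l_le_w`), `s = W e / (8 L) ≥ 2 u`,
`s L ≤ ∑` by `V.star_edges`, `V.kst_pow` with `X = E`, `Y` = the star, `N = L`:
`L s^u ≤ 2^u e^u (v-1)`, `W e ≤ 16 L s`, so `W^u ≤ 32^u L^(u-1) (v-1)`: contradiction to `h`. -/
theorem big_a {k a u v : ℕ} (hk : 2 ≤ k) (hu : 2 ≤ u) (hv : 2 ≤ v) (ha : k ≤ a)
    (h : 32 ^ u * (v - 1) * ((2 * k + a - 1).choose (k - 1)) ^ (u - 1) <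
      ((k + a - 1).choose (k - 1)) ^ u)
    {F : Finset (Finset (Fin (2 * k + a)))} (hF : ∀ s ∈ F, s.card = k) (hUI : UI u v F)
    (x : Fin (2 * k + a)) (hcard : (2 * k + a - 1).choose (k - 1) < F.card)
    (h3 : 3 * (2 * k + a - 1).choose (k - 1) ≤ 4 * (F.filter fun s => x ∈ s).card) :
    (F.filter fun s => x ∉ s).card < 8 * u * 2 ^ k := by
  have hS := V.star_edges hk ha hF x hcard h3
  have hcomm : ∑ G ∈ F.filter (fun s => x ∉ s),
      ((F.filter fun s => x ∈ s).filter fun B => Disjoint G B).card =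
      ∑ B ∈ F.filter (fun s => x ∈ s),
        ((F.filter fun s => x ∉ s).filter fun G => Disjoint G B).card := by
    simp only [card_filter]
    exact sum_comm
  rw [hcomm] at hS
  refine num_a hu (Nat.choose_pos (by omega)) (V.l_le_w (by omega) ha) hk h hS
    (fun s hs hsL => ?_)
  exact V.kst_pow (by omega) (by omega) hUI (filter_subset _ _) (filter_subset _ _) hs
    (V.star_card_le (by omega) hF x) hsL

end Pool.Agent.Lib.MP_fffc5a_co.W
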