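import Mathlib
import Pool.Agent.Lib.MP_fffc5a_co.V.StarEdges
import Pool.Agent.Lib.MP_fffc5a_co.Kst

/-!
There are few members outside the star: by links of `(k - j)`-sets.
-/

set_option autoImplicit false

open Finset

namespace Pool.Agent.Lib.MP_fffc5a_co.W

private theorem bb_common {α : Type*} [DecidableEq α] {u v : ℕ} (hv : 1 ≤ v)
    {F : Finset (Finset α)} (hUI : UI u v F) {T : Finset (Finset α)} (hT : ∀ G ∈ T, G ∈ F)
    (hTu : T.card = u) : ∃ C : Finset (Finset α), C.card ≤ v - 1 ∧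
      ∀ B ∈ F, (∀ G ∈ T, Disjoint G B) → B ∈ C :=
  ⟨_, common_nbrs hv hUI hT hTu, fun _ hB h => Finset.mem_filter.2 ⟨hB, h⟩⟩

private theorem bb_deg {k a : ℕ} (hk : 2 ≤ k) {F : Finset (Finset (Fin (2 * k + a)))}
    (hF : ∀ s ∈ F, s.card = k) (x : Fin (2 * k + a)) {G : Finset (Fin (2 * k + a))}
    (hxG : x ∉ G) (hG : G.card = k) :
    ((F.filter fun s => x ∈ s).filter fun B => Disjoint G B).card ≤
      (k + a - 1).choose (k - 1) := by
  have hcard : ((Gᶜ).erase x).card = k + a - 1 := by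
    rw [Finset.card_erase_of_mem (Finset.mem_compl.2 hxG), Finset.card_compl, Fintype.card_fin, hG]
    omega
  rw [← hcard, ← Finset.card_powersetCard]
  refine Finset.card_le_card_of_injOn (fun B => B.erase x) ?_ ?_
  · intro B hB
    rw [Finset.mem_coe, Finset.mem_filter, Finset.mem_filter] at hB
    obtain ⟨⟨hBF, hxB⟩, hGB⟩ := hB
    rw [Finset.mem_coe, Finset.mem_powersetCard]
    refine ⟨Finset.erase_subset_erase x fun b hb => Finset.mem_compl.2 fun hbG =>
      Finset.disjoint_left.1 hGB hbG hb, ?_⟩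
    rw [Finset.card_erase_of_mem hxB, hF B hBF]
  · intro B hB B' hB' h
    rw [Finset.mem_coe, Finset.mem_filter, Finset.mem_filter] at hB hB'
    have h' : B.erase x = B'.erase x := h
    rw [← Finset.insert_erase hB.1.2, ← Finset.insert_erase hB'.1.2, h']

private theorem bb_deg_two {k a : ℕ} {F : Finset (Finset (Fin (2 * k + a)))}
    (hF : ∀ s ∈ F, s.card = k) {x y : Fin (2 * k + a)} {G : Finset (Fin (2 * k + a))}
    (hxG : x ∉ G) (hyG : y ∉ G) (hxy : y ≠ x) (hG : G.card = k) :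
    (((F.filter fun s => x ∈ s).filter fun B => Disjoint G B).filter fun B => y ∈ B).card ≤
      (k + a - 2).choose (k - 2) := by
  have hy' : y ∈ (Gᶜ).erase x := Finset.mem_erase.2 ⟨hxy, Finset.mem_compl.2 hyG⟩
  have hcard : (((Gᶜ).erase x).erase y).card = k + a - 2 := by
    rw [Finset.card_erase_of_mem hy', Finset.card_erase_of_mem (Finset.mem_compl.2 hxG),
      Finset.card_compl, Fintype.card_fin, hG]
    omega
  rw [← hcard, ← Finset.card_powersetCard]
  refine Finset.card_le_card_of_injOn (fun B => (B.erase x).erase y) ?_ ?_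
  · intro B hB
    rw [Finset.mem_coe, Finset.mem_filter, Finset.mem_filter, Finset.mem_filter] at hB
    obtain ⟨⟨⟨hBF, hxB⟩, hGB⟩, hyB⟩ := hB
    rw [Finset.mem_coe, Finset.mem_powersetCard]
    refine ⟨Finset.erase_subset_erase y (Finset.erase_subset_erase x fun b hb =>
      Finset.mem_compl.2 fun hbG => Finset.disjoint_left.1 hGB hbG hb), ?_⟩
    rw [Finset.card_erase_of_mem (Finset.mem_erase.2 ⟨hxy, hyB⟩), Finset.card_erase_of_mem hxB,
      hF B hBF]
    omega
  · intro B hB B' hB' h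
    rw [Finset.mem_coe, Finset.mem_filter, Finset.mem_filter, Finset.mem_filter] at hB hB'
    have h' : (B.erase x).erase y = (B'.erase x).erase y := h
    have h1 : B.erase x = B'.erase x := by
      rw [← Finset.insert_erase (Finset.mem_erase.2 ⟨hxy, hB.2⟩),
        ← Finset.insert_erase (Finset.mem_erase.2 ⟨hxy, hB'.2⟩), h']
    rw [← Finset.insert_erase hB.1.1.2, ← Finset.insert_erase hB'.1.1.2, h1]

/-- `W = C(k+a-1,k-1)`, `d(G)` = number of the members of `F` which contain `x` and are disjoint from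
`G`; `d(G) ≤ W` for `x ∉ G`, `|G| = k`. `E` = members without `x`, `X = {G ∈ E : W ≤ 20 d(G)}`.
`V.star_edges`: `W |E| ≤ 8 ∑_{G ∈ E} d(G)`, so `20 W |E| ≤ 160 |X| W + 8 (|E| - |X|) W` and
`|E| ≤ 14 |X|`. -/
theorem rich_card {k a : ℕ} (hk : 2 ≤ k) (ha : k ≤ a)
    {F : Finset (Finset (Fin (2 * k + a)))} (hF : ∀ s ∈ F, s.card = k) (x : Fin (2 * k + a))
    (hcard : (2 * k + a - 1).choose (k - 1) < F.card)
    (h3 : 3 * (2 * k + a - 1).choose (k - 1) ≤ 4 * (F.filter fun s => x ∈ s).card) :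
    (F.filter fun s => x ∉ s).card ≤ 14 * ((F.filter fun s => x ∉ s).filter fun G =>
      (k + a - 1).choose (k - 1) ≤
        20 * ((F.filter fun s => x ∈ s).filter fun B => Disjoint G B).card).card := by
  have hS := V.star_edges hk ha hF x hcard h3
  obtain ⟨E, hE⟩ : ∃ E, E = F.filter fun s => x ∉ s := ⟨_, rfl⟩
  obtain ⟨W, hW⟩ : ∃ W, W = (k + a - 1).choose (k - 1) := ⟨_, rfl⟩
  obtain ⟨d, hd⟩ : ∃ d : Finset (Fin (2 * k + a)) → ℕ,
      ∀ G, d G = ((F.filter fun s => x ∈ s).filter fun B => Disjoint G B).card := ⟨_, fun _ => rfl⟩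
  have hWpos : 0 < W := by
    rw [hW]
    exact Nat.choose_pos (by omega)
  simp only [← hd, ← hE, ← hW] at hS ⊢
  have hdW : ∀ G ∈ E, d G ≤ W := by
    intro G hG
    rw [hE, Finset.mem_filter] at hG
    rw [hd, hW]
    exact bb_deg hk hF x hG.2 (hF G hG.1)
  have h1 : ∑ G ∈ E, 20 * d G ≤
      20 * W * (E.filter fun G => W ≤ 20 * d G).card +
        W * (E.filter fun G => ¬ W ≤ 20 * d G).card := by
    rw [← Finset.sum_filter_add_sum_filter_not E (fun G => W ≤ 20 * d G)]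
    refine Nat.add_le_add ?_ ?_
    · have h := Finset.sum_le_card_nsmul (E.filter fun G => W ≤ 20 * d G) (fun G => 20 * d G)
        (20 * W) fun G hG => Nat.mul_le_mul_left _ (hdW G (Finset.mem_filter.1 hG).1)
      rw [smul_eq_mul, mul_comm _ (20 * W)] at h
      exact h
    · have h := Finset.sum_le_card_nsmul (E.filter fun G => ¬ W ≤ 20 * d G) (fun G => 20 * d G)
        W fun G hG => (not_le.1 (Finset.mem_filter.1 hG).2).le
      rw [smul_eq_mul, mul_comm _ W] at h
      exact h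
  have h2 := Finset.card_filter_add_card_filter_not (s := E) (fun G => W ≤ 20 * d G)
  rw [← Finset.mul_sum] at h1
  obtain ⟨X, hX⟩ : ∃ X, X = (E.filter fun G => W ≤ 20 * d G).card := ⟨_, rfl⟩
  obtain ⟨Y, hY⟩ : ∃ Y, Y = (E.filter fun G => ¬ W ≤ 20 * d G).card := ⟨_, rfl⟩
  rw [← hX, ← hY] at h1 h2
  rw [← hX, ← h2]
  rw [← h2] at hS
  have h4 : W * (20 * (X + Y)) ≤ W * (8 * (20 * X + Y)) := by
    calc W * (20 * (X + Y)) = 20 * (W * (X + Y)) := by ring
      _ ≤ 20 * (8 * ∑ G ∈ E, d G) := Nat.mul_le_mul_left _ hS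
      _ = 8 * (20 * ∑ G ∈ E, d G) := by ring
      _ ≤ 8 * (20 * W * X + W * Y) := Nat.mul_le_mul_left _ h1
      _ = W * (8 * (20 * X + Y)) := by ring
  have h5 := Nat.le_of_mul_le_mul_left h4 hWpos
  omega

/-- Let `Z` be a set of `u` members of `X` (as in `rich_card`) which contain the `(k-j)`-set `J`;
`G₁ ∈ Z`. The union `Q` of the sets `G \ G₁`, `G ∈ Z`, has at most `(u-1) j` elements. A member
of `F` which contains `x`, is disjoint from `G₁` and not from all members of `Z` contains some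
`y ∈ Q`; for each `y` there are at most `C(k+a-2,k-2)` such members (`k ≥ 2`: they contain `x`, `y`
and are disjoint from `G₁`), and `C(k+a-2,k-2) (k+a-1) = C(k+a-1,k-1) (k-1)`. So at least
`W/20 - (u-1) j (k-1) W / (k+a-1) ≥ W/20 - W/50 > W/50 ≥ v-1` members of `F` are disjoint from all
members of `Z`: contradiction to `common_nbrs`. -/
theorem rich_link {u v k a j : ℕ} (hu : 2 ≤ u) (hk : 2 ≤ k) (hv : 1 ≤ v) (hjk : j ≤ k)
    (hW : 50 * (v - 1) ≤ (k + a - 1).choose (k - 1))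
    (hj : 50 * (u - 1) * j * (k - 1) ≤ k + a - 1)
    {F : Finset (Finset (Fin (2 * k + a)))} (hF : ∀ s ∈ F, s.card = k) (hUI : UI u v F)
    (x : Fin (2 * k + a)) (J : Finset (Fin (2 * k + a))) (hJ : J.card + j = k) :
    (((F.filter fun s => x ∉ s).filter fun G => (k + a - 1).choose (k - 1) ≤
        20 * ((F.filter fun s => x ∈ s).filter fun B => Disjoint G B).card).filter
      fun G => J ⊆ G).card ≤ u - 1 := by
  by_contra hcon
  obtain ⟨Z, hZ, hZc⟩ := Finset.exists_subset_card_eq (show u ≤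
    (((F.filter fun s => x ∉ s).filter fun G => (k + a - 1).choose (k - 1) ≤
        20 * ((F.filter fun s => x ∈ s).filter fun B => Disjoint G B).card).filter
      fun G => J ⊆ G).card by omega)
  have hmem : ∀ G ∈ Z, G ∈ F ∧ x ∉ G ∧ (k + a - 1).choose (k - 1) ≤
      20 * ((F.filter fun s => x ∈ s).filter fun B => Disjoint G B).card ∧ J ⊆ G := by
    intro G hG
    have h1 := hZ hG
    rw [Finset.mem_filter, Finset.mem_filter, Finset.mem_filter] at h1
    exact ⟨h1.1.1.1, h1.1.1.2, h1.1.2, h1.2⟩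
  obtain ⟨G₁, hG₁⟩ : ∃ G₁, G₁ ∈ Z := Finset.card_pos.1 (by omega)
  obtain ⟨hG₁F, hxG₁, hrich, hJG₁⟩ := hmem G₁ hG₁
  obtain ⟨C, hCc, hCm⟩ : ∃ C : Finset (Finset (Fin (2 * k + a))), C.card ≤ v - 1 ∧
      ∀ B ∈ F, (∀ G ∈ Z, Disjoint G B) → B ∈ C :=
    bb_common hv hUI (fun G hG => (hmem G hG).1) hZc
  obtain ⟨Q, hQ⟩ : ∃ Q, Q = (Z.erase G₁).biUnion fun G => G \ G₁ := ⟨_, rfl⟩
  obtain ⟨D, hD⟩ : ∃ D, D = (F.filter fun s => x ∈ s).filter fun B => Disjoint G₁ B := ⟨_, rfl⟩
  rw [← hD] at hrich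
  have hQc : Q.card ≤ (u - 1) * j := by
    rw [hQ]
    refine Finset.card_biUnion_le.trans ?_
    have h1 : ∀ G ∈ Z.erase G₁, (G \ G₁).card ≤ j := by
      intro G hG
      obtain ⟨hGF, -, -, hJG⟩ := hmem G (Finset.mem_of_mem_erase hG)
      have h2 : (G \ G₁).card ≤ (G \ J).card :=
        Finset.card_le_card (Finset.sdiff_subset_sdiff subset_rfl hJG₁)
      have h3 : (G \ J).card = G.card - J.card := Finset.card_sdiff_of_subset hJG
      rw [hF G hGF] at h3
      omega
    have h2 := Finset.sum_le_card_nsmul _ _ _ h1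
    rw [Finset.card_erase_of_mem hG₁, hZc, smul_eq_mul] at h2
    exact h2
  have hcover : D ⊆ C ∪ Q.biUnion fun y => D.filter fun B => y ∈ B := by
    intro B hB
    have hB' := hB
    rw [hD, Finset.mem_filter, Finset.mem_filter] at hB'
    rw [Finset.mem_union]
    by_cases hall : ∀ G ∈ Z, Disjoint G B
    · exact Or.inl (hCm B hB'.1.1 hall)
    · right
      push Not at hall
      obtain ⟨G, hG, hGB⟩ := hall
      rw [Finset.not_disjoint_iff] at hGB
      obtain ⟨y, hyG, hyB⟩ := hGB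
      have hyG₁ : y ∉ G₁ := fun h => Finset.disjoint_left.1 hB'.2 h hyB
      have hne : G ≠ G₁ := fun h => hyG₁ (h ▸ hyG)
      refine Finset.mem_biUnion.2 ⟨y, ?_, Finset.mem_filter.2 ⟨hB, hyB⟩⟩
      rw [hQ]
      exact Finset.mem_biUnion.2 ⟨G, Finset.mem_erase.2 ⟨hne, hG⟩, Finset.mem_sdiff.2 ⟨hyG, hyG₁⟩⟩
  have hDy : ∀ y ∈ Q, (D.filter fun B => y ∈ B).card ≤ (k + a - 2).choose (k - 2) := by
    intro y hy
    rw [hQ] at hy
    obtain ⟨G, hG, hyG⟩ := Finset.mem_biUnion.1 hy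
    obtain ⟨hGF, hxG, -, -⟩ := hmem G (Finset.mem_of_mem_erase hG)
    rw [Finset.mem_sdiff] at hyG
    rw [hD]
    exact bb_deg_two hF hxG₁ hyG.2 (fun h => hxG (h ▸ hyG.1)) (hF G₁ hG₁F)
  have hDc : D.card ≤ (v - 1) + (u - 1) * j * (k + a - 2).choose (k - 2) := by
    refine (Finset.card_le_card hcover).trans ((Finset.card_union_le _ _).trans
      (Nat.add_le_add hCc ?_))
    refine Finset.card_biUnion_le.trans ?_
    have h1 := Finset.sum_le_card_nsmul _ _ _ hDy
    rw [smul_eq_mul] at h1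
    exact h1.trans (Nat.mul_le_mul_right _ hQc)
  obtain ⟨W, hWd⟩ : ∃ W, W = (k + a - 1).choose (k - 1) := ⟨_, rfl⟩
  obtain ⟨W', hWd'⟩ : ∃ W', W' = (k + a - 2).choose (k - 2) := ⟨_, rfl⟩
  have hWpos : 0 < W := by
    rw [hWd]
    exact Nat.choose_pos (by omega)
  have hrel : (k + a - 1) * W' = W * (k - 1) := by
    have h1 := Nat.add_one_mul_choose_eq (k + a - 2) (k - 2)
    have e1 : k + a - 2 + 1 = k + a - 1 := by omega
    have e2 : k - 2 + 1 = k - 1 := by omega
    rw [e1, e2] at h1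
    rw [hWd, hWd']
    exact h1
  rw [← hWd] at hW hrich
  rw [← hWd'] at hDc
  have h6 : 50 * ((u - 1) * j * W') ≤ W := by
    have h7 : (k + a - 1) * (50 * ((u - 1) * j * W')) ≤ (k + a - 1) * W := by
      calc (k + a - 1) * (50 * ((u - 1) * j * W')) = 50 * (u - 1) * j * ((k + a - 1) * W') := by
            ring
        _ = 50 * (u - 1) * j * (k - 1) * W := by rw [hrel]; ring
        _ ≤ (k + a - 1) * W := Nat.mul_le_mul_right _ hj
    exact Nat.le_of_mul_le_mul_left h7 (by omega)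
  omega

/-- Count the pairs `(J, G)`, `|J| = k - j`, `x ∉ J`, `J ⊆ G ∈ X`: `|X| C(k,j) ≤ (u-1)
C(2k+a-1,k-j)` by `rich_link`; `rich_card`. -/
theorem big_b {u v k a j : ℕ} (hu : 2 ≤ u) (hk : 2 ≤ k) (ha : k ≤ a) (hv : 1 ≤ v) (hjk : j ≤ k)
    (hW : 50 * (v - 1) ≤ (k + a - 1).choose (k - 1))
    (hj : 50 * (u - 1) * j * (k - 1) ≤ k + a - 1)
    {F : Finset (Finset (Fin (2 * k + a)))} (hF : ∀ s ∈ F, s.card = k) (hUI : UI u v F)
    (x : Fin (2 * k + a)) (hcard : (2 * k + a - 1).choose (k - 1) < F.card)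
    (h3 : 3 * (2 * k + a - 1).choose (k - 1) ≤ 4 * (F.filter fun s => x ∈ s).card) :
    (F.filter fun s => x ∉ s).card * k.choose j ≤
      14 * (u - 1) * (2 * k + a - 1).choose (k - j) := by
  have hr := rich_card hk ha hF x hcard h3
  have hl : ∀ J ∈ powersetCard (k - j) (univ.erase x), _ :=
    fun J hJ => rich_link hu hk hv hjk hW hj hF hUI x J (by
      rw [(Finset.mem_powersetCard.1 hJ).2]
      omega)
  obtain ⟨X, hX⟩ : ∃ X, X = (F.filter fun s => x ∉ s).filter fun G =>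
      (k + a - 1).choose (k - 1) ≤
        20 * ((F.filter fun s => x ∈ s).filter fun B => Disjoint G B).card := ⟨_, rfl⟩
  rw [← hX] at hr
  simp only [← hX] at hl
  have h1 : ∑ G ∈ X, ((powersetCard (k - j) (univ.erase x)).filter fun J => J ⊆ G).card =
      ∑ J ∈ powersetCard (k - j) (univ.erase x), (X.filter fun G => J ⊆ G).card :=
    Finset.sum_card_bipartiteAbove_eq_sum_card_bipartiteBelow
      (fun (G J : Finset (Fin (2 * k + a))) => J ⊆ G)
      (s := X) (t := powersetCard (k - j) (univ.erase x))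
  have h2 : ∀ G ∈ X, ((powersetCard (k - j) (univ.erase x)).filter fun J => J ⊆ G).card =
      k.choose j := by
    intro G hG
    rw [hX, Finset.mem_filter, Finset.mem_filter] at hG
    have e : (powersetCard (k - j) (univ.erase x)).filter (fun J => J ⊆ G) =
        powersetCard (k - j) G := by
      ext J
      rw [Finset.mem_filter, Finset.mem_powersetCard, Finset.mem_powersetCard]
      refine ⟨fun h => ⟨h.2, h.1.2⟩, fun h => ⟨⟨?_, h.2⟩, h.1⟩⟩
      intro y hy
      exact Finset.mem_erase.2 ⟨fun hyx => hG.1.2 (hyx ▸ h.1 hy), Finset.mem_univ _⟩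
    rw [e, Finset.card_powersetCard, hF G hG.1.1, Nat.choose_symm hjk]
  rw [Finset.sum_congr rfl h2, Finset.sum_const, smul_eq_mul] at h1
  have h4 : X.card * k.choose j ≤ (2 * k + a - 1).choose (k - j) * (u - 1) := by
    rw [h1]
    have h5 := Finset.sum_le_card_nsmul _ _ _ hl
    rw [Finset.card_powersetCard, Finset.card_erase_of_mem (Finset.mem_univ _), Finset.card_univ,
      Fintype.card_fin, smul_eq_mul] at h5
    exact h5
  calc (F.filter fun s => x ∉ s).card * k.choose j ≤ 14 * X.card * k.choose j :=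
        Nat.mul_le_mul_right _ hr
    _ = 14 * (X.card * k.choose j) := by ring
    _ ≤ 14 * ((2 * k + a - 1).choose (k - j) * (u - 1)) := Nat.mul_le_mul_left _ h4
    _ = 14 * (u - 1) * (2 * k + a - 1).choose (k - j) := by ring

end Pool.Agent.Lib.MP_fffc5a_co.W
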