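import Mathlib
import Pool.Agent.Lib.MP_fffc5a_co.T.Dich

/-!
A family of more than `L` sets with few disjoint pairs is close to a star.
-/

set_option autoImplicit false

open Finset

namespace Pool.Agent.Lib.MP_fffc5a_co.W

/-- Copy of `V.close_star` (V/Close.lean): a subfamily with `L + 1` members, `hdp`,
`T.dichotomy`; the co-star alternative is impossible. -/
theorem close_w {k a : ℕ} (hk : 2 ≤ k) (ha : k ≤ a) (h20 : 20 ≤ 2 * k + a)
    (hL : 10 ^ 6 ≤ (2 * k + a - 1).choose (k - 1))
    {F : Finset (Finset (Fin (2 * k + a)))} (hF : ∀ s ∈ F, s.card = k)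
    (hcard : (2 * k + a - 1).choose (k - 1) < F.card)
    (hdp : ∀ F' ⊆ F, F'.card = (2 * k + a - 1).choose (k - 1) + 1 →
      500000 * dp F' F' ≤ (k + a - 2).choose (a - 1) * F'.card) :
    ∃ x, 3 * (2 * k + a - 1).choose (k - 1) ≤ 4 * (F.filter fun s => x ∈ s).card := by
  obtain ⟨F', hF'F, hF'card⟩ := Finset.exists_subset_card_eq (Nat.succ_le_of_lt hcard)
  have hF' : ∀ s ∈ F', s.card = k := fun s hs => hF s (hF'F hs)
  obtain ⟨x, hx | hx⟩ :=
    T.dichotomy hk (by omega) (Fintype.card_fin _) h20 hF' hF'card hL (hdp F' hF'F hF'card)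
  · refine ⟨x, hx.trans (Nat.mul_le_mul_left _ (Finset.card_le_card ?_))⟩
    exact Finset.filter_subset_filter _ hF'F
  · exfalso
    have h1 : (F'.filter fun s => x ∉ s).card ≤ (2 * k + a - 1).choose (k - 1) + 1 :=
      (Finset.card_filter_le _ _).trans hF'card.le
    have h2 := Nat.choose_succ_right_eq (2 * k + a - 1) (k - 1)
    have e1 : k - 1 + 1 = k := by omega
    have e2 : 2 * k + a - 1 - (k - 1) = k + a := by omega
    rw [e1, e2] at h2
    have h3 : 2 * (2 * k + a - 1).choose (k - 1) ≤ (2 * k + a - 1).choose k := by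
      refine Nat.le_of_mul_le_mul_right ?_ (show 0 < k by omega)
      calc 2 * (2 * k + a - 1).choose (k - 1) * k
          = (2 * k + a - 1).choose (k - 1) * (2 * k) := by ring
        _ ≤ (2 * k + a - 1).choose (k - 1) * (k + a) := Nat.mul_le_mul_left _ (by omega)
        _ = (2 * k + a - 1).choose k * k := h2.symm
    omega

end Pool.Agent.Lib.MP_fffc5a_co.W
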