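import Mathlib
import Pool.Agent.Lib.MP_fffc5a_co.Descend

/-!
The descent, with a general factor and a general last level.
-/

set_option autoImplicit false

open Finset

namespace Pool.Agent.Lib.MP_fffc5a_co.W

/-- Copy of `level` (Level.lean; see also V/Desc.lean) with `hT` (there `c = 1`, `d = 2`) as a
hypothesis. -/
theorem level_c {α : Type*} [Fintype α] [DecidableEq α] {u k a h c d : ℕ} (hu : 1 ≤ u)
    (hk : 1 ≤ k) (hn : Fintype.card α = 2 * k + a)
    {F : Finset (Finset α)} (hF : ∀ s ∈ F, s.card = k) {x : α}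
    {X : Finset (Finset α)} (hXF : X ⊆ F.filter fun s => x ∉ s)
    (hX : ∀ T ⊆ X, T.card = u → k + a ≤ (T.biUnion id).card + h)
    {D : Finset (Finset (Finset α))}
    (hD : ∀ T ∈ D, T ⊆ X ∧ T.card = u ∧ (T.biUnion id).card + h = k + a)
    (hT : ∀ T ∈ D, c * (k - 1 + h).choose h ≤
      d * ((Miss F x k).filter fun S => Disjoint S (T.biUnion id)).card)
    (hdisj : (D : Set (Finset (Finset α))).PairwiseDisjoint id) :
    c * (u * D.card * ((k - 1 + h).choose h * a.choose (h + 1))) ≤
      d * ((u - 1) * (k + a).choose (h + 1) * (Miss F x k).card) := by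
  have hXx : ∀ s ∈ X, x ∉ s := fun s hs => (mem_filter.1 (hXF hs)).2
  have hXF' : X ⊆ F := fun s hs => (mem_filter.1 (hXF hs)).1
  -- double counting
  have hsum1 : c * (D.card * (k - 1 + h).choose h) ≤
      d * ∑ S ∈ Miss F x k, (D.filter fun T => Disjoint S (T.biUnion id)).card := by
    have h1 : ∑ T ∈ D, ((Miss F x k).filter fun S => Disjoint S (T.biUnion id)).card =
        ∑ S ∈ Miss F x k, (D.filter fun T => Disjoint S (T.biUnion id)).card := by
      simp only [card_filter]
      exact sum_comm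
    have h2 : c * (D.card * (k - 1 + h).choose h) = ∑ T ∈ D, c * (k - 1 + h).choose h := by
      rw [sum_const, smul_eq_mul]; ring
    rw [← h1, mul_sum, h2]
    exact sum_le_sum hT
  have hS : ∀ S ∈ Miss F x k, u * (D.filter fun T => Disjoint S (T.biUnion id)).card *
      a.choose (h + 1) ≤ (u - 1) * (k + a).choose (h + 1) := by
    intro S hS
    unfold Miss at hS
    rw [mem_filter, mem_powersetCard] at hS
    obtain ⟨⟨hS1, hS2⟩, -⟩ := hS
    have hxS : x ∉ S := fun hx => (mem_erase.1 (hS1 hx)).1 rfl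
    set D' := D.filter fun T => Disjoint S (T.biUnion id) with hD'
    have hD'D : ∀ T ∈ D', T ∈ D := fun T hT => (mem_filter.1 hT).1
    have hG : (D'.biUnion id).card = u * D'.card := by
      rw [card_biUnion]
      · have h5 : ∀ T ∈ D', (id T : Finset (Finset α)).card = u :=
          fun T hT => (hD T (hD'D T hT)).2.1
        rw [sum_congr rfl h5, sum_const, smul_eq_mul, mul_comm]
      · intro T hT T' hT' hne
        exact hdisj (hD'D T hT) (hD'D T' hT') hne
    have hY : (univ \ insert x S).card = k + a := by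
      rw [card_sdiff_of_subset (subset_univ _), card_univ, card_insert_of_notMem hxS, hS2, hn]
      omega
    rw [← hG]
    refine code_bound hu hY ?_ ?_
    · intro s hs
      rw [mem_biUnion] at hs
      obtain ⟨T, hT, hsT⟩ := hs
      simp only [id] at hsT
      have hsX : s ∈ X := (hD T (hD'D T hT)).1 hsT
      refine ⟨?_, hF s (hXF' hsX)⟩
      intro y hy
      rw [mem_sdiff]
      refine ⟨mem_univ y, ?_⟩
      intro hyi
      rcases mem_insert.1 hyi with rfl | hyS
      · exact hXx s hsX hy
      · have h3 := (mem_filter.1 hT).2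
        refine disjoint_left.1 h3 hyS ?_
        rw [mem_biUnion]
        exact ⟨s, hsT, hy⟩
    · intro T' hT' hT'u
      refine hX T' ?_ hT'u
      intro s hs
      have := hT' hs
      rw [mem_biUnion] at this
      obtain ⟨T, hT, hsT⟩ := this
      exact (hD T (hD'D T hT)).1 hsT
  have hsum2 : u * (∑ S ∈ Miss F x k, (D.filter fun T => Disjoint S (T.biUnion id)).card) *
      a.choose (h + 1) ≤ (Miss F x k).card * ((u - 1) * (k + a).choose (h + 1)) := by
    rw [mul_sum, sum_mul, ← smul_eq_mul (Miss F x k).card, ← sum_const]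
    exact sum_le_sum hS
  calc c * (u * D.card * ((k - 1 + h).choose h * a.choose (h + 1)))
      = u * (c * (D.card * (k - 1 + h).choose h)) * a.choose (h + 1) := by ring
    _ ≤ u * (d * ∑ S ∈ Miss F x k, (D.filter fun T => Disjoint S (T.biUnion id)).card) *
        a.choose (h + 1) := by gcongr
    _ = d * (u * (∑ S ∈ Miss F x k, (D.filter fun T => Disjoint S (T.biUnion id)).card) *
        a.choose (h + 1)) := by ring
    _ ≤ d * ((Miss F x k).card * ((u - 1) * (k + a).choose (h + 1))) := by gcongr
    _ = d * ((u - 1) * (k + a).choose (h + 1) * (Miss F x k).card) := by ring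

/-- Copy of `descend` (Descend.lean) with `level_c` (`e12_max` of Descend.lean for the steps
`h > i`). -/
theorem descend_c {α : Type*} [Fintype α] [DecidableEq α] {u k a i c d : ℕ} (hu : 1 ≤ u)
    (hk : 1 ≤ k) (hc : 1 ≤ c) (hn : Fintype.card α = 2 * k + a)
    {F : Finset (Finset α)} (hF : ∀ s ∈ F, s.card = k) {x : α}
    (hT : ∀ h, i < h → ∀ T ⊆ F.filter (fun s => x ∉ s), T.card = u →
      (T.biUnion id).card + h = k + a → c * (k - 1 + h).choose h ≤
      d * ((Miss F x k).filter fun S => Disjoint S (T.biUnion id)).card) (h : ℕ) (hih : i ≤ h)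
    (ha : h + 1 ≤ a) (X : Finset (Finset α)) (hXF : X ⊆ F.filter fun s => x ∉ s)
    (hX : ∀ T ⊆ X, T.card = u → k + a ≤ (T.biUnion id).card + h) :
    ∃ X₀ ⊆ X, (∀ T ⊆ X₀, T.card = u → k + a ≤ (T.biUnion id).card + i) ∧
      (X.card : ℝ) ≤ X₀.card + (Miss F x k).card *
        ((d : ℝ) / c * (u - 1 : ℕ) * ∑ j ∈ Icc (i + 1) h, ((k + a).choose (j + 1) : ℝ) /
          (a.choose (j + 1) * (k - 1 + j).choose j)) := by
  induction h, hih using Nat.le_induction generalizing X with
  | base =>
    refine ⟨X, Subset.refl _, hX, ?_⟩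
    simp
  | succ h hih ih =>
    obtain ⟨D, hD, hDd, hmax⟩ := e12_max hu X hX
    have hX'X : X \ D.biUnion id ⊆ X := sdiff_subset
    obtain ⟨X₀, hX₀, hW, hle⟩ := ih (by omega) (X \ D.biUnion id) (hX'X.trans hXF) hmax
    refine ⟨X₀, hX₀.trans hX'X, hW, ?_⟩
    have hTD : ∀ T ∈ D, c * (k - 1 + (h + 1)).choose (h + 1) ≤
        d * ((Miss F x k).filter fun S => Disjoint S (T.biUnion id)).card := fun T hTD =>
      hT (h + 1) (by omega) T ((hD T hTD).1.trans hXF) (hD T hTD).2.1 (hD T hTD).2.2
    have hlev := level_c hu hk hn hF hXF hX hD hTD hDd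
    have hU : (D.biUnion id).card = u * D.card := by
      rw [card_biUnion]
      · have h5 : ∀ T ∈ D, (id T : Finset (Finset α)).card = u := fun T hT => (hD T hT).2.1
        rw [sum_congr rfl h5, sum_const, smul_eq_mul, mul_comm]
      · intro T hT T' hT' hne
        exact hDd hT hT' hne
    have hsub : D.biUnion id ⊆ X := by
      intro s hs
      rw [mem_biUnion] at hs
      obtain ⟨T, hT, hsT⟩ := hs
      exact (hD T hT).1 hsT
    have hcard : X.card = (X \ D.biUnion id).card + u * D.card := by
      rw [← hU, card_sdiff_of_subset hsub]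
      have := card_le_card hsub
      omega
    have hA : (0 : ℝ) < a.choose (h + 1 + 1) := by
      exact_mod_cast Nat.choose_pos (by omega)
    have hB : (0 : ℝ) < (k - 1 + (h + 1)).choose (h + 1) := by
      exact_mod_cast Nat.choose_pos (by omega)
    have hc0 : (0 : ℝ) < c := by exact_mod_cast hc
    have hlevR : (c : ℝ) * ((u * D.card : ℝ) * (((k - 1 + (h + 1)).choose (h + 1) : ℝ) *
        a.choose (h + 1 + 1))) ≤
        d * ((u - 1 : ℕ) * (k + a).choose (h + 1 + 1) * (Miss F x k).card) := by
      exact_mod_cast hlev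
    have hterm : (u * D.card : ℝ) ≤ (Miss F x k).card * ((d : ℝ) / c * (u - 1 : ℕ) *
        (((k + a).choose (h + 1 + 1) : ℝ) /
          (a.choose (h + 1 + 1) * (k - 1 + (h + 1)).choose (h + 1)))) := by
      have e1 : ((Miss F x k).card : ℝ) * ((d : ℝ) / c * (u - 1 : ℕ) *
        (((k + a).choose (h + 1 + 1) : ℝ) /
          (a.choose (h + 1 + 1) * (k - 1 + (h + 1)).choose (h + 1)))) =
          (d * ((u - 1 : ℕ) * (k + a).choose (h + 1 + 1) * (Miss F x k).card)) /
          (c * (((k - 1 + (h + 1)).choose (h + 1) : ℝ) * a.choose (h + 1 + 1))) := by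
        field_simp
      rw [e1, le_div_iff₀ (by positivity)]
      calc (u * D.card : ℝ) * (c * (((k - 1 + (h + 1)).choose (h + 1) : ℝ) *
            a.choose (h + 1 + 1)))
          = (c : ℝ) * ((u * D.card : ℝ) * (((k - 1 + (h + 1)).choose (h + 1) : ℝ) *
            a.choose (h + 1 + 1))) := by ring
        _ ≤ _ := hlevR
    have hcardR : (X.card : ℝ) = (X \ D.biUnion id).card + (u * D.card : ℝ) := by
      exact_mod_cast hcard
    rw [hcardR, sum_Icc_succ_top (by omega), mul_add, mul_add]
    linarith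

end Pool.Agent.Lib.MP_fffc5a_co.W
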