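import Mathlib
import Pool.Agent.Lib.MP_fffc5a_co.V.NumB
import Pool.Agent.Lib.MP_fffc5a_co.MissCard
import Pool.Agent.Lib.MP_fffc5a_co.W.DescW

/-!
Few members outside the star: the family outside the star is essentially a code.
-/

set_option autoImplicit false

open Finset

namespace Pool.Agent.Lib.MP_fffc5a_co.W

/-- As `V.growth` (V/NumB.lean): `m = k/3`, `k ≤ 3 m + 2`, `2^k ≤ 4·8^m`, `9^m ≤ 9^9 C(4m,m)`
(`V.four_choose`, `V.numB_lower`), and `(9/8)^m / (3 m + 2) → ∞`. -/
theorem growth_k (u : ℕ) : ∃ k₀ : ℕ, ∀ k, k₀ ≤ k →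
    8 * u * k * 2 ^ k ≤ (k + k / 3).choose (k - 1) := by
  have hlim := tendsto_pow_const_div_const_pow_of_one_lt 1 (show (1 : ℝ) < 9 / 8 by norm_num)
  have hpos : (0 : ℝ) < 1 / (160 * u * 9 ^ 9 + 1) := by positivity
  have hev := hlim.eventually (gt_mem_nhds hpos)
  obtain ⟨m₀, hm₀⟩ := Filter.eventually_atTop.1 hev
  refine ⟨3 * (m₀ + 9), fun k hk => ?_⟩
  set m := k / 3 with hm
  have hm1 : m₀ + 9 ≤ m := by omega
  have hk1 : 3 * m ≤ k := by omega
  have hk2 : k ≤ 3 * m + 2 := by omega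
  have h1 : (m : ℝ) ^ 1 / (9 / 8) ^ m < 1 / (160 * u * 9 ^ 9 + 1) := hm₀ m (by omega)
  have h2 : (160 * u * 9 ^ 9 : ℝ) * m * 8 ^ m ≤ 9 ^ m := by
    rw [pow_one, div_lt_div_iff₀ (by positivity) (by positivity), one_mul, div_pow,
      lt_div_iff₀ (by positivity)] at h1
    have hm0 : (0 : ℝ) ≤ m * 8 ^ m := by positivity
    nlinarith
  have h3 : 160 * u * 9 ^ 9 * m * 8 ^ m ≤ 9 ^ m := by exact_mod_cast h2
  have h4 := h3.trans (V.four_choose m (by omega))
  have h5 : 160 * u * m * 8 ^ m ≤ (4 * m).choose m := by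
    apply Nat.le_of_mul_le_mul_left _ (show 0 < 9 ^ 9 by norm_num)
    calc 9 ^ 9 * (160 * u * m * 8 ^ m) = 160 * u * 9 ^ 9 * m * 8 ^ m := by ring
      _ ≤ _ := h4
  refine le_trans ?_ (h5.trans (V.numB_lower k m (by omega) hk1))
  have h6 : 2 ^ k ≤ 4 * 8 ^ m := by
    calc 2 ^ k ≤ 2 ^ (3 * m + 2) := Nat.pow_le_pow_right (by norm_num) hk2
      _ = 4 * 8 ^ m := by rw [pow_add, pow_mul]; ring
  calc 8 * u * k * 2 ^ k ≤ 8 * u * (5 * m) * (4 * 8 ^ m) := by
        apply Nat.mul_le_mul _ h6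
        apply Nat.mul_le_mul_left
        omega
    _ = 160 * u * m * 8 ^ m := by ring

/-- `C = max (growth_k) (24 u)` (at least `3`). `E` = members without `x`, `card_add_miss`:
`|Miss| ≤ |E| < 8 u 2^k`. Let `T ⊆ E` have `u` members and `|⋃T| + h = k + a`, `h > i`.
`disj_le_miss`, `card_disj`: `C(k-1+h,k-1) ≤ |Miss_T| + (v-1)` where `Miss_T` = the members of `Miss`
disjoint from `⋃T`; `k (v-1) ≤ (k-C) C(k+i,k-1) ≤ (k-C) C(k-1+h,k-1)`, so
`C · C(k-1+h,h) ≤ k |Miss_T|` (`C(m,k-1) = C(m,h)`, `m = k-1+h`). If moreover `h > k/3` then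
`C(k+k/3,k-1) ≤ k |Miss| < 8 u k 2^k`: contradiction. So `X = E` satisfies the hypothesis of
`descend_c` with `h = max i (k/3)`. If `i ≥ k/3` take `X₀ = E`. Otherwise `descend_c` with `c = C`,
`d = k`, `h = k/3`; the sum is at most `12 / k` (`V.term_sum`, a subset of the terms), and
`(k/C) (u-1) (12/k) ≤ 1/2`. -/
theorem core {u : ℕ} (hu : 2 ≤ u) : ∃ C : ℕ, 1 ≤ C ∧ ∀ k a v i : ℕ, C ≤ k → k + 1 ≤ a → 2 ≤ v →
    k * (v - 1) ≤ (k - C) * (k + i).choose (k - 1) →
    ∀ F : Finset (Finset (Fin (2 * k + a))), (∀ s ∈ F, s.card = k) → UI u v F →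
    ∀ x : Fin (2 * k + a), (2 * k + a - 1).choose (k - 1) ≤ F.card →
    (F.filter fun s => x ∉ s).card < 8 * u * 2 ^ k →
    ∃ X₀ ⊆ F.filter (fun s => x ∉ s),
      (∀ T ⊆ X₀, T.card = u → k + a ≤ (T.biUnion id).card + i) ∧
      2 * (F.filter fun s => x ∉ s).card ≤ 2 * X₀.card + (Miss F x k).card := by
  obtain ⟨k₀, hk₀⟩ := growth_k u
  refine ⟨max k₀ (24 * u), by omega, ?_⟩
  set C := max k₀ (24 * u) with hC
  have hC1 : k₀ ≤ C := le_max_left _ _
  have hC2 : 24 * u ≤ C := le_max_right _ _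
  clear_value C
  intro k a v i hCk hka hv hvi F hF hUI x hcard hE
  have hk : 1 ≤ k := by omega
  have hgr := hk₀ k (by omega)
  have h1 := card_add_miss hk hF x
  rw [Fintype.card_fin] at h1
  have hMiss : (Miss F x k).card < 8 * u * 2 ^ k := by omega
  -- the bound for each `T`
  have hT : ∀ h, i < h → ∀ T ⊆ F.filter (fun s => x ∉ s), T.card = u →
      (T.biUnion id).card + h = k + a → C * (k - 1 + h).choose h ≤
      k * ((Miss F x k).filter fun S => Disjoint S (T.biUnion id)).card := by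
    intro h hih T hTE hTu hTc
    have hTF : T ⊆ F := hTE.trans (filter_subset _ _)
    have hxU : x ∉ T.biUnion id := by
      intro hx
      rw [mem_biUnion] at hx
      obtain ⟨s, hs, hxs⟩ := hx
      exact (mem_filter.1 (hTE hs)).2 hxs
    have h2 := disj_le_miss k (show 1 ≤ v by omega) hUI hTF hTu hxU
      (fun s hs => subset_biUnion_of_mem id hs)
    rw [card_disj k hxU, Fintype.card_fin] at h2
    have e1 : 2 * k + a - 1 - (T.biUnion id).card = k - 1 + h := by omega
    rw [e1] at h2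
    have e2 : (k - 1 + h).choose h = (k - 1 + h).choose (k - 1) :=
      (Nat.choose_symm_of_eq_add (show k - 1 + h = k - 1 + h from rfl)).symm
    rw [e2]
    have h3 : (k + i).choose (k - 1) ≤ (k - 1 + h).choose (k - 1) :=
      Nat.choose_le_choose _ (by omega)
    have h4 : k * (v - 1) ≤ (k - C) * (k - 1 + h).choose (k - 1) :=
      hvi.trans (Nat.mul_le_mul_left _ h3)
    have h5 : k * (k - 1 + h).choose (k - 1) ≤
        k * ((Miss F x k).filter fun S => Disjoint S (T.biUnion id)).card + k * (v - 1) := by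
      rw [← mul_add]
      exact Nat.mul_le_mul_left _ h2
    have h6 : k * (k - 1 + h).choose (k - 1) =
        (k - C) * (k - 1 + h).choose (k - 1) + C * (k - 1 + h).choose (k - 1) := by
      rw [← add_mul]
      congr 1
      omega
    omega
  have hX : ∀ T ⊆ F.filter (fun s => x ∉ s), T.card = u →
      k + a ≤ (T.biUnion id).card + max i (k / 3) := by
    intro T hTE hTu
    by_contra hcon
    rw [not_le] at hcon
    have h2 := hT (k + a - (T.biUnion id).card) (by omega) T hTE hTu (by omega)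
    set h := k + a - (T.biUnion id).card with hh
    have e2 : (k - 1 + h).choose h = (k - 1 + h).choose (k - 1) :=
      (Nat.choose_symm_of_eq_add (show k - 1 + h = k - 1 + h from rfl)).symm
    rw [e2] at h2
    have h3 : (k + k / 3).choose (k - 1) ≤ (k - 1 + h).choose (k - 1) :=
      Nat.choose_le_choose _ (by omega)
    have h4 : ((Miss F x k).filter fun S => Disjoint S (T.biUnion id)).card ≤ (Miss F x k).card :=
      card_le_card (filter_subset _ _)
    have h5 : (k - 1 + h).choose (k - 1) ≤ C * (k - 1 + h).choose (k - 1) :=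
      Nat.le_mul_of_pos_left _ (by omega)
    have h6 : k * ((Miss F x k).filter fun S => Disjoint S (T.biUnion id)).card <
        k * (8 * u * 2 ^ k) :=
      Nat.mul_lt_mul_of_pos_left (lt_of_le_of_lt h4 hMiss) (by omega)
    have h7 : k * (8 * u * 2 ^ k) = 8 * u * k * 2 ^ k := by ring
    omega
  by_cases hik : k / 3 ≤ i
  · refine ⟨F.filter fun s => x ∉ s, Subset.rfl, ?_, by omega⟩
    intro T hTE hTu
    have := hX T hTE hTu
    rwa [max_eq_left hik] at this
  · rw [not_le] at hik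
    obtain ⟨X₀, hX₀, hW, hle⟩ := descend_c (c := C) (d := k) (by omega : 1 ≤ u) hk
      (by omega : 1 ≤ C) (by rw [Fintype.card_fin]) hF hT (k / 3) hik.le (by omega)
      (F.filter fun s => x ∉ s) Subset.rfl
      (fun T hTE hTu => by
        have := hX T hTE hTu
        rwa [max_eq_right hik.le] at this)
    refine ⟨X₀, hX₀, hW, ?_⟩
    have hts := V.term_sum (show 3 ≤ k by omega) hka
    have hsum : ∑ j ∈ Icc (i + 1) (k / 3), ((k + a).choose (j + 1) : ℝ) /
        (a.choose (j + 1) * (k - 1 + j).choose j) ≤ 12 / k := by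
      refine le_trans ?_ hts
      apply Finset.sum_le_sum_of_subset_of_nonneg
      · exact Icc_subset_Icc (by omega) le_rfl
      · intro j _ _
        positivity
    have hkpos : (0 : ℝ) < k := by exact_mod_cast hk
    have hCpos : (0 : ℝ) < C := by
      have : 0 < C := by omega
      exact_mod_cast this
    have hfac : (k : ℝ) / C * (u - 1 : ℕ) * ∑ j ∈ Icc (i + 1) (k / 3),
        ((k + a).choose (j + 1) : ℝ) / (a.choose (j + 1) * (k - 1 + j).choose j) ≤ 1 / 2 := by
      have h11 : (k : ℝ) / C * (u - 1 : ℕ) * ∑ j ∈ Icc (i + 1) (k / 3),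
          ((k + a).choose (j + 1) : ℝ) / (a.choose (j + 1) * (k - 1 + j).choose j) ≤
          (k : ℝ) / C * (u - 1 : ℕ) * (12 / k) :=
        mul_le_mul_of_nonneg_left hsum (by positivity)
      refine h11.trans ?_
      have h12 : (k : ℝ) / C * (u - 1 : ℕ) * (12 / k) = 12 * (u - 1 : ℕ) / C := by
        field_simp
      rw [h12, div_le_div_iff₀ hCpos (by norm_num)]
      have h13 : 24 * (u - 1) ≤ C := by omega
      have h14 : (24 : ℝ) * ((u - 1 : ℕ) : ℝ) ≤ C := by exact_mod_cast h13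
      linarith
    have hM : (0 : ℝ) ≤ ((Miss F x k).card : ℝ) := Nat.cast_nonneg _
    have h12 : (2 : ℝ) * ((F.filter fun s => x ∉ s).card : ℝ) ≤
        2 * X₀.card + (Miss F x k).card := by
      have := mul_le_mul_of_nonneg_left hfac hM
      linarith
    exact_mod_cast h12

end Pool.Agent.Lib.MP_fffc5a_co.W
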