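import Mathlib
import Pool.Agent.Lib.MP_fffc5a_co.V.KstPow

/-!
Members which are disjoint from many members have small links.
-/

set_option autoImplicit false

open Finset

namespace Pool.Agent.Lib.MP_fffc5a_co.W

/-- Factorwise (`descFactorial`): `d - i ≤ 4 (h - i)` for `i < u` (`3 i ≤ 2 h`). -/
theorem choose_half {d h u : ℕ} (h1 : d ≤ 2 * h) (h2 : 2 * u ≤ h) :
    d.choose u ≤ 4 ^ u * h.choose u := by
  have key : d.descFactorial u ≤ 4 ^ u * h.descFactorial u := by
    have e : (4 : ℕ) ^ u = ∏ _i ∈ Finset.range u, 4 := by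
      rw [Finset.prod_const, Finset.card_range]
    rw [Nat.descFactorial_eq_prod_range, Nat.descFactorial_eq_prod_range, e,
      ← Finset.prod_mul_distrib]
    refine Finset.prod_le_prod' fun i hi => ?_
    rw [Finset.mem_range] at hi
    omega
  rw [Nat.descFactorial_eq_factorial_mul_choose, Nat.descFactorial_eq_factorial_mul_choose] at key
  refine Nat.le_of_mul_le_mul_left ?_ (Nat.factorial_pos u)
  calc _ ≤ _ := key
    _ = _ := by ring

/-- Let `P_J = {G ∈ P : J ⊆ G}` and suppose `d = |P_J| ≥ 2 k D` (`≥ 4 u`, so `P_J` is nonempty). Let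
`N_J` be the set of the `B ∈ F` disjoint from `J`. For `B ∈ N_J` at most `∑_{y ∈ B} D = k D` members
of `P_J` meet `B` (a member of `P_J` which contains `y ∈ B`, `y ∉ J`, contains `insert y J`), so at
least `d - k D ≥ d / 2` members of `P_J` are disjoint from `B`. `V.kst_sum` with `X = P_J`,
`Y = N_J`, `h = (d+1)/2 ≥ 2 u` and `choose_half`:
`|N_J| C(h,u) ≤ C(d,u) (v-1) ≤ 4^u C(h,u) (v-1)`, so `|N_J| ≤ 4^u (v-1)`. But for `G ∈ P_J` the
members of `F` disjoint from `G` are in `N_J`: contradiction to `hP`. -/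
theorem link_step {α : Type*} [DecidableEq α] {u v k D : ℕ} (hu : 1 ≤ u) (hv : 1 ≤ v)
    (hD : 4 * u ≤ 2 * k * D) {F P : Finset (Finset α)} (hF : ∀ s ∈ F, s.card = k)
    (hUI : UI u v F) (hPF : P ⊆ F)
    (hP : ∀ G ∈ P, 4 ^ u * (v - 1) < (F.filter fun B => Disjoint G B).card) (J : Finset α)
    (hJ : ∀ y, y ∉ J → (P.filter fun G => insert y J ⊆ G).card ≤ D) :
    (P.filter fun G => J ⊆ G).card < 2 * k * D := by
  by_contra hcon
  rw [not_lt] at hcon
  obtain ⟨X, hX⟩ : ∃ X, X = P.filter fun G => J ⊆ G := ⟨_, rfl⟩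
  obtain ⟨Y, hY⟩ : ∃ Y, Y = F.filter fun B => Disjoint J B := ⟨_, rfl⟩
  rw [← hX] at hcon
  have hXF : X ⊆ F := by
    rw [hX]
    exact (Finset.filter_subset _ _).trans hPF
  have hYF : Y ⊆ F := by
    rw [hY]
    exact Finset.filter_subset _ _
  obtain ⟨h, hh⟩ : ∃ h, h = (X.card + 1) / 2 := ⟨_, rfl⟩
  have hcount : ∀ B ∈ Y, h ≤ (X.filter fun G => Disjoint G B).card := by
    intro B hB
    rw [hY, Finset.mem_filter] at hB
    have h1 : (X.filter fun G => ¬ Disjoint G B) ⊆
        B.biUnion fun y => P.filter fun G => insert y J ⊆ G := by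
      intro G hG
      rw [hX, Finset.mem_filter, Finset.mem_filter, Finset.not_disjoint_iff] at hG
      obtain ⟨⟨hGP, hJG⟩, y, hyG, hyB⟩ := hG
      rw [Finset.mem_biUnion]
      exact ⟨y, hyB, Finset.mem_filter.2 ⟨hGP, Finset.insert_subset hyG hJG⟩⟩
    have h2 : (X.filter fun G => ¬ Disjoint G B).card ≤ k * D := by
      refine (Finset.card_le_card h1).trans (Finset.card_biUnion_le.trans ?_)
      calc ∑ y ∈ B, (P.filter fun G => insert y J ⊆ G).card ≤ ∑ _y ∈ B, D :=
            Finset.sum_le_sum fun y hy => hJ y fun hyJ =>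
              Finset.disjoint_left.1 hB.2 hyJ hy
        _ = k * D := by rw [Finset.sum_const, hF B hB.1, smul_eq_mul]
    have h3 := Finset.card_filter_add_card_filter_not (s := X) (fun G => Disjoint G B)
    have h4 : 2 * k * D = 2 * (k * D) := by ring
    omega
  have h2u : 2 * u ≤ h := by omega
  have hsum := V.kst_sum (u := u) hv hUI hXF hYF
  have h5 : Y.card * h.choose u ≤ 4 ^ u * h.choose u * (v - 1) := by
    calc Y.card * h.choose u = ∑ _B ∈ Y, h.choose u := by rw [Finset.sum_const, smul_eq_mul]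
      _ ≤ ∑ B ∈ Y, ((X.filter fun G => Disjoint G B).card).choose u :=
          Finset.sum_le_sum fun B hB => Nat.choose_le_choose u (hcount B hB)
      _ ≤ X.card.choose u * (v - 1) := hsum
      _ ≤ 4 ^ u * h.choose u * (v - 1) :=
          Nat.mul_le_mul_right _ (choose_half (by omega) h2u)
  have hpos : 0 < h.choose u := Nat.choose_pos (by omega)
  have h6 : Y.card ≤ 4 ^ u * (v - 1) := by
    refine Nat.le_of_mul_le_mul_right ?_ hpos
    calc _ ≤ _ := h5
      _ = _ := by ring
  have hXpos : 0 < X.card := by omega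
  obtain ⟨G, hG⟩ := Finset.card_pos.1 hXpos
  rw [hX, Finset.mem_filter] at hG
  have h7 := hP G hG.1
  have h8 : (F.filter fun B => Disjoint G B) ⊆ Y := by
    intro B hB
    rw [Finset.mem_filter] at hB
    rw [hY, Finset.mem_filter]
    exact ⟨hB.1, hB.2.mono_left hG.2⟩
  have h9 := Finset.card_le_card h8
  omega

/-- First `|J'| + 1 = k`: `insert y J' ⊆ G` means `G = insert y J'`, so `link_step` with `D = 1`:
fewer than `2 k` members of `P` contain `J'`. Then `link_step` for `J` with `D = 2 k`. -/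
theorem link_two {α : Type*} [DecidableEq α] {u v k : ℕ} (hu : 1 ≤ u) (hv : 1 ≤ v)
    (huk : 2 * u ≤ k) {F P : Finset (Finset α)} (hF : ∀ s ∈ F, s.card = k)
    (hUI : UI u v F) (hPF : P ⊆ F)
    (hP : ∀ G ∈ P, 4 ^ u * (v - 1) < (F.filter fun B => Disjoint G B).card) (J : Finset α)
    (hJ : J.card + 2 = k) :
    (P.filter fun G => J ⊆ G).card < 4 * k ^ 2 := by
  have h1 : ∀ y, y ∉ J → (P.filter fun G => insert y J ⊆ G).card ≤ 2 * k := by
    intro y hy
    have h2 := link_step (u := u) (v := v) (k := k) (D := 1) hu hv (by omega) hF hUI hPF hP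
      (insert y J) (by
        intro z hz
        rw [Finset.card_le_one]
        have key : ∀ G ∈ P.filter (fun G => insert z (insert y J) ⊆ G),
            G = insert z (insert y J) := by
          intro G hG
          rw [Finset.mem_filter] at hG
          symm
          refine Finset.eq_of_subset_of_card_le hG.2 ?_
          rw [hF G (hPF hG.1), Finset.card_insert_of_notMem hz,
            Finset.card_insert_of_notMem hy]
          omega
        intro G hG G' hG'
        rw [key G hG, key G' hG'])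
    omega
  have h3 := link_step (u := u) (v := v) (k := k) (D := 2 * k) hu hv (by nlinarith) hF hUI hPF hP
    J h1
  calc _ < 2 * k * (2 * k) := h3
    _ = 4 * k ^ 2 := by ring

/-- Count the pairs `(J, G)`, `|J| = k - 2`, `J ⊆ G ∈ P`: every `G` has `C(k,k-2) = C(k,2)` such `J`,
every `J` at most `4 k^2` such `G` (`link_two`). -/
theorem poor_card {α : Type*} [Fintype α] [DecidableEq α] {u v k : ℕ} (hu : 1 ≤ u) (hv : 1 ≤ v)
    (huk : 2 * u ≤ k) {F P : Finset (Finset α)} (hF : ∀ s ∈ F, s.card = k)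
    (hUI : UI u v F) (hPF : P ⊆ F)
    (hP : ∀ G ∈ P, 4 ^ u * (v - 1) < (F.filter fun B => Disjoint G B).card) :
    P.card * k.choose 2 ≤ 4 * k ^ 2 * (Fintype.card α).choose (k - 2) := by
  have hk : 2 ≤ k := by omega
  have h1 : ∑ G ∈ P, ((powersetCard (k - 2) (univ : Finset α)).filter fun J => J ⊆ G).card =
      ∑ J ∈ powersetCard (k - 2) (univ : Finset α), (P.filter fun G => J ⊆ G).card :=
    Finset.sum_card_bipartiteAbove_eq_sum_card_bipartiteBelow (fun (G J : Finset α) => J ⊆ G)
      (s := P) (t := powersetCard (k - 2) (univ : Finset α))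
  have h2 : ∀ G ∈ P, ((powersetCard (k - 2) (univ : Finset α)).filter fun J => J ⊆ G).card =
      k.choose 2 := by
    intro G hG
    have e : (powersetCard (k - 2) (univ : Finset α)).filter (fun J => J ⊆ G) =
        powersetCard (k - 2) G := by
      ext J
      rw [Finset.mem_filter, Finset.mem_powersetCard, Finset.mem_powersetCard]
      exact ⟨fun h => ⟨h.2, h.1.2⟩, fun h => ⟨⟨Finset.subset_univ _, h.2⟩, h.1⟩⟩
    rw [e, Finset.card_powersetCard, hF G (hPF hG), Nat.choose_symm hk]
  rw [Finset.sum_congr rfl h2, Finset.sum_const, smul_eq_mul] at h1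
  rw [h1]
  calc ∑ J ∈ powersetCard (k - 2) (univ : Finset α), (P.filter fun G => J ⊆ G).card
      ≤ ∑ _J ∈ powersetCard (k - 2) (univ : Finset α), 4 * k ^ 2 := by
        refine Finset.sum_le_sum fun J hJ => ?_
        rw [Finset.mem_powersetCard] at hJ
        exact (link_two hu hv huk hF hUI hPF hP J (by omega)).le
    _ = (Fintype.card α).choose (k - 2) * (4 * k ^ 2) := by
        rw [Finset.sum_const, Finset.card_powersetCard, Finset.card_univ, smul_eq_mul]
    _ = _ := by ring

end Pool.Agent.Lib.MP_fffc5a_co.W
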