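import Mathlib
import Pool.Agent.Lib.MP_fffc5a_co.V.NumA

/-!
Inequalities between `T = C(k-1+b,k-1)`, `W = C(k+a-1,k-1)`, `L = C(2k+a-1,k-1)`, `n = 2k+a`,
`a + k = u k + b`, with a second order term.
-/

set_option autoImplicit false

open Finset

namespace Pool.Agent.Lib.MP_fffc5a_co.W

/-- Induction on `u` (start `u = 2`: equality). Step, from `V.pow_bern`:
`(N-k)^(u+1) = (N-k)^u (N-k) ≥ ((N-uk) N^(u-1)) (N-k) + 0` and
`(N-uk)(N-k) = (N-(u+1)k) N + u k^2`. So the induction hypothesis is not needed: only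
`V.pow_bern` for `u - 1`. -/
theorem pow_bern2 {u k N : ℕ} (hu : 2 ≤ u) (h : u * k ≤ N) :
    (N - u * k) * N ^ (u - 1) + (u - 1) * k ^ 2 * N ^ (u - 2) ≤ (N - k) ^ u := by
  obtain ⟨w, rfl⟩ := Nat.exists_eq_add_of_le' hu
  obtain ⟨r, rfl⟩ := Nat.exists_eq_add_of_le h
  have e0 : (w + 2) * k = (w + 1) * k + k := by ring
  have h1 : (w + 1) * k ≤ (w + 2) * k + r := by omega
  have h2 := V.pow_bern (u := w + 1) (k := k) (N := (w + 2) * k + r) (by omega) h1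
  have e1 : (w + 2) * k + r - (w + 2) * k = r := by omega
  have e2 : (w + 2) * k + r - (w + 1) * k = r + k := by omega
  have e3 : (w + 2) * k + r - k = (w + 1) * k + r := by omega
  have e4 : w + 2 - 1 = w + 1 := by omega
  have e5 : w + 1 - 1 = w := by omega
  have e6 : w + 2 - 2 = w := by omega
  rw [e2, e3, e5] at h2
  rw [e1, e3, e4, e6]
  calc r * ((w + 2) * k + r) ^ (w + 1) + (w + 1) * k ^ 2 * ((w + 2) * k + r) ^ w
      = (r + k) * ((w + 2) * k + r) ^ w * ((w + 1) * k + r) := by ring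
    _ ≤ ((w + 1) * k + r) ^ (w + 1) * ((w + 1) * k + r) := Nat.mul_le_mul_right _ h2
    _ = ((w + 1) * k + r) ^ (w + 2) := by ring

/-- One factor. -/
theorem numC_factor {u k N n : ℕ} (hu : 2 ≤ u) (h : u * k ≤ N) (hn : N ≤ n) :
    (N - u * k) * N ^ (u - 1) * (n ^ 2 + k ^ 2) ≤ (N - k) ^ u * n ^ 2 := by
  have h1 := pow_bern2 hu h
  have h2 : (N - u * k) * N ≤ n ^ 2 := by
    rw [pow_two]
    exact Nat.mul_le_mul ((Nat.sub_le _ _).trans hn) hn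
  have h3 : N ^ (u - 1) = N * N ^ (u - 2) := by
    rw [← pow_succ']
    congr 1
    omega
  have h4 : (N - u * k) * N ^ (u - 1) * k ^ 2 ≤ (u - 1) * k ^ 2 * N ^ (u - 2) * n ^ 2 := by
    rw [h3]
    calc (N - u * k) * (N * N ^ (u - 2)) * k ^ 2
        = ((N - u * k) * N) * (k ^ 2 * N ^ (u - 2)) := by ring
      _ ≤ n ^ 2 * (k ^ 2 * N ^ (u - 2)) := Nat.mul_le_mul_right _ h2
      _ = 1 * (k ^ 2 * N ^ (u - 2) * n ^ 2) := by ring
      _ ≤ (u - 1) * (k ^ 2 * N ^ (u - 2) * n ^ 2) := Nat.mul_le_mul_right _ (by omega)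
      _ = _ := by ring
  calc (N - u * k) * N ^ (u - 1) * (n ^ 2 + k ^ 2)
      = (N - u * k) * N ^ (u - 1) * n ^ 2 + (N - u * k) * N ^ (u - 1) * k ^ 2 := by ring
    _ ≤ (N - u * k) * N ^ (u - 1) * n ^ 2 + (u - 1) * k ^ 2 * N ^ (u - 2) * n ^ 2 :=
        Nat.add_le_add_left h4 _
    _ = ((N - u * k) * N ^ (u - 1) + (u - 1) * k ^ 2 * N ^ (u - 2)) * n ^ 2 := by ring
    _ ≤ (N - k) ^ u * n ^ 2 := Nat.mul_le_mul_right _ h1

/-- Factorwise (see `V.choose_bern`, `Nat.descFactorial_eq_prod_range`), `N = 2k+a-1-i`, `i < k-1`,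
`n = 2k+a`: `(N-uk) N^(u-1) (n^2+k^2) ≤ (N-k)^u n^2`, from `pow_bern2` because
`(N-uk) N^(u-1) k^2 ≤ (u-1) k^2 N^(u-2) n^2` (`(N-uk) N ≤ n^2`). -/
theorem choose_bern2 {u k a b : ℕ} (hu : 2 ≤ u) (hk : 1 ≤ k) (hab : a + k = u * k + b) :
    (k - 1 + b).choose (k - 1) * ((2 * k + a - 1).choose (k - 1)) ^ (u - 1) *
      ((2 * k + a) ^ 2 + k ^ 2) ^ (k - 1) ≤
      ((k + a - 1).choose (k - 1)) ^ u * ((2 * k + a) ^ 2) ^ (k - 1) := by
  have key : (k - 1 + b).descFactorial (k - 1) * ((2 * k + a - 1).descFactorial (k - 1)) ^ (u - 1)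
      * ((2 * k + a) ^ 2 + k ^ 2) ^ (k - 1)
      ≤ ((k + a - 1).descFactorial (k - 1)) ^ u * ((2 * k + a) ^ 2) ^ (k - 1) := by
    have e3 : ((2 * k + a) ^ 2 + k ^ 2) ^ (k - 1) =
        ∏ _i ∈ Finset.range (k - 1), ((2 * k + a) ^ 2 + k ^ 2) := by
      rw [Finset.prod_const, Finset.card_range]
    have e4 : ((2 * k + a) ^ 2) ^ (k - 1) = ∏ _i ∈ Finset.range (k - 1), ((2 * k + a) ^ 2) := by
      rw [Finset.prod_const, Finset.card_range]
    rw [e3, e4, Nat.descFactorial_eq_prod_range, Nat.descFactorial_eq_prod_range,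
      Nat.descFactorial_eq_prod_range, ← Finset.prod_pow, ← Finset.prod_pow,
      ← Finset.prod_mul_distrib, ← Finset.prod_mul_distrib, ← Finset.prod_mul_distrib]
    refine Finset.prod_le_prod' fun i hi => ?_
    rw [Finset.mem_range] at hi
    have h1 : u * k ≤ 2 * k + a - 1 - i := by omega
    have h2 := numC_factor (n := 2 * k + a) hu h1 (by omega)
    have e1 : 2 * k + a - 1 - i - u * k = k - 1 + b - i := by omega
    have e2 : 2 * k + a - 1 - i - k = k + a - 1 - i := by omega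
    rw [e1, e2] at h2
    exact h2
  rw [Nat.descFactorial_eq_factorial_mul_choose, Nat.descFactorial_eq_factorial_mul_choose,
    Nat.descFactorial_eq_factorial_mul_choose, mul_pow, mul_pow] at key
  have hpos : 0 < (Nat.factorial (k - 1)) ^ u := pow_pos (Nat.factorial_pos _) u
  refine Nat.le_of_mul_le_mul_left ?_ hpos
  have e : (Nat.factorial (k - 1)) ^ u = Nat.factorial (k - 1) * (Nat.factorial (k - 1)) ^ (u - 1) := by
    rw [← pow_succ']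
    congr 1
    omega
  calc (Nat.factorial (k - 1)) ^ u * ((k - 1 + b).choose (k - 1) *
        ((2 * k + a - 1).choose (k - 1)) ^ (u - 1) * ((2 * k + a) ^ 2 + k ^ 2) ^ (k - 1))
      = Nat.factorial (k - 1) * (k - 1 + b).choose (k - 1) * ((Nat.factorial (k - 1)) ^ (u - 1) *
        ((2 * k + a - 1).choose (k - 1)) ^ (u - 1)) * ((2 * k + a) ^ 2 + k ^ 2) ^ (k - 1) := by
        rw [e]; ring
    _ ≤ _ := key
    _ = _ := by ring

/-- Bernoulli. -/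
theorem numC_bern (n k j : ℕ) : n ^ j * (n + k * j) ≤ (n + k) ^ j * n := by
  induction j with
  | zero => simp
  | succ j ih =>
    calc n ^ (j + 1) * (n + k * (j + 1)) = n ^ j * (n * n + k * j * n + k * n) := by ring
      _ ≤ n ^ j * (n * n + k * j * n + k * n + k * j * k) :=
          Nat.mul_le_mul_left _ (Nat.le_add_right _ _)
      _ = n ^ j * (n + k * j) * (n + k) := by ring
      _ ≤ (n + k) ^ j * n * (n + k) := Nat.mul_le_mul_right _ ih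
      _ = (n + k) ^ (j + 1) * n := by ring

/-- Factorwise: `(k-1+b-i) (n + k) ≤ (k+a-1-i) n` for `i < k-1` (`k+a-1-i = (k-1+b-i) + (u-1)k`,
`k-1+b-i ≤ n`), so `T (n+k)^(k-1) ≤ W n^(k-1)`, and `(n+k)^(k-1) ≥ n^(k-1) + (k-1) k n^(k-2)`
(Bernoulli), i.e. `(n+k)^(k-1) n ≥ n^(k-1) (n + k(k-1))`. -/
theorem t_lt_w {u k a b : ℕ} (hu : 2 ≤ u) (hk : 1 ≤ k) (hab : a + k = u * k + b) :
    (k - 1 + b).choose (k - 1) * (2 * k + a + k * (k - 1)) ≤
      (k + a - 1).choose (k - 1) * (2 * k + a) := by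
  have key : (k - 1 + b).descFactorial (k - 1) * (2 * k + a + k) ^ (k - 1)
      ≤ (k + a - 1).descFactorial (k - 1) * (2 * k + a) ^ (k - 1) := by
    have e3 : (2 * k + a + k) ^ (k - 1) = ∏ _i ∈ Finset.range (k - 1), (2 * k + a + k) := by
      rw [Finset.prod_const, Finset.card_range]
    have e4 : (2 * k + a) ^ (k - 1) = ∏ _i ∈ Finset.range (k - 1), (2 * k + a) := by
      rw [Finset.prod_const, Finset.card_range]
    rw [e3, e4, Nat.descFactorial_eq_prod_range, Nat.descFactorial_eq_prod_range,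
      ← Finset.prod_mul_distrib, ← Finset.prod_mul_distrib]
    refine Finset.prod_le_prod' fun i hi => ?_
    rw [Finset.mem_range] at hi
    obtain ⟨w, rfl⟩ := Nat.exists_eq_add_of_le' hu
    have e5 : (w + 2) * k = (w + 1) * k + k := by ring
    have e6 : k + a - 1 - i = (k - 1 + b - i) + (w + 1) * k := by omega
    rw [e6]
    have h1 : k - 1 + b - i ≤ 2 * k + a := by omega
    have h2 : (k - 1 + b - i) * k ≤ (w + 1) * k * (2 * k + a) := by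
      calc (k - 1 + b - i) * k ≤ (2 * k + a) * k := Nat.mul_le_mul_right _ h1
        _ = 1 * (k * (2 * k + a)) := by ring
        _ ≤ (w + 1) * (k * (2 * k + a)) := Nat.mul_le_mul_right _ (by omega)
        _ = _ := by ring
    calc (k - 1 + b - i) * (2 * k + a + k)
        = (k - 1 + b - i) * (2 * k + a) + (k - 1 + b - i) * k := by ring
      _ ≤ (k - 1 + b - i) * (2 * k + a) + (w + 1) * k * (2 * k + a) := Nat.add_le_add_left h2 _
      _ = _ := by ring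
  rw [Nat.descFactorial_eq_factorial_mul_choose, Nat.descFactorial_eq_factorial_mul_choose,
    mul_assoc, mul_assoc] at key
  have key2 := Nat.le_of_mul_le_mul_left key (Nat.factorial_pos (k - 1))
  have hpos : 0 < (2 * k + a) ^ (k - 1) := pow_pos (by omega) _
  refine Nat.le_of_mul_le_mul_left ?_ hpos
  calc (2 * k + a) ^ (k - 1) * ((k - 1 + b).choose (k - 1) * (2 * k + a + k * (k - 1)))
      = (k - 1 + b).choose (k - 1) * ((2 * k + a) ^ (k - 1) * (2 * k + a + k * (k - 1))) := by ring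
    _ ≤ (k - 1 + b).choose (k - 1) * ((2 * k + a + k) ^ (k - 1) * (2 * k + a)) :=
        Nat.mul_le_mul_left _ (numC_bern _ _ _)
    _ = ((k - 1 + b).choose (k - 1) * (2 * k + a + k) ^ (k - 1)) * (2 * k + a) := by ring
    _ ≤ ((k + a - 1).choose (k - 1) * (2 * k + a) ^ (k - 1)) * (2 * k + a) :=
        Nat.mul_le_mul_right _ key2
    _ = _ := by ring

/-- `choose_bern2` and Bernoulli: `(n^2+k^2)^(k-1) n^2 ≥ (n^2)^(k-1) (n^2 + (k-1)k^2)`, so
`T L^(u-1) (n^2 + (k-1)k^2) ≤ W^u n^2`, and `(k-1) k^2 ≥ 4·32^u n^2`, so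
`T L^(u-1) (1 + 4·32^u) ≤ W^u`; `32^u (v-1) L^(u-1) ≤ 2·32^u T L^(u-1) < W^u` (`T, L > 0`). -/
theorem num_r2 {u k a b v : ℕ} (hu : 2 ≤ u) (hk : 2 ≤ k) (hab : a + k = u * k + b)
    (h : 4 * 32 ^ u * (2 * k + a) ^ 2 ≤ k ^ 2 * (k - 1))
    (hv : v - 1 ≤ 2 * (k - 1 + b).choose (k - 1)) :
    32 ^ u * (v - 1) * ((2 * k + a - 1).choose (k - 1)) ^ (u - 1) <
      ((k + a - 1).choose (k - 1)) ^ u := by
  obtain ⟨T, hT⟩ : ∃ T, T = (k - 1 + b).choose (k - 1) := ⟨_, rfl⟩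
  obtain ⟨L, hL⟩ : ∃ L, L = (2 * k + a - 1).choose (k - 1) := ⟨_, rfl⟩
  obtain ⟨W, hW⟩ : ∃ W, W = (k + a - 1).choose (k - 1) := ⟨_, rfl⟩
  obtain ⟨n, hn⟩ : ∃ n, n = 2 * k + a := ⟨_, rfl⟩
  have h1 := choose_bern2 hu (by omega : 1 ≤ k) hab
  have hT0 : 0 < T := by
    rw [hT]
    exact Nat.choose_pos (by omega)
  have hL0 : 0 < L := by
    rw [hL]
    exact Nat.choose_pos (by omega)
  rw [← hT, ← hL, ← hW, ← hn] at h1
  rw [← hn] at h
  rw [← hT] at hv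
  rw [← hL, ← hW]
  have hn0 : 0 < n ^ 2 := pow_pos (by omega) 2
  have h2 := numC_bern (n ^ 2) (k ^ 2) (k - 1)
  have hpos : 0 < (n ^ 2) ^ (k - 1) := pow_pos hn0 _
  have h3 : T * L ^ (u - 1) * (n ^ 2 + k ^ 2 * (k - 1)) ≤ W ^ u * n ^ 2 := by
    refine Nat.le_of_mul_le_mul_left ?_ hpos
    calc (n ^ 2) ^ (k - 1) * (T * L ^ (u - 1) * (n ^ 2 + k ^ 2 * (k - 1)))
        = T * L ^ (u - 1) * ((n ^ 2) ^ (k - 1) * (n ^ 2 + k ^ 2 * (k - 1))) := by ring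
      _ ≤ T * L ^ (u - 1) * ((n ^ 2 + k ^ 2) ^ (k - 1) * n ^ 2) := Nat.mul_le_mul_left _ h2
      _ = (T * L ^ (u - 1) * (n ^ 2 + k ^ 2) ^ (k - 1)) * n ^ 2 := by ring
      _ ≤ (W ^ u * (n ^ 2) ^ (k - 1)) * n ^ 2 := Nat.mul_le_mul_right _ h1
      _ = _ := by ring
  have h4 : T * L ^ (u - 1) * (1 + 4 * 32 ^ u) ≤ W ^ u := by
    refine Nat.le_of_mul_le_mul_right ?_ hn0
    calc T * L ^ (u - 1) * (1 + 4 * 32 ^ u) * n ^ 2
        = T * L ^ (u - 1) * (n ^ 2 + 4 * 32 ^ u * n ^ 2) := by ring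
      _ ≤ T * L ^ (u - 1) * (n ^ 2 + k ^ 2 * (k - 1)) :=
          Nat.mul_le_mul_left _ (Nat.add_le_add_left h _)
      _ ≤ _ := h3
  have hTL : 0 < T * L ^ (u - 1) := Nat.mul_pos hT0 (pow_pos hL0 _)
  calc 32 ^ u * (v - 1) * L ^ (u - 1) ≤ 32 ^ u * (2 * T) * L ^ (u - 1) :=
        Nat.mul_le_mul_right _ (Nat.mul_le_mul_left _ hv)
    _ = T * L ^ (u - 1) * (2 * 32 ^ u) := by ring
    _ < T * L ^ (u - 1) * (1 + 4 * 32 ^ u) := Nat.mul_lt_mul_of_pos_left (by omega) hTL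
    _ ≤ W ^ u := h4

/-- `C(n,k-2) (n-k+2) = C(n,k-1) (k-1)`, `C(n,k-1) (n-k+1) = n L` (`L = C(n-1,k-1)`), so
`C(n,k-2) (n-k+1)(n-k+2) = (k-1) n L`; `k.choose 2 * 2 = k (k-1)`; together
`p (k-1) k (n-k+1)(n-k+2) ≤ 8 k^2 (k-1) n L`, so `p (n-k+1)(n-k+2) ≤ 8 k n L`, and
`4 n^2 ≤ 9 (n-k+1)(n-k+2)` because `3k ≤ n`. -/
theorem poor_num {n k p : ℕ} (hk : 2 ≤ k) (hn : 3 * k ≤ n)
    (h : p * k.choose 2 ≤ 4 * k ^ 2 * n.choose (k - 2)) :
    n * p ≤ 40 * k * (n - 1).choose (k - 1) := by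
  obtain ⟨j, rfl⟩ := Nat.exists_eq_add_of_le' hk
  obtain ⟨N, rfl⟩ : ∃ N, n = N + 1 := ⟨n - 1, by omega⟩
  have e1 : j + 2 - 2 = j := by omega
  have e2 : j + 2 - 1 = j + 1 := by omega
  have e3 : N + 1 - 1 = N := by omega
  rw [e1] at h
  rw [e2, e3]
  -- the two recursions
  have h1 := Nat.choose_succ_right_eq (N + 1) j
  have h2 := Nat.choose_mul_succ_eq N (j + 1)
  obtain ⟨A, hA⟩ : ∃ A, A = (N + 1).choose j := ⟨_, rfl⟩
  obtain ⟨B, hB⟩ : ∃ B, B = (N + 1).choose (j + 1) := ⟨_, rfl⟩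
  obtain ⟨L, hL⟩ : ∃ L, L = N.choose (j + 1) := ⟨_, rfl⟩
  rw [← hA] at h h1
  rw [← hB] at h1 h2
  rw [← hL] at h2 ⊢
  have h3 : (j + 2).choose 2 * 2 = (j + 2) * (j + 1) := by
    rw [Nat.choose_two_right, e2]
    exact Nat.div_mul_cancel (by
      have := Nat.even_mul_pred_self (j + 2)
      rw [e2] at this
      exact this.two_dvd)
  obtain ⟨x, hx⟩ : ∃ x, x = N + 1 - (j + 1) := ⟨_, rfl⟩
  have hx2 : N + 1 - j = x + 1 := by omega
  rw [hx2] at h1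
  rw [← hx] at h2
  -- p (j+2)(j+1) x (x+1) ≤ 8 (j+2)^2 (j+1) (N+1) L
  have h4 : p * ((j + 2) * (j + 1)) ≤ 8 * (j + 2) ^ 2 * A := by
    calc p * ((j + 2) * (j + 1)) = 2 * (p * (j + 2).choose 2) := by rw [← h3]; ring
      _ ≤ 2 * (4 * (j + 2) ^ 2 * A) := Nat.mul_le_mul_left _ h
      _ = _ := by ring
  have h5 : (j + 2) * (j + 1) * (p * (x * (x + 1))) ≤
      (j + 2) * (j + 1) * (8 * (j + 2) * (L * (N + 1))) := by
    calc (j + 2) * (j + 1) * (p * (x * (x + 1)))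
        = p * ((j + 2) * (j + 1)) * (x * (x + 1)) := by ring
      _ ≤ 8 * (j + 2) ^ 2 * A * (x * (x + 1)) := Nat.mul_le_mul_right _ h4
      _ = 8 * (j + 2) ^ 2 * x * (A * (x + 1)) := by ring
      _ = 8 * (j + 2) ^ 2 * x * (B * (j + 1)) := by rw [h1]
      _ = 8 * (j + 2) ^ 2 * (j + 1) * (B * x) := by ring
      _ = 8 * (j + 2) ^ 2 * (j + 1) * (L * (N + 1)) := by rw [h2]
      _ = _ := by ring
  have h6 : p * (x * (x + 1)) ≤ 8 * (j + 2) * (L * (N + 1)) :=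
    Nat.le_of_mul_le_mul_left h5 (by positivity)
  have h7 : 4 * (N + 1) ^ 2 ≤ 9 * (x * (x + 1)) := by
    have h8 : 2 * (N + 1) ≤ 3 * x := by omega
    nlinarith
  have h9 : (N + 1) * (4 * ((N + 1) * p)) ≤ (N + 1) * (72 * ((j + 2) * L)) := by
    calc (N + 1) * (4 * ((N + 1) * p)) = p * (4 * (N + 1) ^ 2) := by ring
      _ ≤ p * (9 * (x * (x + 1))) := Nat.mul_le_mul_left _ h7
      _ = 9 * (p * (x * (x + 1))) := by ring
      _ ≤ 9 * (8 * (j + 2) * (L * (N + 1))) := Nat.mul_le_mul_left _ h6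
      _ = _ := by ring
  have h10 := Nat.le_of_mul_le_mul_left h9 (Nat.succ_pos N)
  have h11 : 40 * (j + 2) * L = 40 * ((j + 2) * L) := by ring
  rw [h11]
  omega

end Pool.Agent.Lib.MP_fffc5a_co.W
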