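import Mathlib
import Pool.Agent.Lib.MP_fffc5a_co.V.Few
import Pool.Agent.Lib.MP_fffc5a_co.W.NumC
import Pool.Agent.Lib.MP_fffc5a_co.W.Link

/-!
A large union-intersecting family has few disjoint pairs: the case of large `n / k`.
-/

set_option autoImplicit false

open Finset

namespace Pool.Agent.Lib.MP_fffc5a_co.W

/-- `P` = the members of `F` disjoint from more than `m` members of `F`. The disjoint pairs
`(G, B)` with `G ∉ P` are at most `m |F|`, those with `B ∉ P` as well, the other pairs are in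
`P × P` (`kst_dp_left`, symmetry). -/
theorem dp_split {α : Type*} [DecidableEq α] (F : Finset (Finset α)) (m : ℕ) :
    dp F F ≤ 2 * m * F.card +
      dp (F.filter fun G => m < (F.filter fun B => Disjoint G B).card)
        (F.filter fun G => m < (F.filter fun B => Disjoint G B).card) := by
  obtain ⟨P, hP⟩ : ∃ P, P = F.filter fun G => m < (F.filter fun B => Disjoint G B).card :=
    ⟨_, rfl⟩
  obtain ⟨Q, hQ⟩ : ∃ Q, Q = F.filter fun G => ¬ m < (F.filter fun B => Disjoint G B).card :=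
    ⟨_, rfl⟩
  rw [← hP]
  have hQF : Q.card ≤ F.card := by
    rw [hQ]
    exact Finset.card_filter_le _ _
  have h1 : dp Q F ≤ m * F.card := by
    rw [kst_dp_left]
    calc ∑ G ∈ Q, (F.filter fun B => Disjoint G B).card ≤ ∑ _G ∈ Q, m := by
          refine Finset.sum_le_sum fun G hG => ?_
          rw [hQ, Finset.mem_filter] at hG
          exact not_lt.1 hG.2
      _ = Q.card * m := by rw [Finset.sum_const, smul_eq_mul]
      _ ≤ m * F.card := by
          rw [mul_comm]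
          exact Nat.mul_le_mul_left m hQF
  have h2 : dp F Q ≤ m * F.card := by
    rw [kst_dp_right]
    calc ∑ B ∈ Q, (F.filter fun G => Disjoint G B).card ≤ ∑ _B ∈ Q, m := by
          refine Finset.sum_le_sum fun B hB => ?_
          rw [hQ, Finset.mem_filter] at hB
          have h3 : (F.filter fun G => Disjoint G B) = F.filter fun G => Disjoint B G :=
            Finset.filter_congr fun G _ => disjoint_comm
          rw [h3]
          exact not_lt.1 hB.2
      _ = Q.card * m := by rw [Finset.sum_const, smul_eq_mul]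
      _ ≤ m * F.card := by
          rw [mul_comm]
          exact Nat.mul_le_mul_left m hQF
  have h3 : dp F F ≤ dp Q F + dp F Q + dp P P := by
    unfold dp
    refine (Finset.card_le_card (t := (((Q ×ˢ F).filter fun p => Disjoint p.1 p.2) ∪
      ((F ×ˢ Q).filter fun p => Disjoint p.1 p.2)) ∪
      ((P ×ˢ P).filter fun p => Disjoint p.1 p.2)) ?_).trans ?_
    · rintro ⟨G, B⟩ h
      rw [Finset.mem_filter, Finset.mem_product] at h
      obtain ⟨⟨hG, hB⟩, hd⟩ := h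
      rw [Finset.mem_union, Finset.mem_union, Finset.mem_filter, Finset.mem_filter,
        Finset.mem_filter, Finset.mem_product, Finset.mem_product, Finset.mem_product]
      by_cases hGP : m < (F.filter fun B => Disjoint G B).card
      · by_cases hBP : m < (F.filter fun B' => Disjoint B B').card
        · right
          rw [hP]
          exact ⟨⟨Finset.mem_filter.2 ⟨hG, hGP⟩, Finset.mem_filter.2 ⟨hB, hBP⟩⟩, hd⟩
        · left
          right
          rw [hQ]
          exact ⟨⟨hG, Finset.mem_filter.2 ⟨hB, hBP⟩⟩, hd⟩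
      · left
        left
        rw [hQ]
        exact ⟨⟨Finset.mem_filter.2 ⟨hG, hGP⟩, hB⟩, hd⟩
    · exact (Finset.card_union_le _ _).trans (Nat.add_le_add_right (Finset.card_union_le _ _) _)
  have h4 : 2 * m * F.card = m * F.card + m * F.card := by ring
  omega

/-- the arithmetic of `dp_large` -/
theorem large_num {u v s W L T N : ℕ} (hu : 2 ≤ u) (hN : 0 < N) (hNL : 10 ^ 5 * N ≤ L)
    (hT : v - 1 ≤ 2 * T) (hWs : W ≤ 40 * s) (hB : T * L ^ (u - 1) ≤ W ^ u) (hW : 0 < W)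
    (hk : N * s ^ u ≤ 2 ^ u * (N ^ u * (v - 1))) : False := by
  obtain ⟨w, rfl⟩ : ∃ w, u = w + 1 := ⟨u - 1, by omega⟩
  rw [Nat.add_sub_cancel] at hB
  have h1 : s ^ (w + 1) ≤ 2 ^ (w + 1) * (N ^ w * (v - 1)) := by
    refine Nat.le_of_mul_le_mul_left ?_ hN
    calc N * s ^ (w + 1) ≤ 2 ^ (w + 1) * (N ^ (w + 1) * (v - 1)) := hk
      _ = N * (2 ^ (w + 1) * (N ^ w * (v - 1))) := by rw [pow_succ N w]; ring
  have h2 : (10 ^ 5) ^ w * W ^ (w + 1) ≤ (2 * 80 ^ (w + 1)) * W ^ (w + 1) := by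
    calc (10 ^ 5) ^ w * W ^ (w + 1) ≤ (10 ^ 5) ^ w * (40 * s) ^ (w + 1) :=
          Nat.mul_le_mul_left _ (Nat.pow_le_pow_left hWs _)
      _ = (10 ^ 5) ^ w * (40 ^ (w + 1) * s ^ (w + 1)) := by rw [mul_pow]
      _ ≤ (10 ^ 5) ^ w * (40 ^ (w + 1) * (2 ^ (w + 1) * (N ^ w * (v - 1)))) :=
          Nat.mul_le_mul_left _ (Nat.mul_le_mul_left _ h1)
      _ = 40 ^ (w + 1) * 2 ^ (w + 1) * ((10 ^ 5 * N) ^ w * (v - 1)) := by
          rw [mul_pow]
          ring
      _ = 80 ^ (w + 1) * ((10 ^ 5 * N) ^ w * (v - 1)) := by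
          rw [← mul_pow, show 40 * 2 = 80 from rfl]
      _ ≤ 80 ^ (w + 1) * (L ^ w * (2 * T)) :=
          Nat.mul_le_mul_left _ (Nat.mul_le_mul (Nat.pow_le_pow_left hNL _) hT)
      _ = 2 * 80 ^ (w + 1) * (T * L ^ w) := by ring
      _ ≤ (2 * 80 ^ (w + 1)) * W ^ (w + 1) := Nat.mul_le_mul_left _ hB
  have h3 : (10 ^ 5) ^ w ≤ 2 * 80 ^ (w + 1) :=
    Nat.le_of_mul_le_mul_right h2 (Nat.pow_pos hW)
  have h4 : (10 ^ 5 : ℕ) ^ w = 1250 ^ w * 80 ^ w := by
    rw [← mul_pow, show 1250 * 80 = 10 ^ 5 by norm_num]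
  have h5 : (2 * 80 ^ (w + 1) : ℕ) = 160 * 80 ^ w := by
    rw [pow_succ]
    ring
  rw [h4, h5] at h3
  have h6 : (1250 : ℕ) ^ w ≤ 160 := Nat.le_of_mul_le_mul_right h3 (Nat.pow_pos (by norm_num))
  have h7 : (1250 : ℕ) ^ 1 ≤ 1250 ^ w := Nat.pow_le_pow_right (by norm_num) (by omega)
  omega

/-- `L = C(2k+a-1,k-1)`, `W = C(k+a-1,k-1)`, `C' = C(k+a-2,a-1)`, `W ≤ 2 C'` (see `V.dp_few`; `a ≥ k`
because `4·10⁶ k ≤ 2k+a`), `T = C(k-1+b,k-1)`. `P` = the members of `F` disjoint from more than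
`4^u (v-1)` members of `F`. `poor_card`, `poor_num`: `(2k+a) |P| ≤ 40 k L`, so `10⁵ |P| ≤ L`.
By `dp_split` and `hW` (`2·4^u (v-1) ≤ W/(2·10⁶) ≤ C'/10⁶`) it is enough that
`10⁶ dp P P ≤ C' |F|`. Otherwise let `s = C'/10` (floor): `s |P| ≤ dp P P` (`10 s ≤ C'`,
`10⁵ |P| ≤ L ≤ |F|`), `s ≥ 2u` (`2 C' ≥ W ≥ 4·10⁶·4^u`), `W ≤ 40 s`; `V.kst_pow` with
`X = Y = P`, `N = |P|`: `|P| s^u ≤ 2^u |P|^u (v-1)`, so (`|P| > 0` because `dp P P > 0`)
`s^u ≤ 2^u |P|^(u-1) (v-1)` and
`(10⁵)^(u-1) W^u ≤ 40^u (10⁵)^(u-1) s^u ≤ 80^u L^(u-1) (v-1) ≤ 2·80^u L^(u-1) T ≤ 2·80^u W^u`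
(`V.choose_bern`), but `2·80^u < (10⁵)^(u-1)` for `u ≥ 2`, `W > 0`. -/
theorem dp_large {u v k a b : ℕ} (hu : 2 ≤ u) (hv : 2 ≤ v) (huk : 2 * u ≤ k)
    (hab : a + k = u * k + b) (hn : 4 * 10 ^ 6 * k ≤ 2 * k + a)
    (hT : v - 1 ≤ 2 * (k - 1 + b).choose (k - 1))
    (hW : 4 * 10 ^ 6 * 4 ^ u * (v - 1) ≤ (k + a - 1).choose (k - 1))
    {F : Finset (Finset (Fin (2 * k + a)))} (hF : ∀ s ∈ F, s.card = k) (hUI : UI u v F)
    (hcard : F.card = (2 * k + a - 1).choose (k - 1) + 1) :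
    500000 * dp F F ≤ (k + a - 2).choose (a - 1) * F.card := by
  have hak : k ≤ a := by omega
  have hWC : (k + a - 1).choose (k - 1) ≤ 2 * (k + a - 2).choose (a - 1) := by
    have e1 : (k + a - 1).choose (k - 1) = (k + a - 2 + 1).choose (a - 1 + 1) := by
      have h1 : k + a - 2 + 1 = k + a - 1 := by omega
      have h2 : a - 1 + 1 = a := by omega
      rw [h1, h2]
      exact Nat.choose_symm_of_eq_add (by omega)
    have e2 := Nat.add_one_mul_choose_eq (k + a - 2) (a - 1)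
    rw [← e1] at e2
    have h3 : k + a - 2 + 1 ≤ 2 * (a - 1 + 1) := by omega
    have h4 : (k + a - 1).choose (k - 1) * (a - 1 + 1) ≤
        2 * (k + a - 2).choose (a - 1) * (a - 1 + 1) := by
      rw [← e2]
      calc (k + a - 2 + 1) * (k + a - 2).choose (a - 1) ≤
          (2 * (a - 1 + 1)) * (k + a - 2).choose (a - 1) := Nat.mul_le_mul_right _ h3
        _ = _ := by ring
    exact Nat.le_of_mul_le_mul_right h4 (Nat.succ_pos _)
  have hB := V.choose_bern (u := u) (k := k) (a := a) (b := b) (by omega) (by omega) hab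
  have hsplit := dp_split F (4 ^ u * (v - 1))
  obtain ⟨P, hP⟩ : ∃ P, P = F.filter fun G =>
    4 ^ u * (v - 1) < (F.filter fun B => Disjoint G B).card := ⟨_, rfl⟩
  rw [← hP] at hsplit
  have hPF : P ⊆ F := by
    rw [hP]
    exact Finset.filter_subset _ _
  have hPd : ∀ G ∈ P, 4 ^ u * (v - 1) < (F.filter fun B => Disjoint G B).card := by
    intro G hG
    rw [hP, Finset.mem_filter] at hG
    exact hG.2
  have hpoor := poor_card (u := u) (v := v) (by omega) (by omega) huk hF hUI hPF hPd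
  rw [Fintype.card_fin] at hpoor
  have hnum := poor_num (n := 2 * k + a) (k := k) (p := P.card) (by omega) (by omega) hpoor
  have hPL : 10 ^ 5 * P.card ≤ (2 * k + a - 1).choose (k - 1) := by
    have h40 : 0 < 40 * k := by omega
    refine Nat.le_of_mul_le_mul_left ?_ h40
    calc 40 * k * (10 ^ 5 * P.card) = (4 * 10 ^ 6 * k) * P.card := by ring
      _ ≤ (2 * k + a) * P.card := Nat.mul_le_mul_right _ hn
      _ ≤ 40 * k * (2 * k + a - 1).choose (k - 1) := hnum
  clear hpoor hnum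
  obtain ⟨C', hC'⟩ : ∃ C', C' = (k + a - 2).choose (a - 1) := ⟨_, rfl⟩
  obtain ⟨W, hWd⟩ : ∃ W, W = (k + a - 1).choose (k - 1) := ⟨_, rfl⟩
  obtain ⟨T, hTd⟩ : ∃ T, T = (k - 1 + b).choose (k - 1) := ⟨_, rfl⟩
  obtain ⟨L, hLd⟩ : ∃ L, L = (2 * k + a - 1).choose (k - 1) := ⟨_, rfl⟩
  rw [← hC', ← hWd] at hWC
  rw [← hTd, ← hLd, ← hWd] at hB
  rw [← hTd] at hT
  rw [← hWd] at hW
  rw [← hLd] at hPL hcard
  rw [← hC']
  have h4u : u < 4 ^ u := Nat.lt_pow_self (by norm_num)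
  have hM : 4 ^ u ≤ 4 ^ u * (v - 1) := Nat.le_mul_of_pos_right _ (by omega)
  obtain ⟨M, hMd⟩ : ∃ M, M = 4 ^ u * (v - 1) := ⟨_, rfl⟩
  have hW' : 4 * 10 ^ 6 * M ≤ W := by
    rw [hMd, ← mul_assoc]
    exact hW
  rw [← hMd] at hM hsplit
  have key : 10 ^ 6 * dp P P ≤ C' * F.card := by
    by_contra hcon
    rw [not_le] at hcon
    have hs1 : 10 * (C' / 10) ≤ C' := Nat.mul_div_le _ _
    have hs2 : C' < 10 * (C' / 10 + 1) := Nat.lt_mul_div_succ _ (by norm_num)
    obtain ⟨s, hs⟩ : ∃ s, s = C' / 10 := ⟨_, rfl⟩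
    rw [← hs] at hs1 hs2
    have hs3 : 2 * u ≤ s := by omega
    have hWs : W ≤ 40 * s := by omega
    have hsP : s * P.card ≤ dp P P := by
      have h1 : 10 ^ 6 * (s * P.card) ≤ C' * F.card := by
        calc 10 ^ 6 * (s * P.card) = (10 * s) * (10 ^ 5 * P.card) := by ring
          _ ≤ C' * F.card := Nat.mul_le_mul hs1 (by omega)
      omega
    have hP0 : 0 < P.card := by
      rcases Nat.eq_zero_or_pos P.card with h0 | h0
      · exfalso
        rw [Finset.card_eq_zero] at h0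
        have h1 : dp P P = 0 := by
          rw [h0]
          rfl
        rw [h1, mul_zero] at hcon
        exact Nat.not_lt_zero _ hcon
      · exact h0
    have hkst := V.kst_pow (u := u) (v := v) (s := s) (N := P.card) (by omega) (by omega) hUI
      hPF hPF hs3 le_rfl (by rw [← kst_dp_right]; exact hsP)
    exact large_num hu hP0 hPL hT hWs hB (by omega) hkst
  have h1 : 500000 * (2 * M * F.card) * 2 ≤ C' * F.card := by
    calc 500000 * (2 * M * F.card) * 2 = (2 * 10 ^ 6 * M) * F.card := by ring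
      _ ≤ C' * F.card := Nat.mul_le_mul_right _ (by omega)
  calc 500000 * dp F F ≤ 500000 * (2 * M * F.card + dp P P) := Nat.mul_le_mul_left _ hsplit
    _ = 500000 * (2 * M * F.card) + 500000 * dp P P := by ring
    _ ≤ C' * F.card := by omega

end Pool.Agent.Lib.MP_fffc5a_co.W
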