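import Mathlib
import Pool.Agent.Lib.MP_fffc5a_co.MissCard
import Pool.Agent.Lib.MP_fffc5a_co.Kst

/-!
The end of the proof when few sets of the star are missing.
-/

set_option autoImplicit false

open Finset

namespace Pool.Agent.Lib.MP_fffc5a_co.W

theorem end_nbrs {α : Type*} [DecidableEq α] {u v : ℕ} (hv : 1 ≤ v) {F : Finset (Finset α)}
    (hUI : UI u v F) {T : Finset (Finset α)} (hT : T ⊆ F) (hTu : T.card = u)
    {X : Finset (Finset α)} (hX : ∀ B ∈ X, B ∈ F ∧ ∀ G ∈ T, Disjoint G B) : X.card ≤ v - 1 :=
  (card_le_card fun B hB => mem_filter.2 (hX B hB)).trans (common_nbrs hv hUI hT hTu)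

/-- `T ⊆ F` with `u` members without `x`. The members of `F` disjoint from all of `T`: those which
contain `x` (at least `C(n-1-|⋃T|,k-1) - |Miss|`, `card_disj`, as in `disj_le_miss`) and those of
`E \ T` disjoint from `⋃T`; `common_nbrs`. -/
theorem end_count {α : Type*} [Fintype α] [DecidableEq α] {u v k : ℕ} (hv : 1 ≤ v)
    {F : Finset (Finset α)} (hUI : UI u v F) {x : α}
    {T : Finset (Finset α)} (hT : T ⊆ F.filter fun s => x ∉ s) (hTu : T.card = u) :
    (Fintype.card α - 1 - (T.biUnion id).card).choose (k - 1) +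
      ((F.filter fun s => x ∉ s).filter fun G => Disjoint G (T.biUnion id)).card ≤
      (Miss F x k).card + (v - 1) := by
  set W := T.biUnion id with hW
  have hxW : x ∉ W := by
    intro h
    obtain ⟨s, hs, hxs⟩ := mem_biUnion.1 h
    exact (mem_filter.1 (hT hs)).2 hxs
  have h0 := card_disj k hxW
  set P := (powersetCard (k - 1) (univ.erase x)).filter fun S => Disjoint S W with hP
  have h1 : P.card = (P.filter fun S => insert x S ∈ F).card +
      (P.filter fun S => insert x S ∉ F).card :=
    (card_filter_add_card_filter_not (s := P) (fun S => insert x S ∈ F)).symm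
  have h2 : (P.filter fun S => insert x S ∉ F).card ≤ (Miss F x k).card := by
    refine card_le_card ?_
    intro S hS
    rw [mem_filter, hP, mem_filter] at hS
    exact mem_filter.2 ⟨hS.1.1, hS.2⟩
  have hxS : ∀ S ∈ P, x ∉ S := by
    intro S hS hx
    rw [hP, mem_filter, mem_powersetCard] at hS
    exact (mem_erase.1 (hS.1.1 hx)).1 rfl
  have hinj : Set.InjOn (fun S : Finset α => insert x S)
      ((P.filter fun S => insert x S ∈ F : Finset (Finset α)) : Set (Finset α)) := by
    intro S hS S' hS' h
    have e1 := hxS S (mem_filter.1 (mem_coe.1 hS)).1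
    have e2 := hxS S' (mem_filter.1 (mem_coe.1 hS')).1
    simp only at h
    rw [← erase_insert e1, ← erase_insert e2, h]
  have hdis : Disjoint ((P.filter fun S => insert x S ∈ F).image fun S => insert x S)
      ((F.filter fun s => x ∉ s).filter fun G => Disjoint G W) := by
    rw [disjoint_left]
    intro s hs hs'
    obtain ⟨S, _, rfl⟩ := mem_image.1 hs
    exact (mem_filter.1 (mem_filter.1 hs').1).2 (mem_insert_self x S)
  have hsub : (((P.filter fun S => insert x S ∈ F).image fun S => insert x S) ∪
      ((F.filter fun s => x ∉ s).filter fun G => Disjoint G W)).card ≤ v - 1 := by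
    refine end_nbrs hv hUI (hT.trans (filter_subset _ _)) hTu ?_
    intro s hs
    rcases mem_union.1 hs with h | h
    · obtain ⟨S, hS, rfl⟩ := mem_image.1 h
      have hS1 := mem_filter.1 hS
      refine ⟨hS1.2, fun G hG => ?_⟩
      rw [disjoint_insert_right]
      refine ⟨(mem_filter.1 (hT hG)).2, ?_⟩
      have h5 : Disjoint S W := by
        have h6 := hS1.1
        rw [hP, mem_filter] at h6
        exact h6.2
      exact (disjoint_of_subset_right (subset_biUnion_of_mem id hG) h5).symm
    · have h4 := mem_filter.1 h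
      refine ⟨(mem_filter.1 h4.1).1, fun G hG => ?_⟩
      exact (disjoint_of_subset_right (subset_biUnion_of_mem id hG) h4.2).symm
  rw [card_union_of_disjoint hdis, card_image_of_injOn hinj] at hsub
  omega

/-- two meeting members make the union of `u` members small -/
theorem end_union {α : Type*} [DecidableEq α] {k : ℕ} {T : Finset (Finset α)}
    (hTk : ∀ s ∈ T, s.card = k) {G G' : Finset α} (hG : G ∈ T) (hG' : G' ∈ T) (hne : G ≠ G')
    (hm : ¬ Disjoint G G') : (T.biUnion id).card + 1 ≤ T.card * k := by
  have h1 : T = insert G (insert G' ((T.erase G).erase G')) := by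
    rw [insert_erase (mem_erase.2 ⟨hne.symm, hG'⟩), insert_erase hG]
  have h2 : ((T.erase G).erase G').card + 2 = T.card := by
    rw [card_erase_of_mem (mem_erase.2 ⟨hne.symm, hG'⟩), card_erase_of_mem hG]
    have h3 : 1 < T.card := one_lt_card.2 ⟨G, hG, G', hG', hne⟩
    omega
  have h3 : T.biUnion id = (G ∪ G') ∪ ((T.erase G).erase G').biUnion id := by
    conv_lhs => rw [h1]
    rw [biUnion_insert, biUnion_insert, id, id, union_assoc]
  have h4 : (((T.erase G).erase G').biUnion id).card ≤ ((T.erase G).erase G').card * k := by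
    refine card_biUnion_le_card_mul _ _ _ fun s hs => ?_
    exact (hTk s (mem_of_mem_erase (mem_of_mem_erase hs))).le
  have h5 : (G ∪ G').card + (G ∩ G').card = G.card + G'.card := card_union_add_card_inter G G'
  have h6 : 0 < (G ∩ G').card := by
    rw [card_pos]
    exact not_disjoint_iff_nonempty_inter.1 hm
  rw [hTk G hG, hTk G' hG'] at h5
  have h7 := card_union_le (G ∪ G') (((T.erase G).erase G').biUnion id)
  rw [← h3] at h7
  have h8 : T.card * k = ((T.erase G).erase G').card * k + 2 * k := by
    rw [← h2, add_mul]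
  omega

/-- `E` = members without `x`, `n = 2k+a`, `n - 1 - u k = k - 1 + b`. `card_add_miss`:
`|F| + |Miss| = |E| + L`. If `|E| ≤ u - 1`: `|F| ≤ L + u - 1`, and `u ≤ (n-1)/k`. Let `|E| ≥ u`. For
`T ⊆ E` with `u` members: if `|⋃T| ≤ u k - 1` then `end_count` gives
`C(k+b,k-1) ≤ |Miss| + (v-1)`, contradiction to `hM`; so `|⋃T| = u k`. Hence the members of `E` are
pairwise disjoint (two members `G`, `G'` with `G ∩ G' ≠ ∅` are in a `T` with `u` members, its union
would have at most `2k-1 + (u-2)k` elements), so `|E| k ≤ n - 1`. And for such a `T` all the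
`|E| - u` other members of `E` are disjoint from `⋃T`, `end_count`:
`C(k-1+b,k-1) + |E| - u ≤ |Miss| + (v-1)`. -/
theorem end_a {u v k a b : ℕ} (hu : 2 ≤ u) (hv : 2 ≤ v) (hk : 1 ≤ k) (hb : 1 ≤ b)
    (hab : a + k = u * k + b)
    {F : Finset (Finset (Fin (2 * k + a)))} (hF : ∀ s ∈ F, s.card = k) (hUI : UI u v F)
    (x : Fin (2 * k + a)) (hM : (Miss F x k).card + (v - 1) < (k + b).choose (k - 1)) :
    F.card ≤ (2 * k + a - 1).choose (k - 1) +
      min ((2 * k + a - 1) / k) (u - 1 + (v - (k - 1 + b).choose (k - 1))) := by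
  have h0 := card_add_miss hk hF x
  rw [Fintype.card_fin] at h0
  set E := F.filter fun s => x ∉ s with hE
  have hEk : ∀ s ∈ E, s.card = k := fun s hs => hF s (mem_filter.1 hs).1
  have hn : 2 * k + a - 1 = u * k + (k - 1 + b) := by omega
  rcases Nat.lt_or_ge E.card u with hlt | hge
  · have h1 : u - 1 ≤ (2 * k + a - 1) / k := by
      rw [Nat.le_div_iff_mul_le hk, hn]
      have h2 : (u - 1) * k ≤ u * k := Nat.mul_le_mul_right _ (Nat.sub_le _ _)
      omega
    have h2 : u - 1 ≤ min ((2 * k + a - 1) / k)
        (u - 1 + (v - (k - 1 + b).choose (k - 1))) := le_min h1 (Nat.le_add_right _ _)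
    omega
  · have hcnt : ∀ T ⊆ E, T.card = u → u * k ≤ (T.biUnion id).card := by
      intro T hT hTu
      by_contra hcon
      have h1 := end_count (k := k) (by omega : 1 ≤ v) hUI (x := x) hT hTu
      rw [Fintype.card_fin] at h1
      have h2 : k + b ≤ 2 * k + a - 1 - (T.biUnion id).card := by omega
      have h3 := Nat.choose_le_choose (k - 1) h2
      omega
    have hpd : ∀ G ∈ E, ∀ G' ∈ E, G ≠ G' → Disjoint G G' := by
      intro G hG G' hG' hne
      by_contra hm
      have h1 : ({G, G'} : Finset (Finset (Fin (2 * k + a)))) ⊆ E := by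
        intro s hs
        rcases mem_insert.1 hs with rfl | hs
        · exact hG
        · rw [mem_singleton.1 hs]
          exact hG'
      have h2 : ({G, G'} : Finset (Finset (Fin (2 * k + a)))).card ≤ u := by
        rw [card_pair hne]
        exact hu
      obtain ⟨T, hT1, hT2, hT3⟩ := exists_subsuperset_card_eq h1 h2 hge
      have h3 := end_union (k := k) (fun s hs => hEk s (hT2 hs)) (hT1 (mem_insert_self _ _))
        (hT1 (mem_insert_of_mem (mem_singleton_self _))) hne hm
      have h4 := hcnt T hT2 hT3
      rw [hT3] at h3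
      omega
    have h1 : (E.biUnion id).card = E.card * k := by
      rw [card_biUnion (t := id) (fun G hG G' hG' hne => hpd G hG G' hG' hne)]
      exact sum_const_nat fun s hs => hEk s hs
    have h2 : (E.biUnion id).card ≤ 2 * k + a - 1 := by
      have h3 : E.biUnion id ⊆ univ.erase x := by
        intro y hy
        refine mem_erase.2 ⟨?_, mem_univ y⟩
        rintro rfl
        obtain ⟨s, hs, hys⟩ := mem_biUnion.1 hy
        exact (mem_filter.1 hs).2 hys
      have h4 := card_le_card h3
      rw [card_erase_of_mem (mem_univ x), card_univ, Fintype.card_fin] at h4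
      exact h4
    have h3 : E.card ≤ (2 * k + a - 1) / k := by
      rw [Nat.le_div_iff_mul_le hk, ← h1]
      exact h2
    obtain ⟨T, hT, hTu⟩ := exists_subset_card_eq hge
    have h4 := end_count (k := k) (by omega : 1 ≤ v) hUI (x := x) hT hTu
    rw [Fintype.card_fin] at h4
    have h5 : (T.biUnion id).card = u * k := by
      rw [card_biUnion (t := id) (fun G hG G' hG' hne => hpd G (hT hG) G' (hT hG') hne), ← hTu]
      exact sum_const_nat fun s hs => hEk s (hT hs)
    have h6 : 2 * k + a - 1 - (T.biUnion id).card = k - 1 + b := by omega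
    rw [h6, ← hE] at h4
    have h7 : (E \ T).card ≤ (E.filter fun G => Disjoint G (T.biUnion id)).card := by
      refine card_le_card ?_
      intro G hG
      rw [mem_sdiff] at hG
      refine mem_filter.2 ⟨hG.1, ?_⟩
      rw [disjoint_biUnion_right]
      intro s hs
      refine hpd G hG.1 s (hT hs) ?_
      rintro rfl
      exact hG.2 hs
    rw [card_sdiff_of_subset hT, hTu] at h7
    have h8 : E.card ≤ (Miss F x k).card + min ((2 * k + a - 1) / k)
        (u - 1 + (v - (k - 1 + b).choose (k - 1))) := by
      rcases min_choice ((2 * k + a - 1) / k)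
        (u - 1 + (v - (k - 1 + b).choose (k - 1))) with h | h
      · rw [h]
        omega
      · rw [h]
        omega
    omega

end Pool.Agent.Lib.MP_fffc5a_co.W
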