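import Mathlib
import Pool.Agent.Lib.MP_fffc5a_co.Overlap
import Pool.Agent.Lib.MP_fffc5a_co.W.Core
import Pool.Agent.Lib.MP_fffc5a_co.W.EndA

/-!
The end of the proof when there are few members outside the star.
-/

set_option autoImplicit false

open Finset

namespace Pool.Agent.Lib.MP_fffc5a_co.W

private theorem finish_choose (m : ℕ) : ∀ j : ℕ, m * j + 1 ≤ (m + j).choose j := by
  induction m with
  | zero => intro j; rw [Nat.zero_mul, Nat.zero_add, Nat.zero_add, Nat.choose_self]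
  | succ m ih =>
    intro j
    induction j with
    | zero => rw [Nat.mul_zero, Nat.choose_zero_right]
    | succ j ihj =>
      have h1 : (m + 1 + (j + 1)).choose (j + 1) =
          (m + 1 + j).choose j + (m + 1 + j).choose (j + 1) := by
        rw [← Nat.choose_succ_succ]
        rfl
      have h2 := ih (j + 1)
      rw [show m + (j + 1) = m + 1 + j by omega] at h2
      rw [h1]
      nlinarith

/-- Members outside the star whose unions are large are pairwise disjoint. -/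
private theorem finish_code {u k a b : ℕ} (hu : 2 ≤ u) (hk : 1 ≤ k) (hab : a + k = u * k + b)
    {x : Fin (2 * k + a)} {X : Finset (Finset (Fin (2 * k + a)))}
    (hX : ∀ s ∈ X, s.card = k ∧ x ∉ s)
    (hT : ∀ T ⊆ X, T.card = u → k + a ≤ (T.biUnion id).card + b) :
    X.card ≤ (2 * k + a - 1) / k := by
  rw [Nat.le_div_iff_mul_le (by omega)]
  rcases Nat.lt_or_ge X.card u with h | h
  · have h1 : X.card * k ≤ u * k := Nat.mul_le_mul_right k h.le
    omega
  · have h1 := card_mul_le_of_unions hu (Y := univ.erase x) (fun s hs => ⟨(hX s hs).1, fun y hy =>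
      mem_erase.2 ⟨fun h => (hX s hs).2 (h ▸ hy), mem_univ y⟩⟩) h (fun T hTX hTu => by
        have h2 := hT T hTX hTu
        omega)
    rw [card_erase_of_mem (mem_univ x), card_univ, Fintype.card_fin] at h1
    exact h1

/-- `core` with `i = b` and `end_a`. `T = C(k-1+b,k-1)`, `Δ = C(k-1+b,k-2)`, `C(k+b,k-1) = T + Δ`,
`Δ (k+b) = (k-1) (T + Δ)`. `v - 1 ≤ T + Δ - Δ/2`; with `2 C₀ (k+b) ≤ k (k-1)`:
`k (v-1) ≤ (k - C₀) (T + Δ)`, the hypothesis of `core`. The sets `T ⊆ X₀` with `u` members have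
`|⋃T| ≥ k + a - b = u k`, so (if `|X₀| ≥ u`) the members of `X₀` are pairwise disjoint and
`|X₀| k ≤ n - 1`; in any case `|X₀| ≤ (n-1)/k =: ρ` (`u ≤ ρ`). If `|Miss| ≥ 2 ρ`: `|F| = L + |E| - |Miss| ≤ L`.
Otherwise `|Miss| + (v-1) < 2 ρ + T + Δ/2 ≤ T + Δ` because `4 ρ ≤ Δ` (`Δ = C(k-1+b,b+1)
≥ C(k-1+b,2)`, `ρ ≤ u + 1 + b`, `k` large): `end_a`. -/
theorem finish_core {u : ℕ} (hu : 2 ≤ u) : ∃ C : ℕ, ∀ k a b v : ℕ, C ≤ k → 1 ≤ b → 2 ≤ v →
    a + k = u * k + b → C * (2 * k + a) ≤ k ^ 2 →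
    2 * (v - (k - 1 + b).choose (k - 1)) ≤ (k - 1 + b).choose (k - 2) →
    ∀ F : Finset (Finset (Fin (2 * k + a))), (∀ s ∈ F, s.card = k) → UI u v F →
    ∀ x : Fin (2 * k + a), (2 * k + a - 1).choose (k - 1) ≤ F.card →
    (F.filter fun s => x ∉ s).card < 8 * u * 2 ^ k →
    F.card ≤ (2 * k + a - 1).choose (k - 1) +
      min ((2 * k + a - 1) / k) (u - 1 + (v - (k - 1 + b).choose (k - 1))) := by
  obtain ⟨C₀, hC₀, hcore⟩ := core hu
  refine ⟨4 * C₀ + 4 * (u + 1) + 2, fun k a b v hk hb hv hab hn hv2 F hF hUI x hL hE => ?_⟩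
  have huk : 2 * k ≤ u * k := Nat.mul_le_mul_right k hu
  obtain ⟨T, hTd⟩ : ∃ T, T = (k - 1 + b).choose (k - 1) := ⟨_, rfl⟩
  obtain ⟨D, hDd⟩ : ∃ D, D = (k - 1 + b).choose (k - 2) := ⟨_, rfl⟩
  have hTD : (k + b).choose (k - 1) = T + D := by
    have h1 : (k + b).choose (k - 1) = (k - 1 + b + 1).choose (k - 2 + 1) := by
      congr 1 <;> omega
    rw [h1, Nat.choose_succ_succ, hTd, hDd, add_comm, show (k - 2).succ = k - 1 by omega]
  have hDk : D * (k + b) = (k - 1) * (T + D) := by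
    have h1 := Nat.add_one_mul_choose_eq (k - 1 + b) (k - 2)
    rw [show k - 1 + b + 1 = k + b by omega, show k - 2 + 1 = k - 1 by omega, hTD, ← hDd] at h1
    linarith
  rw [← hTd, ← hDd] at hv2
  have hv3 : 2 * v ≤ 2 * T + D := by omega
  -- the hypothesis of `core`
  have hC1 : 2 * C₀ * (T + D) ≤ k * D := by
    have h1 : 4 * C₀ * (k + b) ≤ k ^ 2 := by
      refine le_trans ?_ hn
      exact Nat.mul_le_mul (by omega) (by omega)
    have h2 : k ^ 2 ≤ 2 * (k * (k - 1)) := by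
      have h3 : k ≤ 2 * (k - 1) := by omega
      calc k ^ 2 = k * k := sq k
        _ ≤ k * (2 * (k - 1)) := Nat.mul_le_mul_left k h3
        _ = 2 * (k * (k - 1)) := by ring
    have h4 : 2 * C₀ * (k + b) ≤ k * (k - 1) := by
      have h5 : 2 * (2 * C₀ * (k + b)) ≤ 2 * (k * (k - 1)) := by
        calc 2 * (2 * C₀ * (k + b)) = 4 * C₀ * (k + b) := by ring
          _ ≤ _ := h1.trans h2
      omega
    refine Nat.le_of_mul_le_mul_right (c := k + b) ?_ (by omega)
    calc 2 * C₀ * (T + D) * (k + b) = 2 * C₀ * (k + b) * (T + D) := by ring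
      _ ≤ k * (k - 1) * (T + D) := Nat.mul_le_mul_right _ h4
      _ = k * (D * (k + b)) := by rw [hDk]; ring
      _ = k * D * (k + b) := by ring
  have hC2 : k * (v - 1) ≤ (k - C₀) * (k + b).choose (k - 1) := by
    obtain ⟨l, hl⟩ : ∃ l, k = l + C₀ := ⟨k - C₀, by omega⟩
    obtain ⟨w, hw⟩ : ∃ w, v = w + 1 := ⟨v - 1, by omega⟩
    rw [hTD, show k - C₀ = l by omega, show v - 1 = w by omega]
    have h1 : 2 * (k * w) ≤ k * (2 * T + D) := by
      calc 2 * (k * w) = k * (2 * w) := by ring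
        _ ≤ k * (2 * T + D) := Nat.mul_le_mul_left k (by omega)
    have h2 : k * (2 * T + D) + k * D = 2 * (k * (T + D)) := by ring
    have h3 : k * (T + D) = l * (T + D) + C₀ * (T + D) := by rw [hl]; ring
    have h4 : 2 * C₀ * (T + D) = 2 * (C₀ * (T + D)) := by ring
    omega
  obtain ⟨X₀, hX₀, hT₀, hcard⟩ := hcore k a v b (by omega) (by omega) hv hC2 F hF hUI x hL hE
  have hρ : X₀.card ≤ (2 * k + a - 1) / k :=
    finish_code hu (by omega) hab (fun s hs => by
      have h1 := hX₀ hs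
      rw [mem_filter] at h1
      exact ⟨hF s h1.1, h1.2⟩) hT₀
  obtain ⟨ρ, hρd⟩ : ∃ ρ, ρ = (2 * k + a - 1) / k := ⟨_, rfl⟩
  have hmiss := card_add_miss (k := k) (by omega) hF x
  rw [Fintype.card_fin] at hmiss
  rcases Nat.lt_or_ge (Miss F x k).card (2 * ρ) with hM | hM
  · refine end_a hu hv (by omega) hb hab hF hUI x ?_
    rw [hTD]
    have h1 : 4 * ρ ≤ D := by
      have h2 : ρ ≤ u + 1 + b := by
        rw [hρd]
        refine Nat.div_le_of_le_mul ?_
        have h3 : 2 * k + a = u * k + k + b := by omega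
        have h4 : b ≤ k * b := Nat.le_mul_of_pos_left b (by omega)
        calc 2 * k + a - 1 ≤ u * k + k + k * b := by omega
          _ = k * (u + 1 + b) := by ring
      have h5 := finish_choose (k - 2) (b + 1)
      have h6 : (k - 2 + (b + 1)).choose (b + 1) = D := by
        rw [hDd, ← Nat.choose_symm_add (a := k - 2) (b := b + 1)]
        congr 1
        omega
      rw [h6] at h5
      have h7 : 4 * (u + 1) * (b + 1) ≤ (k - 2) * (b + 1) := Nat.mul_le_mul_right _ (by omega)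
      nlinarith
    omega
  · have h1 : F.card ≤ (2 * k + a - 1).choose (k - 1) := by
      rw [← hρd] at hρ
      omega
    exact h1.trans (Nat.le_add_right _ _)

end Pool.Agent.Lib.MP_fffc5a_co.W
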