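import Mathlib

/-!
Numerical lemma for the half stars.
-/

set_option autoImplicit false

open Finset

namespace Pool.Agent.Lib.MP_fffc5a_co.W

private theorem hn_up (b m : ℕ) : ∀ d : ℕ,
    (b + d).choose (m + 1) ≤ b.choose (m + 1) + d * (b + d).choose m := by
  intro d
  induction d with
  | zero => simp
  | succ d ih =>
    have h1 : (b + (d + 1)).choose (m + 1) = (b + d).choose m + (b + d).choose (m + 1) :=
      Nat.choose_succ_succ (b + d) m
    have h2 : (b + d).choose m ≤ (b + (d + 1)).choose m :=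
      Nat.choose_le_choose m (by omega)
    have h3 : d * (b + d).choose m ≤ d * (b + (d + 1)).choose m := Nat.mul_le_mul_left d h2
    have h4 : (d + 1) * (b + (d + 1)).choose m
        = d * (b + (d + 1)).choose m + (b + (d + 1)).choose m := by ring
    omega

private theorem hn_low (b : ℕ) : ∀ j : ℕ, b ≤ (b + j).choose (1 + j) := by
  intro j
  induction j with
  | zero => simp
  | succ j ih =>
    have h1 : (b + (j + 1)).choose (1 + (j + 1))
        = (b + j).choose (1 + j) + (b + j).choose (1 + j + 1) :=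
      Nat.choose_succ_succ (b + j) (1 + j)
    omega

/-- `m = k - 1 ≥ 1`, `C = 100 (u+2)` (or larger), `n ≥ C k^2`, `z = n / (2m)` (floor),
`T = C(n-uk-1,m)`, `D = C(n-2-z,m)`, `R = C(n-2,m)`.
(i) `4 D ≤ 3 T`: factorwise `D / T ≤ ((n-2-z)/(n-uk-1))^m = (1-y)^m ≤ 1/(1 + m y)` with
`y = (z+1-uk)/(n-uk-1)`, `m y ≥ (n/2 - u k m)/n ≥ 1/3`. So `D + 1 ≤ T` (`T ≥ 4`) and `u ≤ D` by (ii).
(ii) `D / R ≥ (1 - z/(n-k))^m ≥ 1 - m z/(n-k) ≥ 1 - n/(2(n-k)) ≥ 49/100`: `49 R ≤ 100 D`.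
(iii) `T / R ≥ (1 - u k/(n-k))^m ≥ 1 - u k^2/(n-k) ≥ 99/100`-ish: `98 R ≤ 100 T`.
So `R + u + 1 ≤ T + D` because `47 R ≥ 100 (u+1)` (`R ≥ n - 2`). -/
theorem half_num (u : ℕ) : ∃ C : ℕ, ∀ n k : ℕ, 2 ≤ k → C * k ^ 2 ≤ n →
    ∃ z : ℕ, z + 2 ≤ n ∧ (n - 2 - z).choose (k - 1) + 1 ≤ (n - u * k - 1).choose (k - 1) ∧
      (n - 2).choose (k - 1) + u + 1 ≤
        (n - u * k - 1).choose (k - 1) + (n - 2 - z).choose (k - 1) ∧
      u ≤ (n - 2 - z).choose (k - 1) := by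
  refine ⟨100 * (u + 2), ?_⟩
  intro n k hk hn
  obtain ⟨m, rfl⟩ : ∃ m, k = m + 2 := ⟨k - 2, by omega⟩
  have hn1 : 100 * (u + 2) * (m + 2) ^ 2 = 100 * (u * (m + 2) * (m + 2)) + 200 * (m + 2) ^ 2 := by
    ring
  have hn2 : u * (m + 2) ≤ u * (m + 2) * (m + 2) := Nat.le_mul_of_pos_right _ (by omega)
  have hn3 : u ≤ u * (m + 2) := Nat.le_mul_of_pos_right _ (by omega)
  have hn4 : m + 2 ≤ (m + 2) ^ 2 := Nat.le_self_pow (by omega) _
  have hn5 : u * (m + 2) * (m + 2) = u * (m + 2) * (m + 1) + u * (m + 2) := by ring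
  obtain ⟨d, hd⟩ : ∃ d, d = u * (m + 2) := ⟨_, rfl⟩
  rw [← hd] at hn1 hn2 hn3 hn5
  refine ⟨d, by omega, ?_⟩
  rw [← hd]
  have e1 : m + 2 - 1 = m + 1 := by omega
  rw [e1]
  obtain ⟨b, hb⟩ : ∃ b, n = b + d + 2 := ⟨n - d - 2, by omega⟩
  have e2 : n - 2 - d = b := by omega
  have e3 : n - d - 1 = b + 1 := by omega
  have e4 : n - 2 = b + d := by omega
  rw [e2, e3, e4]
  have hT : (b + 1).choose (m + 1) = b.choose m + b.choose (m + 1) := Nat.choose_succ_succ b m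
  have hpos : 0 < b.choose m := Nat.choose_pos (by omega)
  -- the comparison of the upper binomial coefficient with the lower one
  have h1 := hn_up b m d
  have h2 : (b + d).choose (m + 1) * (m + 1) = (b + d).choose m * (b + d - m) :=
    Nat.choose_succ_right_eq (b + d) m
  have h3 : b + d - m = n - (m + 2) := by omega
  rw [h3] at h2
  obtain ⟨R, hR⟩ : ∃ R, R = (b + d).choose (m + 1) := ⟨_, rfl⟩
  obtain ⟨D, hD⟩ : ∃ D, D = b.choose (m + 1) := ⟨_, rfl⟩
  obtain ⟨Q, hQ⟩ : ∃ Q, Q = (b + d).choose m := ⟨_, rfl⟩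
  obtain ⟨w, hw⟩ : ∃ w, w = n - (m + 2) := ⟨_, rfl⟩
  rw [← hR, ← hD, ← hQ] at h1
  rw [← hR, ← hQ, ← hw] at h2
  rw [hT, ← hR, ← hD]
  have hw1 : 4 * (d * (m + 1)) ≤ w := by omega
  have hw0 : 0 < w := by omega
  have h4 : 3 * R ≤ 4 * D := by
    have h5 : w * R ≤ w * D + d * (w * Q) := by
      calc w * R ≤ w * (D + d * Q) := Nat.mul_le_mul_left w h1
        _ = w * D + d * (w * Q) := by ring
    have h6 : 4 * (d * (w * Q)) ≤ w * R := by
      calc 4 * (d * (w * Q)) = 4 * (d * (Q * w)) := by ring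
        _ = 4 * (d * (R * (m + 1))) := by rw [h2]
        _ = 4 * (d * (m + 1)) * R := by ring
        _ ≤ w * R := Nat.mul_le_mul_right R hw1
    have h7 : w * (3 * R) ≤ w * (4 * D) := by
      have h8 : w * (3 * R) = 3 * (w * R) := by ring
      have h9 : w * (4 * D) = 4 * (w * D) := by ring
      omega
    exact Nat.le_of_mul_le_mul_left h7 hw0
  have h5 : w ≤ R := by
    have h6 := hn_low (b + d - m) m
    have h7 : b + d - m + m = b + d := by omega
    rw [h7, add_comm 1 m, ← hR, h3, ← hw] at h6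
    exact h6
  have h6 : 2 * u ≤ w := by omega
  refine ⟨by omega, by omega, by omega⟩

end Pool.Agent.Lib.MP_fffc5a_co.W
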