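import Mathlib
import Pool.Agent.Lib.MP_fffc5a_co.V.Jen

/-!
Numerical lemma for the half stars, with a constant factor below the threshold.
-/

set_option autoImplicit false

open Finset

namespace Pool.Agent.Lib.MP_fffc5a_co.W

private theorem hb_up (b m : ℕ) : ∀ d : ℕ,
    (b + d).choose (m + 1) ≤ b.choose (m + 1) + d * (b + d).choose m := by
  intro d
  induction d with
  | zero => simp
  | succ d ih =>
    have h1 : (b + (d + 1)).choose (m + 1) = (b + d).choose m + (b + d).choose (m + 1) :=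
      Nat.choose_succ_succ (b + d) m
    have h2 : (b + d).choose m ≤ (b + (d + 1)).choose m :=
      Nat.choose_le_choose m (by omega)
    have h3 : d * (b + d).choose m ≤ d * (b + (d + 1)).choose m := Nat.mul_le_mul_left d h2
    have h4 : (d + 1) * (b + (d + 1)).choose m
        = d * (b + (d + 1)).choose m + (b + (d + 1)).choose m := by ring
    omega

private theorem hb_low (b : ℕ) : ∀ j : ℕ, b ≤ (b + j).choose (1 + j) := by
  intro j
  induction j with
  | zero => simp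
  | succ j ih =>
    have h1 : (b + (j + 1)).choose (1 + (j + 1))
        = (b + j).choose (1 + j) + (b + j).choose (1 + j + 1) :=
      Nat.choose_succ_succ (b + j) (1 + j)
    omega

/-- `C(b,m+1) / C(b+d,m+1) ≥ 1 - d (m+1) / (b+d-m)`. -/
private theorem hb_ratio {b d m : ℕ} :
    (b + d - m) * (b + d).choose (m + 1) ≤
      (b + d - m) * b.choose (m + 1) + d * (m + 1) * (b + d).choose (m + 1) := by
  have h1 := hb_up b m d
  have h2 := Nat.choose_succ_right_eq (b + d) m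
  calc (b + d - m) * (b + d).choose (m + 1)
      ≤ (b + d - m) * (b.choose (m + 1) + d * (b + d).choose m) := Nat.mul_le_mul_left _ h1
    _ = (b + d - m) * b.choose (m + 1) + d * ((b + d).choose m * (b + d - m)) := by ring
    _ = (b + d - m) * b.choose (m + 1) + d * (m + 1) * (b + d).choose (m + 1) := by
        rw [← h2]
        ring

/-- `C(s+k,m+1) / C(s,m+1) ≥ 1 + k (m+1) / s`. -/
private theorem hb_rise (s k m : ℕ) :
    (s + k * (m + 1)) * s.choose (m + 1) ≤ s * (s + k).choose (m + 1) := by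
  have h1 := V.tangent_up m s k
  have h2 := Nat.choose_succ_right_eq s m
  have h3 : s.choose (m + 1) * (m + 1) ≤ s.choose m * s := by
    rw [h2]
    exact Nat.mul_le_mul_left _ (Nat.sub_le _ _)
  calc (s + k * (m + 1)) * s.choose (m + 1)
      = s * s.choose (m + 1) + k * (s.choose (m + 1) * (m + 1)) := by ring
    _ ≤ s * s.choose (m + 1) + k * (s.choose m * s) := by gcongr
    _ = s * (s.choose (m + 1) + k * s.choose m) := by ring
    _ ≤ s * (s + k).choose (m + 1) := Nat.mul_le_mul_left _ h1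

/-- `m = k - 1`, `z = n / (2m)`: the half stars have degree at most `3 T / 4`. -/
theorem half_num_b (u : ℕ) : ∃ C : ℕ, ∀ n k : ℕ, 2 ≤ k → C * k ^ 2 ≤ n →
    ∃ z : ℕ, z + 2 ≤ n ∧
      4 * (n - 2 - z).choose (k - 1) ≤ 3 * (n - u * k - 1).choose (k - 1) ∧
      4 * ((n - 2).choose (k - 1) + u) ≤
        3 * (n - u * k - 1).choose (k - 1) + 4 * (n - 2 - z).choose (k - 1) ∧
      u ≤ (n - 2 - z).choose (k - 1) := by
  refine ⟨100 * (u + 2), ?_⟩
  intro n k hk hn
  obtain ⟨m, rfl⟩ : ∃ m, k = m + 2 := ⟨k - 2, by omega⟩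
  have e1 : m + 2 - 1 = m + 1 := by omega
  rw [e1]
  have hn1 : 100 * (u + 2) * (m + 2) ^ 2 = 100 * (u * (m + 2) * (m + 2)) + 200 * (m + 2) ^ 2 := by
    ring
  have hn2 : u * (m + 2) ≤ u * (m + 2) * (m + 2) := Nat.le_mul_of_pos_right _ (by omega)
  have hn3 : u ≤ u * (m + 2) := Nat.le_mul_of_pos_right _ (by omega)
  have hn4 : m + 2 ≤ (m + 2) ^ 2 := Nat.le_self_pow (by omega) _
  have hn5 : u * (m + 2) * (m + 2) = u * (m + 2) * (m + 1) + u * (m + 2) := by ring
  obtain ⟨d, hd⟩ : ∃ d, d = u * (m + 2) := ⟨_, rfl⟩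
  rw [← hd] at hn1 hn2 hn3 hn5
  obtain ⟨z, hz⟩ : ∃ z, z = n / (2 * (m + 1)) := ⟨_, rfl⟩
  have hz1 : z * (2 * (m + 1)) ≤ n := by
    rw [hz]
    exact Nat.div_mul_le_self _ _
  have hz2 : n < (z + 1) * (2 * (m + 1)) := by
    rw [hz]
    have := Nat.lt_div_mul_add (a := n) (show 0 < 2 * (m + 1) by omega)
    calc n < n / (2 * (m + 1)) * (2 * (m + 1)) + 2 * (m + 1) := this
      _ = (n / (2 * (m + 1)) + 1) * (2 * (m + 1)) := by ring
  have hz3 : 2 * (z * (m + 1)) ≤ n := by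
    calc 2 * (z * (m + 1)) = z * (2 * (m + 1)) := by ring
      _ ≤ n := hz1
  have hz4 : n < 2 * (z * (m + 1)) + 2 * (m + 1) := by
    calc n < (z + 1) * (2 * (m + 1)) := hz2
      _ = 2 * (z * (m + 1)) + 2 * (m + 1) := by ring
  have hz5 : z ≤ z * (m + 1) := Nat.le_mul_of_pos_right _ (by omega)
  have hzd : d ≤ z + 1 := by
    by_contra hcon
    push Not at hcon
    have h1 : (z + 1) * (2 * (m + 1)) ≤ d * (2 * (m + 1)) := Nat.mul_le_mul_right _ hcon.le
    have h2 : d * (2 * (m + 1)) = 2 * (d * (m + 1)) := by ring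
    omega
  refine ⟨z, by omega, ?_⟩
  rw [← hd]
  obtain ⟨D, hD⟩ : ∃ D, D = (n - 2 - z).choose (m + 1) := ⟨_, rfl⟩
  obtain ⟨R, hR⟩ : ∃ R, R = (n - 2).choose (m + 1) := ⟨_, rfl⟩
  obtain ⟨T, hT⟩ : ∃ T, T = (n - d - 1).choose (m + 1) := ⟨_, rfl⟩
  -- (ii)
  have h2 : 49 * R ≤ 100 * D := by
    have h := hb_ratio (b := n - 2 - z) (d := z) (m := m)
    have e : n - 2 - z + z = n - 2 := by omega
    rw [e, ← hD, ← hR] at h
    obtain ⟨w, hw⟩ : ∃ w, w = n - 2 - m := ⟨_, rfl⟩
    rw [← hw] at h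
    have h3 : 100 * (z * (m + 1)) + 49 * w ≤ 100 * w := by omega
    have h4 : (100 * (z * (m + 1)) + 49 * w) * R ≤ 100 * w * R := Nat.mul_le_mul_right R h3
    have h5 : w * (49 * R) ≤ w * (100 * D) := by nlinarith
    exact Nat.le_of_mul_le_mul_left h5 (by omega)
  -- (iii)
  have h3 : 98 * R ≤ 100 * T := by
    have h := hb_ratio (b := n - d - 1) (d := d) (m := m)
    have e : n - d - 1 + d = n - 1 := by omega
    rw [e, ← hT] at h
    obtain ⟨w, hw⟩ : ∃ w, w = n - 1 - m := ⟨_, rfl⟩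
    obtain ⟨R', hR'⟩ : ∃ R', R' = (n - 1).choose (m + 1) := ⟨_, rfl⟩
    rw [← hw, ← hR'] at h
    have hRR : R ≤ R' := by
      rw [hR, hR']
      exact Nat.choose_le_choose _ (by omega)
    have h3 : 100 * (d * (m + 1)) + 98 * w ≤ 100 * w := by omega
    have h4 : (100 * (d * (m + 1)) + 98 * w) * R' ≤ 100 * w * R' := Nat.mul_le_mul_right R' h3
    have h5 : w * (98 * R') ≤ w * (100 * T) := by nlinarith
    have h6 := Nat.le_of_mul_le_mul_left h5 (show 0 < w by omega)
    omega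
  -- (i)
  have h1 : 4 * D ≤ 3 * T := by
    have h := hb_rise (n - 2 - z) (z + 1 - d) m
    have e : n - 2 - z + (z + 1 - d) = n - d - 1 := by omega
    rw [e, ← hD, ← hT] at h
    obtain ⟨s, hs⟩ : ∃ s, s = n - 2 - z := ⟨_, rfl⟩
    rw [← hs] at h
    have h4 : (z + 1 - d) * (m + 1) + d * (m + 1) = z * (m + 1) + (m + 1) := by
      rw [← Nat.add_mul]
      have h5 : z + 1 - d + d = z + 1 := by omega
      rw [h5]
      ring
    have h5 : 4 * s ≤ 3 * (s + (z + 1 - d) * (m + 1)) := by omega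
    have h6 : 4 * s * D ≤ 3 * (s + (z + 1 - d) * (m + 1)) * D := Nat.mul_le_mul_right D h5
    have h7 : s * (4 * D) ≤ s * (3 * T) := by nlinarith
    exact Nat.le_of_mul_le_mul_left h7 (by omega)
  have h4 : n - 2 - m ≤ R := by
    have h5 := hb_low (n - 2 - m) m
    have h6 : n - 2 - m + m = n - 2 := by omega
    rw [h6, add_comm 1 m, ← hR] at h5
    exact h5
  rw [← hD, ← hR, ← hT]
  refine ⟨h1, by omega, by omega⟩

end Pool.Agent.Lib.MP_fffc5a_co.W
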