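import Mathlib
import Pool.Agent.Lib.MP_fffc5a_co.T.Low

/-!
Lower bound: two half stars.
-/

set_option autoImplicit false

open Finset

namespace Pool.Agent.Lib.MP_fffc5a_co.W

/-- Points `x ≠ y`, `Z` a set of `z` other points. `F` consists of all `k`-sets containing `x` and `y`,
the sets `{x} ∪ S` (`y ∉ S`) with `S ∩ Z ≠ ∅`, the sets `{y} ∪ S` (`x ∉ S`) with `S ∩ Z = ∅`, and
`u` further sets `{x} ∪ S` (`y ∉ S`) with `S ∩ Z = ∅`; `|S| = k - 1`. Size:
`C(n-2,k-2) + (C(n-2,k-1) - C(n-2-z,k-1)) + C(n-2-z,k-1) + u = C(n-1,k-1) + u`. A member containing `x`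
and not `y` is disjoint only from members containing `y` and not `x`: at most
`C(n-2-z,k-1) ≤ v - 1`; a member containing `y` and not `x` only from those containing `x` and not `y`:
at most `C(n-2,k-1) - C(n-2-z,k-1) + u ≤ v - 1`. `T.ui_of_degree`. -/
theorem half_star {n k u v z : ℕ} (hk : 2 ≤ k) (hn : z + 2 ≤ n) (hkn : k ≤ n) (hv : 1 ≤ v)
    (h1 : (n - 2 - z).choose (k - 1) ≤ v - 1)
    (h2 : (n - 2).choose (k - 1) + u ≤ v - 1 + (n - 2 - z).choose (k - 1))
    (h3 : u ≤ (n - 2 - z).choose (k - 1)) :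
    ∃ F : Finset (Finset (Fin n)), (∀ s ∈ F, s.card = k) ∧ UI 1 v F ∧
      (n - 1).choose (k - 1) + u ≤ F.card := by
  obtain ⟨x, y, hxy⟩ : ∃ x y : Fin n, x ≠ y :=
    ⟨⟨0, by omega⟩, ⟨1, by omega⟩, fun h => by simpa using congrArg Fin.val h⟩
  obtain ⟨R, hR⟩ : ∃ R : Finset (Fin n), R = (univ.erase x).erase y := ⟨_, rfl⟩
  have hRc : R.card = n - 2 := by
    rw [hR, card_erase_of_mem (mem_erase.2 ⟨hxy.symm, mem_univ y⟩),
      card_erase_of_mem (mem_univ x), card_univ, Fintype.card_fin]
    omega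
  have hxR : x ∉ R := by
    rw [hR]
    exact fun h => notMem_erase x univ (mem_of_mem_erase h)
  have hyR : y ∉ R := by
    rw [hR]
    exact notMem_erase y _
  obtain ⟨Z, hZR, hZc⟩ := exists_subset_card_eq (s := R) (n := z) (by rw [hRc]; omega)
  have hR'c : (R \ Z).card = n - 2 - z := by
    rw [card_sdiff_of_subset hZR, hRc, hZc]
  obtain ⟨T, hT⟩ : ∃ T : Finset (Finset (Fin n)), T = R.powersetCard (k - 1) := ⟨_, rfl⟩
  obtain ⟨T', hT'⟩ : ∃ T' : Finset (Finset (Fin n)), T' = (R \ Z).powersetCard (k - 1) :=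
    ⟨_, rfl⟩
  have hTc : T.card = (n - 2).choose (k - 1) := by rw [hT, card_powersetCard, hRc]
  have hT'c : T'.card = (n - 2 - z).choose (k - 1) := by rw [hT', card_powersetCard, hR'c]
  have hTT : T' ⊆ T := by
    rw [hT, hT']
    exact powersetCard_mono sdiff_subset
  obtain ⟨U, hUT, hUc⟩ := exists_subset_card_eq (s := T') (n := u) (by rw [hT'c]; exact h3)
  have hTR : ∀ s ∈ T, s ⊆ R ∧ s.card = k - 1 := by
    intro s hs
    rw [hT, mem_powersetCard] at hs
    exact hs
  -- the three parts
  obtain ⟨P, hP⟩ : ∃ P : Finset (Finset (Fin n)),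
      P = (R.powersetCard (k - 2)).image fun s => insert x (insert y s) := ⟨_, rfl⟩
  obtain ⟨Q, hQ⟩ : ∃ Q : Finset (Finset (Fin n)), Q = ((T \ T') ∪ U).image (insert x) := ⟨_, rfl⟩
  obtain ⟨V, hV⟩ : ∃ V : Finset (Finset (Fin n)), V = T'.image (insert y) := ⟨_, rfl⟩
  have hinj : ∀ (w : Fin n) (X : Finset (Finset (Fin n))), (∀ s ∈ X, w ∉ s) →
      Set.InjOn (insert w) (X : Set (Finset (Fin n))) := by
    intro w X hX s hs t ht hst
    have h1 := congrArg (fun z => erase z w) hst
    rwa [erase_insert (hX s (mem_coe.1 hs)), erase_insert (hX t (mem_coe.1 ht))] at h1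
  have hQT : ∀ s ∈ (T \ T') ∪ U, s ∈ T := by
    intro s hs
    rcases mem_union.1 hs with h | h
    · exact (mem_sdiff.1 h).1
    · exact hTT (hUT h)
  have hPx : ∀ s ∈ P, x ∈ s ∧ y ∈ s ∧ s.card = k := by
    intro s hs
    rw [hP, mem_image] at hs
    obtain ⟨t, ht, rfl⟩ := hs
    rw [mem_powersetCard] at ht
    have hyt : y ∉ t := fun h => hyR (ht.1 h)
    have hxt : x ∉ insert y t := by
      rw [mem_insert]
      rintro (h | h)
      · exact hxy h
      · exact hxR (ht.1 h)
    refine ⟨mem_insert_self x _, mem_insert_of_mem (mem_insert_self y t), ?_⟩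
    rw [card_insert_of_notMem hxt, card_insert_of_notMem hyt, ht.2]
    omega
  have hQx : ∀ s ∈ Q, x ∈ s ∧ y ∉ s ∧ s.card = k := by
    intro s hs
    rw [hQ, mem_image] at hs
    obtain ⟨t, ht, rfl⟩ := hs
    obtain ⟨htR, htc⟩ := hTR t (hQT t ht)
    refine ⟨mem_insert_self x t, ?_, ?_⟩
    · rw [mem_insert]
      rintro (h | h)
      · exact hxy h.symm
      · exact hyR (htR h)
    · rw [card_insert_of_notMem (fun h => hxR (htR h)), htc]
      omega
  have hVy : ∀ s ∈ V, x ∉ s ∧ y ∈ s ∧ s.card = k := by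
    intro s hs
    rw [hV, mem_image] at hs
    obtain ⟨t, ht, rfl⟩ := hs
    obtain ⟨htR, htc⟩ := hTR t (hTT ht)
    refine ⟨?_, mem_insert_self y t, ?_⟩
    · rw [mem_insert]
      rintro (h | h)
      · exact hxy h
      · exact hxR (htR h)
    · rw [card_insert_of_notMem (fun h => hyR (htR h)), htc]
      omega
  have hPc : P.card = (n - 2).choose (k - 2) := by
    rw [hP, card_image_of_injOn, card_powersetCard, hRc]
    intro s hs t ht hst
    have hs' := (mem_powersetCard.1 (mem_coe.1 hs)).1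
    have ht' := (mem_powersetCard.1 (mem_coe.1 ht)).1
    have hxs : ∀ r : Finset (Fin n), r ⊆ R → x ∉ insert y r := by
      intro r hr h
      rcases mem_insert.1 h with h | h
      · exact hxy h
      · exact hxR (hr h)
    have h1 := congrArg (fun z => erase (erase z x) y) hst
    simp only at h1
    rwa [erase_insert (hxs s hs'), erase_insert (hxs t ht'), erase_insert (fun h => hyR (hs' h)),
      erase_insert (fun h => hyR (ht' h))] at h1
  have hQc : Q.card = (n - 2).choose (k - 1) - (n - 2 - z).choose (k - 1) + u := by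
    rw [hQ, card_image_of_injOn, card_union_of_disjoint, card_sdiff_of_subset hTT, hTc, hT'c, hUc]
    · exact disjoint_sdiff_self_left.mono_right hUT
    · exact hinj x _ fun s hs h => hxR ((hTR s (hQT s hs)).1 h)
  have hVc : V.card = (n - 2 - z).choose (k - 1) := by
    rw [hV, card_image_of_injOn, hT'c]
    exact hinj y _ fun s hs h => hyR ((hTR s (hTT hs)).1 h)
  have hle : (n - 2 - z).choose (k - 1) ≤ (n - 2).choose (k - 1) := by
    rw [← hTc, ← hT'c]
    exact card_le_card hTT
  have hdisj : ∀ (w : Fin n) (s t : Finset (Fin n)), w ∈ s → w ∈ t → ¬ Disjoint s t :=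
    fun w s t hs ht h => disjoint_left.1 h hs ht
  refine ⟨P ∪ (Q ∪ V), ?_, Pool.Agent.Lib.MP_fffc5a_co.T.ui_of_degree hv ?_, ?_⟩
  · intro s hs
    rcases mem_union.1 hs with h | h
    · exact (hPx s h).2.2
    · rcases mem_union.1 h with h | h
      · exact (hQx s h).2.2
      · exact (hVy s h).2.2
  · intro G hG
    rcases mem_union.1 hG with h | h
    · -- `G` contains `x` and `y`
      have hx := (hPx G h).1
      have hy := (hPx G h).2.1
      rw [card_eq_zero.2 (filter_eq_empty_iff.2 ?_)]
      · exact Nat.zero_le _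
      · intro s hs hd
        rcases mem_union.1 hs with h' | h'
        · exact hdisj x G s hx (hPx s h').1 hd
        · rcases mem_union.1 h' with h' | h'
          · exact hdisj x G s hx (hQx s h').1 hd
          · exact hdisj y G s hy (hVy s h').2.1 hd
    · rcases mem_union.1 h with h | h
      · -- `G` contains `x`
        have hx := (hQx G h).1
        refine le_trans (le_trans (card_le_card ?_) (le_of_eq hVc)) h1
        intro s hs
        obtain ⟨hs, hd⟩ := mem_filter.1 hs
        rcases mem_union.1 hs with h' | h'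
        · exact absurd hd (hdisj x G s hx (hPx s h').1)
        · rcases mem_union.1 h' with h' | h'
          · exact absurd hd (hdisj x G s hx (hQx s h').1)
          · exact h'
      · -- `G` contains `y`
        have hy := (hVy G h).2.1
        have hsub : ((P ∪ (Q ∪ V)).filter fun B => Disjoint G B) ⊆ Q := by
          intro s hs
          obtain ⟨hs, hd⟩ := mem_filter.1 hs
          rcases mem_union.1 hs with h' | h'
          · exact absurd hd (hdisj y G s hy (hPx s h').2.1)
          · rcases mem_union.1 h' with h' | h'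
            · exact h'
            · exact absurd hd (hdisj y G s hy (hVy s h').2.1)
        have h4 := card_le_card hsub
        omega
  · have hPQV : Disjoint P (Q ∪ V) := by
      rw [disjoint_left]
      intro s hs hs'
      rcases mem_union.1 hs' with h | h
      · exact (hQx s h).2.1 (hPx s hs).2.1
      · exact (hVy s h).1 (hPx s hs).1
    have hQV : Disjoint Q V := by
      rw [disjoint_left]
      intro s hs hs'
      exact (hVy s hs').1 (hQx s hs).1
    rw [card_union_of_disjoint hPQV, card_union_of_disjoint hQV, hPc, hQc, hVc]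
    obtain ⟨m, rfl⟩ : ∃ m, n = m + 2 := ⟨n - 2, by omega⟩
    obtain ⟨j, rfl⟩ : ∃ j, k = j + 2 := ⟨k - 2, by omega⟩
    have h5 : (m + 2 - 1).choose (j + 2 - 1) = m.choose j + m.choose (j + 1) := by
      rw [show m + 2 - 1 = m + 1 by omega, show j + 2 - 1 = j + 1 by omega, Nat.choose_succ_succ]
    have h6 : j + 2 - 1 = j + 1 := by omega
    have h7 : m + 2 - 2 = m := by omega
    have h8 : j + 2 - 2 = j := by omega
    rw [h5]
    rw [h6, h7] at hle ⊢
    rw [h8]
    omega

/-- `A` has a member `G`, `⋃ {G} ⊆ ⋃ A`. -/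
theorem ui_mono {α : Type*} [DecidableEq α] {u v : ℕ} (hu : 1 ≤ u) {F : Finset (Finset α)}
    (h : UI 1 v F) : UI u v F := by
  intro A hA B hB hAu hBv hdis
  obtain ⟨G, hG⟩ : A.Nonempty := card_pos.1 (by omega)
  refine h {G} (singleton_subset_iff.2 (hA hG)) B hB (card_singleton G) hBv ?_
  rw [singleton_biUnion]
  exact hdis.mono_left (subset_biUnion_of_mem id hG)

end Pool.Agent.Lib.MP_fffc5a_co.W
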