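import Mathlib
import Pool.Agent.Lib.MP_fffc5a_co.V.Low

/-!
Lower bounds: a star and a family of further sets.
-/

set_option autoImplicit false

open Finset

namespace Pool.Agent.Lib.MP_fffc5a_co.W

/-- `F = S ∪ E`, `S` = all `k`-sets containing `x` (as in `V.low_many`). `A`, `B` with `u`, `v`
members and disjoint unions. If `x ∈ ⋃ A` then `x ∉ ⋃ B`, `B ⊆ E`, but `|E| < v`. If `x ∉ ⋃ A` then
`A ⊆ E`; the members of `B` which contain `x` are disjoint from `⋃ A` (at most
`C(n-1-|⋃ A|,k-1)`), the others are members of `E \ A` (a member of `A` is nonempty and not disjoint from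
`⋃ A`), at most `|E| - u`: contradiction to `hT`. -/
theorem low_gen {α : Type*} [Fintype α] [DecidableEq α] {u v k : ℕ} (hk : 1 ≤ k) (hv : 1 ≤ v)
    {x : α} {E : Finset (Finset α)} (hE : ∀ s ∈ E, s.card = k ∧ x ∉ s) (hEv : E.card < v)
    (hT : ∀ T ⊆ E, T.card = u →
      (Fintype.card α - 1 - (T.biUnion id).card).choose (k - 1) + (E.card - u) ≤ v - 1) :
    ∃ F : Finset (Finset α), (∀ s ∈ F, s.card = k) ∧ UI u v F ∧
      F.card = (Fintype.card α - 1).choose (k - 1) + E.card := by
  have hcard : (univ.erase x : Finset α).card = Fintype.card α - 1 := by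
    rw [card_erase_of_mem (mem_univ x), card_univ]
  obtain ⟨S, hS⟩ : ∃ S : Finset (Finset α),
      S = ((univ.erase x).powersetCard (k - 1)).image (insert x) := ⟨_, rfl⟩
  have hinj : ∀ U : Finset (Finset α), (∀ s ∈ U, x ∉ s) →
      Set.InjOn (insert x) (U : Set (Finset α)) := by
    intro U hU s hs t ht hst
    have h1 := congrArg (fun z => erase z x) hst
    rwa [erase_insert (hU s (mem_coe.1 hs)), erase_insert (hU t (mem_coe.1 ht))] at h1
  have hSx : ∀ s ∈ S, x ∈ s ∧ s.card = k := by
    intro s hs
    rw [hS, mem_image] at hs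
    obtain ⟨t, ht, rfl⟩ := hs
    rw [mem_powersetCard] at ht
    have hxt : x ∉ t := fun h => notMem_erase x univ (ht.1 h)
    refine ⟨mem_insert_self x t, ?_⟩
    rw [card_insert_of_notMem hxt, ht.2]
    omega
  have hSc : S.card = (Fintype.card α - 1).choose (k - 1) := by
    rw [hS, card_image_of_injOn, card_powersetCard, hcard]
    exact hinj _ fun s hs h => notMem_erase x univ ((mem_powersetCard.1 hs).1 h)
  refine ⟨S ∪ E, ?_, ?_, ?_⟩
  · intro s hs
    rcases mem_union.1 hs with h | h
    · exact (hSx s h).2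
    · exact (hE s h).1
  · intro A hA B hB hAu hBv hdis
    by_cases hxA : x ∈ A.biUnion id
    · have hxB : x ∉ B.biUnion id := disjoint_left.1 hdis hxA
      have hBE : B ⊆ E := by
        intro s hs
        rcases mem_union.1 (hB hs) with h | h
        · exact absurd (mem_biUnion.2 ⟨s, hs, (hSx s h).1⟩) hxB
        · exact h
      have h1 := card_le_card hBE
      omega
    · have hAE : A ⊆ E := by
        intro s hs
        rcases mem_union.1 (hA hs) with h | h
        · exact absurd (mem_biUnion.2 ⟨s, hs, (hSx s h).1⟩) hxA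
        · exact h
      have hsub : B ⊆ ((univ \ insert x (A.biUnion id)).powersetCard (k - 1)).image (insert x) ∪
          (E \ A) := by
        intro D hD
        have hDd : Disjoint (A.biUnion id) D :=
          hdis.mono_right (subset_biUnion_of_mem id hD)
        rcases mem_union.1 (hB hD) with hDS | hDE
        · rw [hS, mem_image] at hDS
          obtain ⟨t, ht, rfl⟩ := hDS
          rw [mem_powersetCard] at ht
          refine mem_union_left _ (mem_image.2 ⟨t, mem_powersetCard.2 ⟨?_, ht.2⟩, rfl⟩)
          intro y hy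
          rw [mem_sdiff, mem_insert]
          refine ⟨mem_univ y, ?_⟩
          rintro (rfl | hyG)
          · exact notMem_erase y univ (ht.1 hy)
          · exact disjoint_left.1 hDd hyG (mem_insert_of_mem hy)
        · refine mem_union_right _ (mem_sdiff.2 ⟨hDE, fun hDA => ?_⟩)
          have hne : D.Nonempty := card_pos.1 (by rw [(hE D hDE).1]; omega)
          obtain ⟨y, hy⟩ := hne
          exact disjoint_left.1 hDd (mem_biUnion.2 ⟨D, hDA, hy⟩) hy
      have h1 : B.card ≤ (Fintype.card α - 1 - (A.biUnion id).card).choose (k - 1) +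
          (E.card - u) := by
        refine le_trans (card_le_card hsub) (le_trans (card_union_le _ _) (Nat.add_le_add ?_ ?_))
        · refine le_trans card_image_le ?_
          rw [card_powersetCard, card_sdiff_of_subset (subset_univ _), card_insert_of_notMem hxA,
            card_univ]
          exact le_of_eq (by rw [show Fintype.card α - ((A.biUnion id).card + 1) =
            Fintype.card α - 1 - (A.biUnion id).card by omega])
        · rw [card_sdiff_of_subset hAE, hAu]
      have h2 := hT A hAE hAu
      omega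
  · rw [card_union_of_disjoint, hSc]
    rw [disjoint_left]
    intro s hs hs'
    exact (hE s hs').2 (hSx s hs).1

/-- `low_gen` with `r` pairwise disjoint `k`-sets in `univ.erase x` (`V.exists_disj`): for `T ⊆ E`
with `u` members `|⋃ T| = u k` (`(E.biUnion id).card = r k` and `|⋃ (E \ T)| ≤ (r-u) k`). -/
theorem low_disj {n k u v r : ℕ} (hk : 1 ≤ k) (hn1 : 1 ≤ n) (hur : u ≤ r) (hn : r * k ≤ n - 1)
    (hrv : r < v) (hv : (n - 1 - u * k).choose (k - 1) + (r - u) ≤ v - 1) :
    ∃ F : Finset (Finset (Fin n)), (∀ s ∈ F, s.card = k) ∧ UI u v F ∧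
      F.card = (n - 1).choose (k - 1) + r := by
  obtain ⟨x⟩ : Nonempty (Fin n) := ⟨⟨0, by omega⟩⟩
  have hcard : (univ.erase x : Finset (Fin n)).card = n - 1 := by
    rw [card_erase_of_mem (mem_univ x), card_univ, Fintype.card_fin]
  obtain ⟨D, hD, hDs, hDu⟩ := V.exists_disj hk r (univ.erase x : Finset (Fin n))
    (by rw [hcard]; exact hn)
  have hle : ∀ T ⊆ D, (T.biUnion id).card ≤ T.card * k := by
    intro T hT
    exact card_biUnion_le_card_mul T id k fun s hs => le_of_eq (hDs s (hT hs)).2
  obtain ⟨F, hF1, hF2, hF3⟩ := low_gen (α := Fin n) (u := u) (v := v) (k := k) hk (by omega)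
    (x := x) (E := D)
    (fun s hs => ⟨(hDs s hs).2, fun h => notMem_erase x univ ((hDs s hs).1 h)⟩)
    (by rw [hD]; exact hrv) (by
      intro T hT hTu
      rw [Fintype.card_fin, hD]
      have h1 := hle (D \ T) sdiff_subset
      have h2 : (D \ T).card = r - u := by rw [card_sdiff_of_subset hT, hD, hTu]
      have h3 : r * k ≤ (T.biUnion id).card + ((D \ T).biUnion id).card := by
        rw [← hDu]
        refine le_trans (card_le_card ?_) (card_union_le _ _)
        rw [← union_biUnion, union_sdiff_of_subset hT]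
      rw [h2] at h1
      have h4 : u * k + (r - u) * k = r * k := by
        rw [← Nat.add_mul]
        congr 1
        omega
      have h5 : n - 1 - (T.biUnion id).card ≤ n - 1 - u * k := by omega
      have h6 := Nat.choose_le_choose (k - 1) h5
      omega)
  refine ⟨F, hF1, hF2, ?_⟩
  rw [hF3, Fintype.card_fin, hD]

/-- `low_gen`: for `T ⊆ E` with `u` members (then `u ≤ |E|`) `n - 1 - |⋃ T| ≤ k - 1 + i`. -/
theorem low_level {α : Type*} [Fintype α] [DecidableEq α] {u v k i : ℕ} (hk : 1 ≤ k) (hu : 1 ≤ u)
    {x : α} {E : Finset (Finset α)} (hE : ∀ s ∈ E, s.card = k ∧ x ∉ s)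
    (hW : ∀ T ⊆ E, T.card = u → Fintype.card α - k ≤ (T.biUnion id).card + i)
    (hv : (k - 1 + i).choose (k - 1) + E.card ≤ v) :
    ∃ F : Finset (Finset α), (∀ s ∈ F, s.card = k) ∧ UI u v F ∧
      F.card = (Fintype.card α - 1).choose (k - 1) + E.card := by
  have hpos : 0 < (k - 1 + i).choose (k - 1) := Nat.choose_pos (by omega)
  refine low_gen hk (by omega) hE (by omega) ?_
  intro T hT hTu
  have h1 := hW T hT hTu
  have h2 : Fintype.card α - 1 - (T.biUnion id).card ≤ k - 1 + i := by omega
  have h3 := Nat.choose_le_choose (k - 1) h2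
  have h4 := card_le_card hT
  omega

end Pool.Agent.Lib.MP_fffc5a_co.W
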