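import Mathlib
import Pool.Agent.Lib.MP_fffc5a_co.W.NumC

/-!
Numerical lemma for `n ≤ K k`.
-/

set_option autoImplicit false

open Finset

namespace Pool.Agent.Lib.MP_fffc5a_co.W

private theorem numD_large (C K : ℕ) : ∃ m₀ : ℕ, ∀ m : ℕ, m₀ ≤ m →
    C * (m + 1) * (K ^ 2) ^ m < (K ^ 2 + 1) ^ m := by
  have hr0 : (0 : ℝ) ≤ (K : ℝ) ^ 2 / ((K : ℝ) ^ 2 + 1) := by positivity
  have hr1 : (K : ℝ) ^ 2 / ((K : ℝ) ^ 2 + 1) < 1 := by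
    rw [div_lt_one (by positivity)]
    linarith
  have t1 := tendsto_self_mul_const_pow_of_lt_one hr0 hr1
  have t2 := tendsto_pow_atTop_nhds_zero_of_lt_one hr0 hr1
  have t3 := (t1.add t2).const_mul (C : ℝ)
  rw [add_zero, mul_zero] at t3
  obtain ⟨m₀, hm₀⟩ := Filter.eventually_atTop.1 (t3.eventually_lt_const (zero_lt_one' ℝ))
  refine ⟨m₀, fun m hm => ?_⟩
  have h1 := hm₀ m hm
  have h2 : (0 : ℝ) < ((K : ℝ) ^ 2 + 1) ^ m := by positivity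
  rw [div_pow] at h1
  have h3 : (C : ℝ) * ((m : ℝ) * (((K : ℝ) ^ 2) ^ m / ((K : ℝ) ^ 2 + 1) ^ m) +
      ((K : ℝ) ^ 2) ^ m / ((K : ℝ) ^ 2 + 1) ^ m) =
      (C * (m + 1) * ((K : ℝ) ^ 2) ^ m) / ((K : ℝ) ^ 2 + 1) ^ m := by
    field_simp
  rw [h3, div_lt_one h2] at h1
  exact_mod_cast h1

private theorem numD_choose {k : ℕ} (hk : 1 ≤ k) (b : ℕ) :
    (k + b).choose (k - 1) ≤ k * (k - 1 + b).choose (k - 1) := by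
  have h1 := Nat.choose_mul_succ_eq (k - 1 + b) (k - 1)
  rw [show k - 1 + b + 1 = k + b by omega, show k + b - (k - 1) = b + 1 by omega] at h1
  refine Nat.le_of_mul_le_mul_right (c := b + 1) ?_ (Nat.succ_pos b)
  rw [← h1]
  calc (k - 1 + b).choose (k - 1) * (k + b) ≤ (k - 1 + b).choose (k - 1) * (k * (b + 1)) := by
        refine Nat.mul_le_mul_left _ ?_
        nlinarith
    _ = _ := by ring

/-- `n = 2k+a ≤ K k`, `T = C(k-1+b,k-1)`. `C(k+b,k-1) (b+1) = T (k+b)`, so `v - 1 ≤ C(k+b,k-1) ≤ k T`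
(`k + b ≤ k (b+1)`). `choose_bern2`: `T L^(u-1) (n^2+k^2)^(k-1) ≤ W^u (n^2)^(k-1)` and
`K^2 k^2 ≥ n^2`, so `T L^(u-1) (K^2+1)^(k-1) ≤ W^u (K^2)^(k-1)`. For large `k`:
`(8·10⁶)^u k (K^2)^(k-1) < (K^2+1)^(k-1)`. -/
theorem num_d (u K : ℕ) (hu : 2 ≤ u) (hK : 1 ≤ K) : ∃ k₀ : ℕ, ∀ k a b v : ℕ, k₀ ≤ k →
    a + k = u * k + b → 2 * k + a ≤ K * k → v - 1 ≤ (k + b).choose (k - 1) →
    (8 * 10 ^ 6) ^ u * (v - 1) * ((2 * k + a - 1).choose (k - 1)) ^ (u - 1) <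
      ((k + a - 1).choose (k - 1)) ^ u := by
  obtain ⟨m₀, hm₀⟩ := numD_large ((8 * 10 ^ 6) ^ u) K
  refine ⟨m₀ + 2, fun k a b v hk hab hn hv => ?_⟩
  obtain ⟨T, hT⟩ : ∃ T, T = (k - 1 + b).choose (k - 1) := ⟨_, rfl⟩
  obtain ⟨L, hL⟩ : ∃ L, L = (2 * k + a - 1).choose (k - 1) := ⟨_, rfl⟩
  obtain ⟨W, hW⟩ : ∃ W, W = (k + a - 1).choose (k - 1) := ⟨_, rfl⟩
  obtain ⟨n, hn'⟩ : ∃ n, n = 2 * k + a := ⟨_, rfl⟩
  obtain ⟨C, hC⟩ : ∃ C, C = (8 * 10 ^ 6) ^ u := ⟨_, rfl⟩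
  have h1 := choose_bern2 hu (by omega : 1 ≤ k) hab
  have hvT := numD_choose (by omega : 1 ≤ k) b
  have h2 := hm₀ (k - 1) (by omega)
  rw [← hC, Nat.sub_add_cancel (by omega : 1 ≤ k)] at h2
  rw [← hT, ← hL, ← hW, ← hn'] at h1
  rw [← hT] at hvT
  rw [← hn'] at hn
  rw [← hL, ← hW, ← hC]
  have hW0 : 0 < W ^ u := by
    rw [hW]
    exact pow_pos (Nat.choose_pos (by omega)) u
  have hn0 : 0 < (n ^ 2) ^ (k - 1) := pow_pos (pow_pos (by omega) 2) _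
  have hK0 : 0 < (K ^ 2 + 1) ^ (k - 1) := pow_pos (Nat.succ_pos _) _
  have h3 : n ^ 2 * (K ^ 2 + 1) ≤ (n ^ 2 + k ^ 2) * K ^ 2 := by
    have h4 : n ^ 2 ≤ (K * k) ^ 2 := Nat.pow_le_pow_left hn 2
    have h5 : (K * k) ^ 2 = k ^ 2 * K ^ 2 := by ring
    rw [h5] at h4
    calc n ^ 2 * (K ^ 2 + 1) = n ^ 2 * K ^ 2 + n ^ 2 := by ring
      _ ≤ n ^ 2 * K ^ 2 + k ^ 2 * K ^ 2 := Nat.add_le_add_left h4 _
      _ = _ := by ring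
  have h6 : T * L ^ (u - 1) * (K ^ 2 + 1) ^ (k - 1) ≤ W ^ u * (K ^ 2) ^ (k - 1) := by
    refine Nat.le_of_mul_le_mul_left (c := (n ^ 2) ^ (k - 1)) ?_ hn0
    calc (n ^ 2) ^ (k - 1) * (T * L ^ (u - 1) * (K ^ 2 + 1) ^ (k - 1))
        = T * L ^ (u - 1) * (n ^ 2 * (K ^ 2 + 1)) ^ (k - 1) := by
          rw [mul_pow]
          ring
      _ ≤ T * L ^ (u - 1) * ((n ^ 2 + k ^ 2) * K ^ 2) ^ (k - 1) :=
          Nat.mul_le_mul_left _ (Nat.pow_le_pow_left h3 _)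
      _ = (T * L ^ (u - 1) * (n ^ 2 + k ^ 2) ^ (k - 1)) * (K ^ 2) ^ (k - 1) := by
          rw [mul_pow]
          ring
      _ ≤ (W ^ u * (n ^ 2) ^ (k - 1)) * (K ^ 2) ^ (k - 1) := Nat.mul_le_mul_right _ h1
      _ = _ := by ring
  refine lt_of_mul_lt_mul_right (a := (K ^ 2 + 1) ^ (k - 1)) ?_ (Nat.zero_le _)
  calc C * (v - 1) * L ^ (u - 1) * (K ^ 2 + 1) ^ (k - 1)
      ≤ C * (k * T) * L ^ (u - 1) * (K ^ 2 + 1) ^ (k - 1) :=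
        Nat.mul_le_mul_right _ (Nat.mul_le_mul_right _ (Nat.mul_le_mul_left _ (hv.trans hvT)))
    _ = C * k * (T * L ^ (u - 1) * (K ^ 2 + 1) ^ (k - 1)) := by ring
    _ ≤ C * k * (W ^ u * (K ^ 2) ^ (k - 1)) := Nat.mul_le_mul_left _ h6
    _ = W ^ u * (C * k * (K ^ 2) ^ (k - 1)) := by ring
    _ < W ^ u * (K ^ 2 + 1) ^ (k - 1) := Nat.mul_lt_mul_of_pos_left h2 hW0

end Pool.Agent.Lib.MP_fffc5a_co.W
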