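import Mathlib

/-!
Numerical lemma for `n ≥ c k^(3/2)`.
-/

set_option autoImplicit false

open Finset

namespace Pool.Agent.Lib.MP_fffc5a_co.W

theorem numF_step (N q k t : ℕ) (h : t * k ≤ N + 1) (hq : q + 1 ≤ k) (ht : 1 ≤ t) :
    N.choose q * (t - 1) ≤ N.choose (q + 1) := by
  obtain ⟨s, rfl⟩ : ∃ s, t = s + 1 := ⟨t - 1, by omega⟩
  have h1 : s * (q + 1) ≤ N - q := by
    have h2 : (s + 1) * (q + 1) ≤ (s + 1) * k := Nat.mul_le_mul_left _ hq
    have h3 : (s + 1) * (q + 1) = s * (q + 1) + (q + 1) := by ring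
    omega
  have h4 := Nat.choose_succ_right_eq N q
  refine Nat.le_of_mul_le_mul_right ?_ (Nat.succ_pos q)
  calc N.choose q * (s + 1 - 1) * (q + 1) = N.choose q * (s * (q + 1)) := by
        rw [Nat.add_sub_cancel, mul_assoc]
    _ ≤ N.choose q * (N - q) := Nat.mul_le_mul_left _ h1
    _ = N.choose (q + 1) * (q + 1) := h4.symm

theorem numF_one (N k t : ℕ) (h : t * k ≤ N + 1) (ht : 1 ≤ t) (m i : ℕ) (hi : m + i ≤ k) :
    N.choose m * (t - 1) ^ i ≤ N.choose (m + i) := by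
  induction i with
  | zero => simp
  | succ i ih =>
    calc N.choose m * (t - 1) ^ (i + 1) = N.choose m * (t - 1) ^ i * (t - 1) := by ring
      _ ≤ N.choose (m + i) * (t - 1) := Nat.mul_le_mul_right _ (ih (by omega))
      _ ≤ N.choose (m + i + 1) := numF_step N (m + i) k t h (by omega) ht

theorem numF_two (N k v u : ℕ) (h : (v + u + 1) * k ≤ N + 1) (q : ℕ) (hq : q ≤ k) :
    N.choose q * v ^ q ≤ (N - u * k).choose q * (v + u) ^ q := by
  induction q with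
  | zero => simp
  | succ q ih =>
    have hy : (v + u) * k ≤ N - q := by
      have h3 : (v + u + 1) * k = (v + u) * k + k := by ring
      omega
    obtain ⟨z, hz⟩ : ∃ z, N - q = z + u * k := by
      have h3 : (v + u) * k = v * k + u * k := by ring
      exact ⟨N - q - u * k, by omega⟩
    have hz' : N - u * k - q = z := by omega
    have hvz : v * k ≤ z := by
      have h3 : (v + u) * k = v * k + u * k := by ring
      omega
    have h4 := Nat.choose_succ_right_eq N q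
    have h5 := Nat.choose_succ_right_eq (N - u * k) q
    rw [hz] at h4
    rw [hz'] at h5
    have h6 : (z + u * k) * v ≤ z * (v + u) := by nlinarith [Nat.mul_le_mul_left u hvz]
    refine Nat.le_of_mul_le_mul_right ?_ (Nat.succ_pos q)
    calc N.choose (q + 1) * v ^ (q + 1) * (q + 1)
        = N.choose (q + 1) * (q + 1) * v ^ (q + 1) := by ring
      _ = N.choose q * v ^ q * ((z + u * k) * v) := by rw [h4]; ring
      _ ≤ (N - u * k).choose q * (v + u) ^ q * (z * (v + u)) :=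
        Nat.mul_le_mul (ih (by omega)) h6
      _ = (N - u * k).choose q * z * (v + u) ^ (q + 1) := by ring
      _ = (N - u * k).choose (q + 1) * (v + u) ^ (q + 1) * (q + 1) := by rw [← h5]; ring

theorem numF_three (u : ℕ) (hu : 2 ≤ u) : ∃ T : ℕ, 302 * u + 2 ≤ T ∧ ∀ v : ℕ, T ≤ v + u + 1 →
    ∀ m i : ℕ, m ≤ 16 * 32 ^ u * (v + u + 1) ^ 2 → v + u + 1 ≤ 100 * u * i →
      28 * (u - 1) * (v + u) ^ m < v ^ m * (v + u) ^ i := by
  obtain ⟨A, hA⟩ : ∃ A : ℕ, A = 16 * 32 ^ u := ⟨_, rfl⟩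
  obtain ⟨c, hc⟩ : ∃ c : ℝ, c = 100 * u * (2 * u * A + 28 * u) := ⟨_, rfl⟩
  refine ⟨302 * u + 2 + (⌈Real.exp c⌉₊ + 1), by omega, fun v hv m i hm hi => ?_⟩
  rw [← hA] at hm
  have hu0 : (0 : ℝ) < u := by
    have : (2 : ℝ) ≤ u := by exact_mod_cast hu
    linarith
  have hc0 : 0 ≤ c := by
    rw [hc]
    positivity
  have hv0 : 0 < v := by omega
  have hvr : (0 : ℝ) < v := by exact_mod_cast hv0
  obtain ⟨t, ht⟩ : ∃ t : ℝ, t = (v : ℝ) + u + 1 := ⟨_, rfl⟩
  have ht2 : t ≤ 2 * v := by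
    rw [ht]
    have h1 : v + u + 1 ≤ 2 * v := by omega
    exact_mod_cast h1
  have ht1 : 1 ≤ t := by
    rw [ht]
    linarith
  -- the large number
  have hexp : Real.exp c ≤ (v : ℝ) + u := by
    have h1 : ⌈Real.exp c⌉₊ ≤ v + u := by omega
    have h2 : (⌈Real.exp c⌉₊ : ℝ) ≤ (v : ℝ) + u := by exact_mod_cast h1
    exact (Nat.le_ceil _).trans h2
  -- the ratio
  have hratio : ((v : ℝ) + u) ^ m ≤ (v : ℝ) ^ m * Real.exp (2 * u * A * t) := by
    have h1 : (v : ℝ) + u ≤ v * Real.exp (u / v) := by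
      have h2 := Real.add_one_le_exp ((u : ℝ) / v)
      have h3 : (v : ℝ) + u = v * (u / v + 1) := by
        field_simp
        ring
      rw [h3]
      exact mul_le_mul_of_nonneg_left h2 hvr.le
    calc ((v : ℝ) + u) ^ m ≤ (v * Real.exp (u / v)) ^ m :=
          pow_le_pow_left₀ (by positivity) h1 m
      _ = (v : ℝ) ^ m * Real.exp (m * (u / v)) := by
          rw [mul_pow, ← Real.exp_nat_mul]
      _ ≤ (v : ℝ) ^ m * Real.exp (2 * u * A * t) := by
          refine mul_le_mul_of_nonneg_left (Real.exp_le_exp.2 ?_) (by positivity)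
          have h4 : (m : ℝ) ≤ A * t ^ 2 := by
            rw [ht]
            exact_mod_cast hm
          have h5 : (m : ℝ) * (u / v) = m * u / v := by ring
          rw [h5, div_le_iff₀ hvr]
          have h6 : (m : ℝ) * u ≤ A * t ^ 2 * u := mul_le_mul_of_nonneg_right h4 hu0.le
          have h7 : 2 * u * A * t * t ≤ 2 * u * A * t * (2 * v) :=
            mul_le_mul_of_nonneg_left ht2 (by positivity)
          nlinarith [h6, h7]
  -- the power
  have hpow : Real.exp ((2 * u * A + 28 * u) * t) ≤ ((v : ℝ) + u) ^ i := by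
    have h1 : (2 * u * A + 28 * u) * t ≤ i * c := by
      have h2 : t ≤ 100 * u * i := by
        rw [ht]
        exact_mod_cast hi
      have h3 : (0 : ℝ) ≤ 2 * u * A + 28 * u := by positivity
      have h4 := mul_le_mul_of_nonneg_left h2 h3
      rw [hc]
      linarith
    calc Real.exp ((2 * u * A + 28 * u) * t) ≤ Real.exp (i * c) := Real.exp_le_exp.2 h1
      _ = Real.exp c ^ i := by rw [Real.exp_nat_mul]
      _ ≤ ((v : ℝ) + u) ^ i := pow_le_pow_left₀ (Real.exp_pos c).le hexp i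
  have hsmall : ((28 * (u - 1) : ℕ) : ℝ) < Real.exp (28 * u * t) := by
    have h1 : ((28 * (u - 1) : ℕ) : ℝ) ≤ 28 * u := by
      have h2 : 28 * (u - 1) ≤ 28 * u := by omega
      exact_mod_cast h2
    have h3 : (28 : ℝ) * u ≤ 28 * u * t := by
      have : (0 : ℝ) ≤ 28 * u := by positivity
      nlinarith
    have h4 := Real.add_one_le_exp (28 * (u : ℝ) * t)
    linarith
  have key : ((28 * (u - 1) : ℕ) : ℝ) * ((v : ℝ) + u) ^ m < (v : ℝ) ^ m * ((v : ℝ) + u) ^ i := by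
    have h1 : 0 < ((v : ℝ) + u) ^ m := by positivity
    calc ((28 * (u - 1) : ℕ) : ℝ) * ((v : ℝ) + u) ^ m
        < Real.exp (28 * u * t) * ((v : ℝ) + u) ^ m := mul_lt_mul_of_pos_right hsmall h1
      _ ≤ Real.exp (28 * u * t) * ((v : ℝ) ^ m * Real.exp (2 * u * A * t)) :=
          mul_le_mul_of_nonneg_left hratio (Real.exp_pos _).le
      _ = (v : ℝ) ^ m * Real.exp ((2 * u * A + 28 * u) * t) := by
          rw [add_mul, Real.exp_add]
          ring
      _ ≤ (v : ℝ) ^ m * ((v : ℝ) + u) ^ i :=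
          mul_le_mul_of_nonneg_left hpow (by positivity)
  exact_mod_cast key

/-- `n = 2k+a`, `t = n / k` (floor), `j = (t-1) / (50 u)` (floor). `t k ≤ n < (t+1) k`,
`k^2 (k-1) < 4·32^u (t+1)^2 k^2`, so `k - 1 < 16·32^u t^2`; put `A = 16·32^u`, so `t` is large when
`k` is. `j ≤ t ≤ k` by `hnk`, `50 u j k ≤ (t-1) k ≤ n - k`, so `50 (u-1) j (k-1) ≤ n - k - 1` if
`j ≥ 1`.
(i) `C(n-1,k-j) (t-1)^(j-2) ≤ C(n-1,k-2)`: `C(n-1,m-1) (n-m) = C(n-1,m) m`, `m ≤ k`,
`n - m ≥ (t-1) k`.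
(ii) `C(n-1,k-2) (t-u-1)^(k-2) ≤ C(n-uk-1,k-2) (t-1)^(k-2)` factorwise:
`y (t-u-1) ≤ (y-uk) (t-1)` for `y = n-1-i ≥ n-k ≥ (t-1) k`; `n-uk-1 = k-1+b`.
(iii) `28 (u-1) (t-1)^(k-2) < (t-u-1)^(k-2) (t-1)^(j-2)`: `((t-1)/(t-u-1))^(k-2) ≤
exp(u (k-2)/(t-u-1)) ≤ exp(2 u A t)` for `t ≥ 2(u+1)`, `j - 2 ≥ t/(100 u)` and `t` is large.
Together, with `C(k,j) ≥ 1`. -/
theorem num_f (u : ℕ) (hu : 2 ≤ u) : ∃ k₀ : ℕ, ∀ k a b : ℕ, k₀ ≤ k → 1 ≤ b →
    a + k = u * k + b → 2 * k + a ≤ k ^ 2 →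
    k ^ 2 * (k - 1) < 4 * 32 ^ u * (2 * k + a) ^ 2 →
    ∃ j ≤ k, 50 * (u - 1) * j * (k - 1) ≤ k + a - 1 ∧
      28 * (u - 1) * (2 * k + a - 1).choose (k - j) < (k - 1 + b).choose (k - 2) * k.choose j := by
  obtain ⟨T, hT0, hT⟩ := numF_three u hu
  refine ⟨16 * 32 ^ u * T ^ 2 + 4, fun k a b hk hb hab hnk hlt => ?_⟩
  have hk4 : 4 ≤ k := by omega
  obtain ⟨n, hn⟩ : ∃ n, n = 2 * k + a := ⟨_, rfl⟩
  rw [← hn] at hnk hlt ⊢
  obtain ⟨t, ht⟩ : ∃ t, t = n / k := ⟨_, rfl⟩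
  have htk : t * k ≤ n := by
    rw [ht]
    exact Nat.div_mul_le_self n k
  have htk' : n < (t + 1) * k := by
    rw [ht, Nat.mul_comm]
    exact Nat.lt_mul_div_succ n (by omega)
  have hut : u + 1 ≤ t := by
    rw [ht, Nat.le_div_iff_mul_le (by omega)]
    have h1 : (u + 1) * k = u * k + k := by ring
    omega
  obtain ⟨v, hv⟩ : ∃ v, t = v + u + 1 := ⟨t - u - 1, by omega⟩
  -- `k ≤ A t^2`
  have hkA : k ≤ 16 * 32 ^ u * t ^ 2 := by
    have h1 : n ^ 2 ≤ ((t + 1) * k) ^ 2 := Nat.pow_le_pow_left htk'.le 2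
    have h2 : k ^ 2 * (k - 1) < k ^ 2 * (4 * 32 ^ u * (t + 1) ^ 2) := by
      calc k ^ 2 * (k - 1) < 4 * 32 ^ u * n ^ 2 := hlt
        _ ≤ 4 * 32 ^ u * ((t + 1) * k) ^ 2 := Nat.mul_le_mul_left _ h1
        _ = k ^ 2 * (4 * 32 ^ u * (t + 1) ^ 2) := by ring
    have h3 : k - 1 < 4 * 32 ^ u * (t + 1) ^ 2 := Nat.lt_of_mul_lt_mul_left h2
    have h4 : (t + 1) ^ 2 ≤ 4 * t ^ 2 := by
      have : 1 ≤ t := by omega
      nlinarith
    have h5 : 4 * 32 ^ u * (t + 1) ^ 2 ≤ 4 * 32 ^ u * (4 * t ^ 2) := Nat.mul_le_mul_left _ h4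
    have h6 : 4 * 32 ^ u * (4 * t ^ 2) = 16 * 32 ^ u * t ^ 2 := by ring
    omega
  have hTt : T ≤ t := by
    by_contra h
    have h1 : t ^ 2 ≤ T ^ 2 := Nat.pow_le_pow_left (by omega) 2
    have h2 := Nat.mul_le_mul_left (16 * 32 ^ u) h1
    omega
  have htlek : t ≤ k := by
    have h1 : t * k ≤ k * k := htk.trans (by rw [← pow_two]; exact hnk)
    exact Nat.le_of_mul_le_mul_right h1 (by omega)
  obtain ⟨j, hj⟩ : ∃ j, j = (t - 1) / (50 * u) := ⟨_, rfl⟩
  have hj1 : j * (50 * u) ≤ t - 1 := by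
    rw [hj]
    exact Nat.div_mul_le_self _ _
  have hj2 : t - 1 < 50 * u * (j + 1) := by
    rw [hj]
    exact Nat.lt_mul_div_succ _ (by omega)
  have hjt : j ≤ t - 1 := le_trans (Nat.le_mul_of_pos_right j (by omega)) hj1
  -- `j ≥ 2` and `t ≤ 100 u (j - 2)`
  obtain ⟨i, hi, hi'⟩ : ∃ i, j = i + 2 ∧ t ≤ 100 * u * i := by
    have h1 : t ≤ 50 * u * (j + 1) := by omega
    have hj3 : 2 ≤ j := by
      by_contra h
      have h2 : 50 * u * (j + 1) ≤ 50 * u * 2 := Nat.mul_le_mul_left _ (by omega)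
      omega
    obtain ⟨i, rfl⟩ : ∃ i, j = i + 2 := ⟨j - 2, by omega⟩
    refine ⟨i, rfl, ?_⟩
    have h3 : 50 * u * (i + 2 + 1) = 50 * (u * i) + 150 * u := by ring
    have h4 : 100 * u * i = 100 * (u * i) := by ring
    omega
  refine ⟨j, by omega, ?_, ?_⟩
  · have h1 : 50 * (u - 1) * j ≤ t - 1 := by
      refine le_trans ?_ hj1
      rw [Nat.mul_comm j]
      exact Nat.mul_le_mul_right _ (Nat.mul_le_mul_left _ (Nat.sub_le _ _))
    have h2 : 50 * (u - 1) * j * (k - 1) ≤ (t - 1) * (k - 1) := Nat.mul_le_mul_right _ h1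
    have h3 : (t - 1) * (k - 1) + (t - 1) + k = t * k := by
      obtain ⟨s, rfl⟩ : ∃ s, t = s + 1 := ⟨t - 1, by omega⟩
      obtain ⟨l, rfl⟩ : ∃ l, k = l + 1 := ⟨k - 1, by omega⟩
      simp only [Nat.add_sub_cancel]
      ring
    omega
  · obtain ⟨N, hN⟩ : ∃ N, N = n - 1 := ⟨_, rfl⟩
    have hN1 : N + 1 = n := by omega
    rw [← hN]
    have hZ : k - 1 + b = N - u * k := by omega
    rw [hZ]
    have e1 := numF_one N k t (by rw [hN1]; exact htk) (by omega) (k - j) i (by omega)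
    have e1' : k - j + i = k - 2 := by omega
    rw [e1', hv, Nat.add_sub_cancel] at e1
    have e2 := numF_two N k v u (by rw [hN1, ← hv]; exact htk) (k - 2) (by omega)
    have e3 := hT v (by omega) (k - 2) i (by rw [← hv]; omega) (by rw [← hv]; exact hi')
    have hX : 0 < N.choose (k - j) := Nat.choose_pos (by omega)
    have hs : 0 < (v + u) ^ (k - 2) := Nat.pow_pos (by omega)
    have hfin : 28 * (u - 1) * N.choose (k - j) < (N - u * k).choose (k - 2) := by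
      refine Nat.lt_of_mul_lt_mul_right (a := (v + u) ^ (k - 2)) ?_
      calc 28 * (u - 1) * N.choose (k - j) * (v + u) ^ (k - 2)
          = N.choose (k - j) * (28 * (u - 1) * (v + u) ^ (k - 2)) := by ring
        _ < N.choose (k - j) * (v ^ (k - 2) * (v + u) ^ i) := Nat.mul_lt_mul_of_pos_left e3 hX
        _ = N.choose (k - j) * (v + u) ^ i * v ^ (k - 2) := by ring
        _ ≤ N.choose (k - 2) * v ^ (k - 2) := Nat.mul_le_mul_right _ e1
        _ ≤ (N - u * k).choose (k - 2) * (v + u) ^ (k - 2) := e2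
    exact lt_of_lt_of_le hfin (Nat.le_mul_of_pos_right _ (Nat.choose_pos (by omega)))

end Pool.Agent.Lib.MP_fffc5a_co.W
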