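import Mathlib
import Pool.Agent.Lib.MP_fffc5a_co.W.Core
import Pool.Agent.Lib.MP_fffc5a_co.W.DpSmall
import Pool.Agent.Lib.MP_fffc5a_co.W.CloseW
import Pool.Agent.Lib.MP_fffc5a_co.W.BigA

/-!
The upper bound at every level.
-/

set_option autoImplicit false

open Finset

namespace Pool.Agent.Lib.MP_fffc5a_co.W

/-- `K = max C (8·10⁶)^u + 1`-ish so that `hK` gives the strict inequalities of `dp_small`, `big_a`
(`v - 1 ≥ 1`, `L ≥ 1`). If `|F| ≤ L` there is nothing to show (`E₀ = ∅`; `u ≥ 1`). Otherwise `kst_large`, `dp_small`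
for the subfamilies with `L + 1` members, `close_w`, `big_a`, `core`; `card_add_miss`:
`|F| + |Miss| = |E| + L` and `2 |E| ≤ 2 |X₀| + |Miss|`. -/
theorem upper_g {u : ℕ} (hu : 2 ≤ u) : ∃ C : ℕ, 1 ≤ C ∧ ∀ k a v i : ℕ, C ≤ k → k + 1 ≤ a →
    u ≤ v → k * (v - 1) ≤ (k - C) * (k + i).choose (k - 1) →
    C * (v - 1) * ((2 * k + a - 1).choose (k - 1)) ^ (u - 1) ≤
      ((k + a - 1).choose (k - 1)) ^ u →
    ∀ F : Finset (Finset (Fin (2 * k + a))), (∀ s ∈ F, s.card = k) → UI u v F →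
    ∃ x : Fin (2 * k + a), ∃ E₀ : Finset (Finset (Fin (2 * k + a))),
      (∀ s ∈ E₀, s.card = k ∧ x ∉ s) ∧
      (∀ T ⊆ E₀, T.card = u → k + a ≤ (T.biUnion id).card + i) ∧
      F.card ≤ (2 * k + a - 1).choose (k - 1) + E₀.card := by
  obtain ⟨C₀, hC₀, hcore⟩ := core hu
  refine ⟨max C₀ ((8 * 10 ^ 6) ^ u + 1), le_max_of_le_left hC₀, ?_⟩
  intro k a v i hk ha huv hv hW F hF hUI
  have hk1 : C₀ ≤ k := (le_max_left _ _).trans hk
  have hk2 : (8 * 10 ^ 6) ^ u + 1 ≤ k := (le_max_right _ _).trans hk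
  have hP : 0 < (8 * 10 ^ 6 : ℕ) ^ u := by positivity
  have hk3 : 2 ≤ k := by omega
  have hL0 : 0 < (2 * k + a - 1).choose (k - 1) := Nat.choose_pos (by omega)
  have hpos : 0 < (v - 1) * ((2 * k + a - 1).choose (k - 1)) ^ (u - 1) :=
    Nat.mul_pos (by omega) (Nat.pow_pos hL0)
  have h8 : (8 * 10 ^ 6) ^ u * (v - 1) * ((2 * k + a - 1).choose (k - 1)) ^ (u - 1) <
      ((k + a - 1).choose (k - 1)) ^ u := by
    refine lt_of_lt_of_le ?_ hW
    rw [mul_assoc, mul_assoc]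
    exact Nat.mul_lt_mul_of_pos_right (lt_of_lt_of_le (Nat.lt_succ_self _) (le_max_right _ _)) hpos
  rcases Nat.lt_or_ge ((2 * k + a - 1).choose (k - 1)) F.card with hcard | hcard
  · obtain ⟨hL, h20⟩ := kst_large hk3 hu (by omega) h8
    obtain ⟨x, hx⟩ := close_w hk3 (by omega) h20 hL hF hcard (fun F' hF' hc =>
      dp_small hk3 hu (by omega) (by omega) h8
        (fun A hA B hB h1 h2 => hUI A (hA.trans hF') B (hB.trans hF') h1 h2) hc)
    have h32 : 32 ^ u * (v - 1) * ((2 * k + a - 1).choose (k - 1)) ^ (u - 1) <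
        ((k + a - 1).choose (k - 1)) ^ u := by
      refine lt_of_le_of_lt ?_ h8
      exact Nat.mul_le_mul_right _ (Nat.mul_le_mul_right _ (Nat.pow_le_pow_left (by norm_num) u))
    have hbig := big_a hk3 hu (by omega) (by omega) h32 hF hUI x hcard hx
    have hv' : k * (v - 1) ≤ (k - C₀) * (k + i).choose (k - 1) :=
      hv.trans (Nat.mul_le_mul_right _ (Nat.sub_le_sub_left (le_max_left _ _) k))
    obtain ⟨X₀, hX₀, hX1, hX2⟩ := hcore k a v i hk1 ha (by omega) hv' F hF hUI x hcard.le hbig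
    refine ⟨x, X₀, fun s hs => ?_, hX1, ?_⟩
    · have h1 := mem_filter.1 (hX₀ hs)
      exact ⟨hF s h1.1, h1.2⟩
    · have h1 := card_add_miss (k := k) (by omega) hF x
      rw [Fintype.card_fin] at h1
      omega
  · refine ⟨⟨0, by omega⟩, ∅, fun s hs => absurd hs (notMem_empty s), fun T hT hTu => ?_, by simpa using hcard⟩
    have h1 : T = ∅ := subset_empty.1 hT
    rw [h1, card_empty] at hTu
    omega

end Pool.Agent.Lib.MP_fffc5a_co.W
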