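import Mathlib
import Pool.Agent.Lib.MP_fffc5a_co.W.Finish
import Pool.Agent.Lib.MP_fffc5a_co.W.DpSmall
import Pool.Agent.Lib.MP_fffc5a_co.W.DpLarge
import Pool.Agent.Lib.MP_fffc5a_co.W.CloseW
import Pool.Agent.Lib.MP_fffc5a_co.W.BigA
import Pool.Agent.Lib.MP_fffc5a_co.W.BigB
import Pool.Agent.Lib.MP_fffc5a_co.W.EndA
import Pool.Agent.Lib.MP_fffc5a_co.W.NumD
import Pool.Agent.Lib.MP_fffc5a_co.W.NumF

/-!
The upper bound near the first threshold.
-/

set_option autoImplicit false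

open Finset

namespace Pool.Agent.Lib.MP_fffc5a_co.W

/-- `K = 4·10⁶ + u + 2`. If `|F| ≤ L` nothing to show. `v - 1 ≤ T + Δ = C(k+b,k-1)`.
(1) `2k+a ≤ K k`: `num_d`, `kst_large`, `dp_small`, `close_w`, `big_a` (`32^u ≤ (8·10⁶)^u`),
`finish_core`.
(2) `2k+a > K k`: then `b ≥ k`, `Δ ≤ T` (`Δ (b+1) = T (k-1)`), `v - 1 ≤ 2 T`. `t_lt_w` and
`C (2k+a) ≤ k^2`: `T C ≤ 4 W`-ish, so `4·10⁶·4^u (v-1) ≤ W` and `50 (v-1) ≤ W`. `dp_large` for the
subfamilies with `L + 1` members (`10⁶ ≤ L`: `4·10⁶ ≤ W ≤ L`), `close_w`: `x`.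
(2a) `4·32^u n^2 ≤ k^2 (k-1)`: `num_r2`, `big_a`, `finish_core`.
(2b) otherwise `num_f` gives `j`, `big_b`: `|E| C(k,j) ≤ 14 (u-1) C(n-1,k-j)`, so `2 |E| < Δ`;
`|Miss| ≤ |E|` (`card_add_miss`), so `|Miss| + (v-1) < T + Δ`: `end_a`. -/
theorem upper_w {u : ℕ} (hu : 2 ≤ u) : ∃ C : ℕ, ∀ k a b v : ℕ, C ≤ k → 1 ≤ b → u ≤ v →
    a + k = u * k + b → C * (2 * k + a) ≤ k ^ 2 →
    2 * (v - (k - 1 + b).choose (k - 1)) ≤ (k - 1 + b).choose (k - 2) →
    ∀ F : Finset (Finset (Fin (2 * k + a))), (∀ s ∈ F, s.card = k) → UI u v F →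
    F.card ≤ (2 * k + a - 1).choose (k - 1) +
      min ((2 * k + a - 1) / k) (u - 1 + (v - (k - 1 + b).choose (k - 1))) := by
  obtain ⟨K, hK⟩ : ∃ K : ℕ, K = 4 * 10 ^ 6 + u + 2 := ⟨_, rfl⟩
  obtain ⟨k1, hk1⟩ := num_d u K hu (by omega)
  obtain ⟨k2, hk2⟩ := num_f u hu
  obtain ⟨C3, hC3⟩ := finish_core hu
  obtain ⟨M, hM⟩ : ∃ M : ℕ, M = 4 * 10 ^ 6 * 4 ^ u := ⟨_, rfl⟩
  have hM50 : 50 ≤ M := by
    rw [hM]
    have h1 : 1 ≤ 4 ^ u := Nat.one_le_pow _ _ (by norm_num)
    omega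
  refine ⟨k1 + k2 + C3 + 2 * u + 4 * M, ?_⟩
  intro k a b v hkC hb huv hab hCk hΔ F hF hUI
  obtain ⟨L, hL⟩ : ∃ L, L = (2 * k + a - 1).choose (k - 1) := ⟨_, rfl⟩
  obtain ⟨W, hW⟩ : ∃ W, W = (k + a - 1).choose (k - 1) := ⟨_, rfl⟩
  obtain ⟨T, hT⟩ : ∃ T, T = (k - 1 + b).choose (k - 1) := ⟨_, rfl⟩
  obtain ⟨Δ, hD⟩ : ∃ Δ, Δ = (k - 1 + b).choose (k - 2) := ⟨_, rfl⟩
  rcases Nat.lt_or_ge L F.card with hcard | hcard
  swap
  · rw [← hL]
    exact hcard.trans (Nat.le_add_right _ _)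
  have hk2' : 2 ≤ k := by omega
  have hv2 : 2 ≤ v := hu.trans huv
  have huk : 2 * k ≤ u * k := Nat.mul_le_mul_right k hu
  have ha : k ≤ a := by omega
  have hUI' : ∀ F' ⊆ F, UI u v F' := fun F' hF' A hA B hB =>
    hUI A (hA.trans hF') B (hB.trans hF')
  have hpas : (k + b).choose (k - 1) = Δ + T := by
    obtain ⟨r, hr⟩ : ∃ r, k = r + 2 := ⟨k - 2, by omega⟩
    have e1 : k + b = (r + 1 + b) + 1 := by omega
    have e2 : k - 1 = r + 1 := by omega
    have e3 : k - 2 = r := by omega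
    rw [hD, hT, e1, e2, e3, Nat.choose_succ_succ']
  have hvT : v ≤ T + Δ := by
    rw [← hT, ← hD] at hΔ
    omega
  have hvT' : v - 1 ≤ (k + b).choose (k - 1) := by
    rw [hpas]
    omega
  have hC3' : C3 * (2 * k + a) ≤ k ^ 2 :=
    (Nat.mul_le_mul_right _ (by omega)).trans hCk
  -- the case of few members outside the star
  have hfin : ∀ x : Fin (2 * k + a), (F.filter fun s => x ∉ s).card < 8 * u * 2 ^ k →
      F.card ≤ (2 * k + a - 1).choose (k - 1) +
        min ((2 * k + a - 1) / k) (u - 1 + (v - (k - 1 + b).choose (k - 1))) := by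
    intro x hx
    exact hC3 k a b v (by omega) hb hv2 hab hC3' hΔ F hF hUI x (by rw [← hL]; exact hcard.le) hx
  rcases Nat.lt_or_ge (K * k) (2 * k + a) with hcase | hcase
  · -- large `n / k`
    have hKk : K * k = 4 * 10 ^ 6 * k + u * k + 2 * k := by
      rw [hK]
      ring
    rw [hKk] at hcase
    have hbk : k ≤ b := by omega
    have h2k : 4 * 10 ^ 6 * k ≤ 2 * k + a := by omega
    have hΔT : Δ ≤ T := by
      obtain ⟨r, hr⟩ : ∃ r, k = r + 2 := ⟨k - 2, by omega⟩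
      have e2 : k - 1 = r + 1 := by omega
      have e3 : k - 2 = r := by omega
      have h1 := Nat.choose_succ_right_eq (r + 1 + b) r
      have e4 : r + 1 + b - r = b + 1 := by omega
      rw [e4] at h1
      rw [hD, hT, e2, e3]
      have h2 : (r + 1 + b).choose r * (b + 1) ≤ (r + 1 + b).choose (r + 1) * (b + 1) := by
        rw [← h1]
        exact Nat.mul_le_mul_left _ (by omega)
      exact Nat.le_of_mul_le_mul_right h2 (by omega)
    have hv2T : v - 1 ≤ 2 * T := by omega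
    have htw := t_lt_w hu (by omega : 1 ≤ k) hab
    rw [← hT, ← hW] at htw
    have hTW : 2 * M * T ≤ W := by
      have h1 : T * (k * (k - 1)) ≤ W * (2 * k + a) := by
        refine le_trans (Nat.mul_le_mul_left _ ?_) htw
        omega
      have h2 : 4 * M * (2 * k + a) ≤ k ^ 2 :=
        (Nat.mul_le_mul_right _ (by omega)).trans hCk
      have h3 : k ^ 2 ≤ 2 * (k * (k - 1)) := by
        have h6 : k * k ≤ k * (2 * (k - 1)) := Nat.mul_le_mul_left _ (by omega)
        calc k ^ 2 = k * k := sq k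
          _ ≤ k * (2 * (k - 1)) := h6
          _ = 2 * (k * (k - 1)) := by ring
      have h4 : 2 * M * T * (2 * k + a) ≤ W * (2 * k + a) := by
        have h5 : 2 * (2 * M * T * (2 * k + a)) ≤ 2 * (W * (2 * k + a)) := by
          calc 2 * (2 * M * T * (2 * k + a)) = T * (4 * M * (2 * k + a)) := by ring
            _ ≤ T * (2 * (k * (k - 1))) := Nat.mul_le_mul_left _ (h2.trans h3)
            _ = 2 * (T * (k * (k - 1))) := by ring
            _ ≤ 2 * (W * (2 * k + a)) := Nat.mul_le_mul_left _ h1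
        exact Nat.le_of_mul_le_mul_left h5 (by norm_num)
      exact Nat.le_of_mul_le_mul_right h4 (by omega)
    have hMv : M * (v - 1) ≤ W := by
      calc M * (v - 1) ≤ M * (2 * T) := Nat.mul_le_mul_left _ hv2T
        _ = 2 * M * T := by ring
        _ ≤ W := hTW
    have hWL : W ≤ L := by
      rw [hW, hL]
      exact Nat.choose_le_choose _ (by omega)
    have hM6 : 4 * 10 ^ 6 ≤ M := by
      rw [hM]
      exact Nat.le_mul_of_pos_right _ (by positivity)
    have hL6 : 10 ^ 6 ≤ L := by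
      have h1 : M * 1 ≤ M * (v - 1) := Nat.mul_le_mul_left _ (by omega)
      omega
    have h50 : 50 * (v - 1) ≤ W := (Nat.mul_le_mul_right _ hM50).trans hMv
    have hdp : ∀ F' ⊆ F, F'.card = (2 * k + a - 1).choose (k - 1) + 1 →
        500000 * dp F' F' ≤ (k + a - 2).choose (a - 1) * F'.card := by
      intro F' hF' hc
      refine dp_large hu hv2 (by omega) hab h2k ?_ ?_ (fun s hs => hF s (hF' hs)) (hUI' F' hF') hc
      · rw [← hT]
        exact hv2T
      · rw [← hM, ← hW]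
        exact hMv
    obtain ⟨x, hx⟩ := close_w hk2' ha (by omega) (by rw [← hL]; exact hL6) hF
      (by rw [← hL]; exact hcard) hdp
    rcases Nat.lt_or_ge (k ^ 2 * (k - 1)) (4 * 32 ^ u * (2 * k + a) ^ 2) with hc2 | hc2
    · have hnk : 2 * k + a ≤ k ^ 2 := by
        refine le_trans ?_ hCk
        exact Nat.le_mul_of_pos_left _ (by omega)
      obtain ⟨j, hjk, hj, hnum⟩ := hk2 k a b (by omega) hb hab hnk hc2
      have hbb := big_b hu hk2' ha (by omega : 1 ≤ v) hjk (by rw [← hW]; exact h50) hj hF hUI x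
        (by rw [← hL]; exact hcard) hx
      rw [← hD] at hnum
      have hE : 2 * (F.filter fun s => x ∉ s).card < Δ := by
        have h1 : 2 * (F.filter fun s => x ∉ s).card * k.choose j < Δ * k.choose j := by
          refine lt_of_le_of_lt ?_ hnum
          calc 2 * (F.filter fun s => x ∉ s).card * k.choose j
              = 2 * ((F.filter fun s => x ∉ s).card * k.choose j) := by ring
            _ ≤ 2 * (14 * (u - 1) * (2 * k + a - 1).choose (k - j)) :=
                Nat.mul_le_mul_left _ hbb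
            _ = 28 * (u - 1) * (2 * k + a - 1).choose (k - j) := by ring
        exact lt_of_mul_lt_mul_right h1 (Nat.zero_le _)
      have hmiss := card_add_miss (by omega : 1 ≤ k) hF x
      rw [Fintype.card_fin, ← hL] at hmiss
      refine end_a hu hv2 (by omega) hb hab hF hUI x ?_
      rw [hpas]
      rw [← hT, ← hD] at hΔ
      omega
    · have h32 := num_r2 hu hk2' hab hc2 (by rw [← hT]; exact hv2T)
      exact hfin x (big_a hk2' hu hv2 ha h32 hF hUI x (by rw [← hL]; exact hcard) hx)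
  · -- bounded `n / k`
    have hd := hk1 k a b v (by omega) hab hcase hvT'
    obtain ⟨hL6, h20⟩ := kst_large hk2' hu hv2 hd
    have hdp : ∀ F' ⊆ F, F'.card = (2 * k + a - 1).choose (k - 1) + 1 →
        500000 * dp F' F' ≤ (k + a - 2).choose (a - 1) * F'.card := fun F' hF' hc =>
      dp_small hk2' hu hv2 ha hd (hUI' F' hF') hc
    obtain ⟨x, hx⟩ := close_w hk2' ha h20 hL6 hF (by rw [← hL]; exact hcard) hdp
    have h32 : 32 ^ u * (v - 1) * ((2 * k + a - 1).choose (k - 1)) ^ (u - 1) <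
        ((k + a - 1).choose (k - 1)) ^ u := by
      refine lt_of_le_of_lt ?_ hd
      refine Nat.mul_le_mul_right _ (Nat.mul_le_mul_right _ ?_)
      exact Nat.pow_le_pow_left (by norm_num) u
    exact hfin x (big_a hk2' hu hv2 ha h32 hF hUI x (by rw [← hL]; exact hcard) hx)

end Pool.Agent.Lib.MP_fffc5a_co.W
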